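import Pool.Agent.W192.PP.Gauss

open Complex Filter Topology Set MeasureTheory

namespace Pool.Agent.W192.PP

open SG (phi hh dl phi_norm)
open SG.Deep (gauss_integrable gauss_integral)
open SP SP.EvalAux
open Pool.Agent.W192.SI (Adm dd ev_small4' ev_small4)

/-- the integrated weight -/
noncomputable def wW (D a b t : ℝ) : ℝ := ∫ τ in a..b, wt τ D t

theorem wt_cont2 (D : ℝ) : Continuous (Function.uncurry fun t τ : ℝ => wt τ D t) := by
  unfold wt Function.uncurry
  fun_prop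

theorem wW_cont (D a b : ℝ) : Continuous (wW D a b) := by
  unfold wW
  exact intervalIntegral.continuous_parametric_intervalIntegral_of_continuous' (wt_cont2 D) a b

theorem wW_nonneg {D a b : ℝ} (h : a ≤ b) (t : ℝ) : 0 ≤ wW D a b t := by
  unfold wW
  exact intervalIntegral.integral_nonneg h fun τ _ => (Real.exp_pos _).le

theorem wW_le {D a b : ℝ} (hD : 0 < D) (h : a ≤ b) (t : ℝ) : wW D a b t ≤ 3 * D := by
  unfold wW
  have e : ∀ τ : ℝ, wt τ D t = Real.exp (-(τ - t) ^ 2 / (2 * D ^ 2)) := by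
    intro τ
    unfold wt
    congr 2
    ring
  simp only [e]
  rw [intervalIntegral.integral_of_le h]
  have h2 := setIntegral_le_integral (s := Set.Ioc a b) (gauss_integrable D t hD)
    (Eventually.of_forall fun t => (Real.exp_pos _).le)
  refine h2.trans ?_
  rw [gauss_integral _ _ hD]
  have h5 : Real.sqrt (2 * Real.pi) ≤ 3 := by
    rw [Real.sqrt_le_left (by norm_num)]
    have := Real.pi_lt_four
    linarith
  nlinarith

/-- Fubini -/
theorem swap {D a b U1 U2 : ℝ} (hab : a ≤ b) (hU : U1 ≤ U2) (q : ℝ → ℝ)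
    (hq : ContinuousOn q (Icc U1 U2)) :
    ∫ t in U1..U2, wW D a b t * q t = ∫ τ in a..b, ∫ t in U1..U2, wt τ D t * q t := by
  have h1 : ∀ t : ℝ, wW D a b t * q t = ∫ τ in a..b, wt τ D t * q t := by
    intro t
    rw [intervalIntegral.integral_mul_const]
    rfl
  simp only [h1]
  apply intervalIntegral_intervalIntegral_swap
  rw [uIoc_of_le hU, uIoc_of_le hab]
  have hc : ContinuousOn (Function.uncurry fun t τ : ℝ => wt τ D t * q t)
      (Icc U1 U2 ×ˢ Icc a b) := by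
    have e : (Function.uncurry fun t τ : ℝ => wt τ D t * q t) = fun p : ℝ × ℝ =>
        (Function.uncurry fun t τ : ℝ => wt τ D t) p * q p.1 := rfl
    rw [e]
    apply (wt_cont2 D).continuousOn.mul
    exact hq.comp continuous_fst.continuousOn (fun p hp => hp.1)
  have hi := hc.integrableOn_compact (μ := volume) (isCompact_Icc.prod isCompact_Icc)
  exact hi.mono_set (Set.prod_mono Ioc_subset_Icc_self Ioc_subset_Icc_self)

/-- the weight of a swapped lower bound -/
theorem swap_lower {D a b U1 U2 m : ℝ} (hab : a ≤ b) (hU : U1 ≤ U2) (q : ℝ → ℝ)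
    (hq : ContinuousOn q (Icc U1 U2))
    (h : ∀ τ ∈ Icc a b, m ≤ ∫ t in U1..U2, wt τ D t * q t) :
    (b - a) * m ≤ ∫ t in U1..U2, wW D a b t * q t := by
  rw [swap hab hU q hq]
  have hcont : ContinuousOn (fun τ : ℝ => ∫ t in U1..U2, wt τ D t * q t) (Icc a b) := by
    have hq' : IntervalIntegrable q volume U1 U2 :=
      ContinuousOn.intervalIntegrable (by rwa [uIcc_of_le hU])
    apply Continuous.continuousOn
    apply intervalIntegral.continuous_of_dominated_interval (bound := fun t => ‖q t‖)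
    · intro τ
      apply AEStronglyMeasurable.mul
      · apply Continuous.aestronglyMeasurable
        unfold wt
        fun_prop
      · exact hq'.def'.aestronglyMeasurable
    · intro τ
      refine Eventually.of_forall fun t _ => ?_
      rw [norm_mul]
      have : ‖wt τ D t‖ ≤ 1 := by
        unfold wt
        rw [Real.norm_of_nonneg (Real.exp_pos _).le, Real.exp_le_one_iff]
        apply div_nonpos_of_nonpos_of_nonneg
        · nlinarith [sq_nonneg (t - τ)]
        · positivity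
      nlinarith [norm_nonneg (q t)]
    · exact hq'.norm
    · refine Eventually.of_forall fun t _ => ?_
      unfold wt
      fun_prop
  have h2 : ∫ _τ in a..b, m ≤ ∫ τ in a..b, ∫ t in U1..U2, wt τ D t * q t := by
    apply intervalIntegral.integral_mono_on hab
    · simp
    · exact ContinuousOn.intervalIntegrable (by rwa [uIcc_of_le hab])
    · exact h
  simpa using h2

theorem swap_upper {D a b U1 U2 m : ℝ} (hab : a ≤ b) (hU : U1 ≤ U2) (q : ℝ → ℝ)
    (hq : ContinuousOn q (Icc U1 U2))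
    (h : ∀ τ ∈ Icc a b, ∫ t in U1..U2, wt τ D t * q t ≤ m) :
    ∫ t in U1..U2, wW D a b t * q t ≤ (b - a) * m := by
  have h1 := swap_lower (D := D) (m := -m) hab hU (fun t => -q t) hq.neg (by
    intro τ hτ
    have := h τ hτ
    simp only [mul_neg, intervalIntegral.integral_neg]
    linarith)
  simp only [mul_neg, intervalIntegral.integral_neg] at h1
  linarith

theorem dp_left (c ε T : ℝ) (N : ℕ) (s : ℂ) (hs : -5 ≤ s.re) :
    ‖DP N (d0 c ε T) s‖ ≤ (N : ℝ) ^ 6 := by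
  unfold DP
  calc ‖∑ n ∈ Finset.Icc 1 N, d0 c ε T n * (n : ℂ) ^ (-s)‖
      ≤ ∑ n ∈ Finset.Icc 1 N, (N : ℝ) ^ 5 := by
        apply norm_sum_le_of_le
        intro n hn
        rw [Finset.mem_Icc] at hn
        rw [norm_mul, Complex.norm_natCast_cpow_of_pos hn.1, Complex.neg_re]
        have hn1 : (1 : ℝ) ≤ n := by exact_mod_cast hn.1
        have h1 : (n : ℝ) ^ (-s.re) ≤ (N : ℝ) ^ 5 := by
          calc (n : ℝ) ^ (-s.re) ≤ (n : ℝ) ^ (5 : ℝ) :=
                Real.rpow_le_rpow_of_exponent_le hn1 (by linarith)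
            _ = (n : ℝ) ^ 5 := by norm_cast
            _ ≤ (N : ℝ) ^ 5 := pow_le_pow_left₀ (by positivity) (by exact_mod_cast hn.2) 5
        have h2 := d0_le c ε T n
        have h3 : (0 : ℝ) ≤ (n : ℝ) ^ (-s.re) := by positivity
        nlinarith [norm_nonneg (d0 c ε T n)]
    _ = (N : ℝ) ^ 6 := by
        rw [Finset.sum_const, nsmul_eq_mul, Nat.card_Icc, Nat.add_sub_cancel]
        ring

/-- the real function `s(t) = Im (ρ P conj D)` -/
noncomputable def ss (c ε T : ℝ) (N N' : ℕ) (t : ℝ) : ℝ :=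
  (rho c T (⟨1 / 2, t⟩ : ℂ) * (DP N' (e0 c ε T N) (⟨1 / 2, t⟩ : ℂ) *
    (starRingEnd ℂ) (DP N (d0 c ε T) (⟨1 / 2, t⟩ : ℂ)))).im

/-- `φ` on the critical line -/
theorem phi_half (τ D t : ℝ) : phi τ D (⟨1 / 2, t⟩ : ℂ) = ((wt τ D t : ℝ) : ℂ) := by
  unfold phi wt
  rw [Complex.ofReal_exp]
  congr 1
  have : (⟨1 / 2, t⟩ : ℂ) - 1 / 2 - I * τ = I * ((t - τ : ℝ) : ℂ) := by
    rw [Complex.mk_eq_add_mul_I]
    push_cast
    ring
  rw [this, mul_pow, I_sq]
  push_cast
  ring

theorem G2_half (c ε H T τ : ℝ) (N N' : ℕ) {J : ℕ} (v : Fin J → ℂ) (t : ℝ) :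
    (G2 c ε H T τ N N' v (⟨1 / 2, t⟩ : ℂ)).im =
      wt τ (dd H T) t * (ss c ε T N N' t * ‖gv H v (⟨1 / 2, t⟩ : ℂ)‖ ^ 2) := by
  unfold G2 ss
  rw [phi_half, ← sta_DP, ← sta_gv, sta_half, sta_half]
  set P := DP N' (e0 c ε T N) (⟨1 / 2, t⟩ : ℂ)
  set Dd := DP N (d0 c ε T) (⟨1 / 2, t⟩ : ℂ)
  set g := gv H v (⟨1 / 2, t⟩ : ℂ)
  set r := rho c T (⟨1 / 2, t⟩ : ℂ)
  have h1 : g * (starRingEnd ℂ) g = ((‖g‖ ^ 2 : ℝ) : ℂ) := by
    rw [Complex.mul_conj, Complex.normSq_eq_norm_sq]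
  have h2 : r * P * (g * ((starRingEnd ℂ) Dd * (starRingEnd ℂ) g)) * ((wt τ (dd H T) t : ℝ) : ℂ) =
      ((wt τ (dd H T) t * ‖g‖ ^ 2 : ℝ) : ℂ) * (r * (P * (starRingEnd ℂ) Dd)) := by
    rw [Complex.ofReal_mul, ← h1]
    ring
  rw [h2, Complex.im_ofReal_mul]
  ring

theorem gv_half (H : ℝ) {J : ℕ} (v : Fin J → ℂ) (t : ℝ) : gv H v (⟨1 / 2, t⟩ : ℂ) =
    ∑ j : Fin J, v j * cexp (-(I * ((2 * Real.pi * j / H * t : ℝ) : ℂ))) := by
  unfold gv
  refine Finset.sum_congr rfl fun j _ => ?_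
  congr 2
  have : (⟨1 / 2, t⟩ : ℂ) - 1 / 2 = I * t := by
    rw [Complex.mk_eq_add_mul_I]
    push_cast
    ring
  rw [this]
  unfold fr
  push_cast
  ring

end Pool.Agent.W192.PP
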