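import Pool.Agent.H382P.Defs

/-! Positive proportion of small gaps, unconditional: definitions and the statements of the parts.
`L = log T`, `δ = dl c T = 2πc/L`, `hh δ = iδ/2`, `f = SP.ff c T`. -/

open Complex Filter Topology Set MeasureTheory

namespace Pool.Agent.W192.PP

open SG (phi hh dl)

/-- `z`-rough numbers: `n ≠ 0` and all prime factors exceed `z` -/
def Rough (z : ℝ) (n : ℕ) : Prop := n ≠ 0 ∧ ∀ p : ℕ, p.Prime → p ∣ n → z < p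

open Classical in
/-- coefficients of the detector: `μ(n) n^{iδ/2}` on `T^ε`-rough numbers -/
noncomputable def d0 (c ε T : ℝ) (n : ℕ) : ℂ :=
  if Rough (T ^ ε) n then ((ArithmeticFunction.moebius n : ℤ) : ℂ) * (n : ℂ) ^ (hh (dl c T)) else 0

/-- coefficients of `D(s) ζ(s-h)/ζ(s+h)`, `D` the detector of length `N` -/
noncomputable def e0 (c ε T : ℝ) (N : ℕ) (j : ℕ) : ℂ :=
  ∑ x ∈ j.divisors.filter (fun x => x ≤ N), d0 c ε T x * SP.fm (dl c T) (j / x)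

/-- coefficients of the product of the polynomials of lengths `N'` (coefficients `e0`) and `N`
(coefficients `d0`) -/
noncomputable def b0 (c ε T : ℝ) (N N' : ℕ) (n : ℕ) : ℂ :=
  ∑ x ∈ n.divisorsAntidiagonal.filter (fun x => x.1 ≤ N' ∧ x.2 ≤ N), e0 c ε T N x.1 * d0 c ε T x.2

/-- product over a multiset of roots (the same as `H370.Loc.Pf`) -/
noncomputable def Pm (s : Multiset ℂ) (z : ℂ) : ℂ := (s.map (fun ρ => z - ρ)).prod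

/-- `F*(s) = conj (F (1 - conj s))` -/
noncomputable def sta (F : ℂ → ℂ) (s : ℂ) : ℂ := (starRingEnd ℂ) (F (1 - (starRingEnd ℂ) s))

/-- bad zeros: off the line, or multiple, or with another zero on the line at most `δ` below -/
def BadZ (δ : ℝ) (s : ℂ) : Prop :=
  s.re ≠ 1 / 2 ∨ deriv riemannZeta s = 0 ∨
    ∃ g : ℝ, s.im - δ ≤ g ∧ g < s.im ∧ riemannZeta (1 / 2 + I * g) = 0

/-- PP-LA: the trace inequality -/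
def S_la : Prop := ∀ (J K : ℕ) (H A B β : ℝ) (Φ : (Fin J → ℂ) →ₗ[ℂ] (Fin K → ℂ)) (f : ℝ → ℝ),
  0 < H → A ≤ B → B ≤ A + H → ContinuousOn f (Icc A B) → 0 ≤ β →
  (∀ v : Fin J → ℂ, Φ v = 0 →
    ∫ t in A..B, f t * ‖∑ j : Fin J, v j * cexp (-(I * ((2 * Real.pi * j / H * t : ℝ) : ℂ)))‖ ^ 2 ≤
      β * ∑ j : Fin J, ‖v j‖ ^ 2) →
  J * (∫ t in A..B, f t) ≤ J * β + Real.sqrt (∫ t in A..B, f t ^ 2) * Real.sqrt (J * H * K)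

/-- PP-DIV: killing a multiset of points costs as many linear conditions -/
def S_div : Prop := ∀ (J : ℕ) (F : (Fin J → ℂ) → ℂ → ℂ),
  (∀ v, Differentiable ℂ (F v)) → (∀ (a : ℂ) (v w : Fin J → ℂ) (s : ℂ), F (a • v + w) s = a * F v s + F w s) →
  ∀ S : Multiset ℂ, ∃ Φ : (Fin J → ℂ) →ₗ[ℂ] (Fin (Multiset.card S) → ℂ), ∀ v, Φ v = 0 →
    ∃ F1 : ℂ → ℂ, Differentiable ℂ F1 ∧ ∀ s, F v s = Pm S s * F1 s

open Classical in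
/-- PP-ARI: the sum over rough numbers is positive -/
def S_ari : Prop := ∀ c x : ℝ, 0 < c → c < 1 → 0 < x → x ≤ 1 / 2 → 1 < c * (1 + x) →
  ∃ ε κ T0 : ℝ, 0 < ε ∧ ε < 1 ∧ 0 < κ ∧ ∀ T : ℝ, T0 ≤ T →
    κ ≤ ∑ l ∈ (Finset.Icc 1 ⌊T ^ x⌋₊).filter (fun l => Rough (T ^ ε) l ∧ Squarefree l),
      (1 / l : ℝ) * (-Real.sin (Real.pi * c + 2 * Real.pi * c * (Real.log l / Real.log T)))

/-- PP-COEF: the second moment of the coefficients is bounded -/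
def S_coef : Prop := ∀ c ε : ℝ, 0 < c → c < 1 → 0 < ε → ε < 1 → ∃ C T0 : ℝ, 0 < C ∧ ∀ T : ℝ, T0 ≤ T →
  ∀ N N' : ℕ, (N : ℝ) * N' ≤ T →
    ∑ n ∈ Finset.Icc 1 (N * N'), ‖b0 c ε T N N' n‖ ^ 2 / n ≤ C

/-- PP-HOR: good heights for `f` -/
def S_hor : Prop := ∀ c : ℝ, 0 < c → c < 1 → ∃ C T0 : ℝ, 0 < C ∧ ∀ T : ℝ, T0 ≤ T →
  ∀ a : ℝ, T ≤ a → a ≤ 2 * T → ∃ U : ℝ, a ≤ U ∧ U ≤ a + 1 ∧ ∀ σ : ℝ, -5 ≤ σ → σ ≤ 6 →
    completedRiemannZeta ((⟨σ, U⟩ : ℂ) + hh (dl c T)) ≠ 0 ∧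
    ‖SP.ff c T (⟨σ, U⟩ : ℂ)‖ ≤ Real.exp (C * Real.log T ^ 2)

/-- PP-RES: residues have one sign after killing the bad zeros -/
def S_res : Prop := ∀ (c T U1 U2 : ℝ), 0 < dl c T → dl c T ≤ 1 → 10 ≤ U1 → U1 < U2 →
  (∀ σ : ℝ, -5 ≤ σ → σ ≤ 6 → completedRiemannZeta ((⟨σ, U1⟩ : ℂ) + hh (dl c T)) ≠ 0 ∧
    completedRiemannZeta ((⟨σ, U2⟩ : ℂ) + hh (dl c T)) ≠ 0) →
  ∃ S : Multiset ℂ,
    (∀ z ∈ S, U1 < z.im ∧ z.im < U2 ∧ 0 < (z + hh (dl c T)).re ∧ (z + hh (dl c T)).re < 1 ∧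
      riemannZeta (z + hh (dl c T)) = 0 ∧ BadZ (dl c T) (z + hh (dl c T))) ∧
    (∀ z, S.count z ≤ H370.mult riemannZeta (z + hh (dl c T))) ∧
    ∀ (τ D M : ℝ) (F F1 : ℂ → ℂ), 0 < D → Differentiable ℂ F → Differentiable ℂ F1 →
      (∀ s, F s = Pm S s * F1 s) →
      (∀ σ : ℝ, -5 ≤ σ → σ ≤ 6 →
        ‖SP.ff c T (⟨σ, U1⟩ : ℂ) * F (⟨σ, U1⟩ : ℂ) * sta F (⟨σ, U1⟩ : ℂ) *
          phi τ D (⟨σ, U1⟩ : ℂ)‖ ≤ M ∧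
        ‖SP.ff c T (⟨σ, U2⟩ : ℂ) * F (⟨σ, U2⟩ : ℂ) * sta F (⟨σ, U2⟩ : ℂ) *
          phi τ D (⟨σ, U2⟩ : ℂ)‖ ≤ M) →
      (∫ t in U1..U2, SP.ff c T (⟨6, t⟩ : ℂ) * F (⟨6, t⟩ : ℂ) * sta F (⟨6, t⟩ : ℂ) *
        phi τ D (⟨6, t⟩ : ℂ)).im ≤ 11 * M

end Pool.Agent.W192.PP
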