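import Pool.Agent.W192.PP.Defs
import Pool.Agent.H382R2.Final0

open Complex Filter Topology Set MeasureTheory

namespace Pool.Agent.W192.PP

/-- PP-CNT: bad zeros are at most twice as many as small gaps -/
def S_cnt : Prop := ∀ δ A B : ℝ, 0 < δ → 10 ≤ A → A ≤ B → ∀ S : Finset ℂ,
  (∀ s ∈ S, riemannZeta s = 0 ∧ 0 < s.re ∧ s.re < 1 ∧ A + δ ≤ s.im ∧ s.im ≤ B ∧ BadZ δ s) →
  ∑ s ∈ S, SG.zmult s ≤ 2 * {n : ℕ | 1 ≤ n ∧ A ≤ SG.ord n ∧ SG.ord (n + 1) ≤ B ∧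
    SG.ord (n + 1) - SG.ord n ≤ δ}.ncard

end Pool.Agent.W192.PP
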