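import Pool.Agent.H382P.Fm
import Pool.Agent.W192.PP.Defs

open Complex Filter Topology Set MeasureTheory ArithmeticFunction

namespace Pool.Agent.W192.PP

open SG (phi hh dl)
open SP

/-- `μ(n) n^w` -/
noncomputable def Fmu (w : ℂ) : ArithmeticFunction ℂ :=
  ⟨fun n => ((ArithmeticFunction.moebius n : ℤ) : ℂ) * (n : ℂ) ^ w, by simp⟩

/-- `n^w` -/
noncomputable def Fpow (w : ℂ) : ArithmeticFunction ℂ :=
  ⟨fun n => if n = 0 then 0 else (n : ℂ) ^ w, by simp⟩

theorem Fmu_mul (w : ℂ) : Fmu w * Fpow w = 1 := by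
  ext n
  rcases Nat.eq_zero_or_pos n with rfl | hn
  · simp
  rw [ArithmeticFunction.mul_apply]
  have h1 : ∀ x ∈ n.divisorsAntidiagonal, Fmu w x.1 * Fpow w x.2 =
      (n : ℂ) ^ w * ((ArithmeticFunction.moebius x.1 : ℤ) : ℂ) := by
    intro x hx
    rw [Nat.mem_divisorsAntidiagonal] at hx
    have hx2 : x.2 ≠ 0 := by
      intro h
      rw [h, mul_zero] at hx
      exact hx.2 hx.1.symm
    show ((ArithmeticFunction.moebius x.1 : ℤ) : ℂ) * (x.1 : ℂ) ^ w *
      (if x.2 = 0 then 0 else (x.2 : ℂ) ^ w) = _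
    rw [if_neg hx2, ← hx.1]
    push_cast
    rw [Complex.natCast_mul_natCast_cpow]
    ring
  rw [Finset.sum_congr rfl h1, ← Finset.mul_sum]
  have h2 : ∑ x ∈ n.divisorsAntidiagonal, ((ArithmeticFunction.moebius x.1 : ℤ) : ℂ) =
      if n = 1 then 1 else 0 := by
    have h3 := congrArg (fun f : ArithmeticFunction ℤ => f n) ArithmeticFunction.moebius_mul_coe_zeta
    simp only [ArithmeticFunction.mul_apply, ArithmeticFunction.one_apply] at h3
    have h4 : ∑ x ∈ n.divisorsAntidiagonal, (ArithmeticFunction.moebius x.1 : ℤ) =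
        if n = 1 then 1 else 0 := by
      rw [← h3]
      refine Finset.sum_congr rfl fun x hx => ?_
      rw [Nat.mem_divisorsAntidiagonal] at hx
      have hx2 : x.2 ≠ 0 := by
        intro h
        rw [h, mul_zero] at hx
        exact hx.2 hx.1.symm
      rw [ArithmeticFunction.natCoe_apply, ArithmeticFunction.zeta_apply, if_neg hx2]
      simp
    have h5 := congrArg (fun z : ℤ => (z : ℂ)) h4
    simp only [Int.cast_sum] at h5
    rw [h5]
    split_ifs <;> simp
  rw [h2, ArithmeticFunction.one_apply]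
  split_ifs with h
  · subst h
    simp
  · simp

theorem fm_eq (δ : ℝ) {m : ℕ} (hm : m ≠ 0) : fm δ m = (Fpow (hh δ) * Fmu (-(hh δ))) m := by
  rw [ArithmeticFunction.mul_apply]
  have h := Nat.sum_divisorsAntidiagonal (fun a b : ℕ => Fpow (hh δ) a * Fmu (-(hh δ)) b) (n := m)
  rw [h, fm]
  apply Finset.sum_congr rfl
  intro x hx
  have hx0 : x ≠ 0 := (Nat.pos_of_mem_divisors hx).ne'
  show _ = (if x = 0 then 0 else (x : ℂ) ^ (hh δ)) * (((ArithmeticFunction.moebius (m / x) : ℤ) : ℂ) *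
    ((m / x : ℕ) : ℂ) ^ (-(hh δ)))
  rw [if_neg hx0]
  ring

theorem rough_dvd {z : ℝ} {l x : ℕ} (h : Rough z l) (hx : x ∣ l) : Rough z x := by
  refine ⟨?_, fun p hp hpx => h.2 p hp (hpx.trans hx)⟩
  rintro rfl
  exact h.1 (Nat.eq_zero_of_zero_dvd hx)

/-- the coefficients on rough numbers -/
theorem e0_rough (c ε T : ℝ) {N l : ℕ} (hl : Rough (T ^ ε) l) (hlN : l ≤ N) :
    e0 c ε T N l = ((ArithmeticFunction.moebius l : ℤ) : ℂ) * (l : ℂ) ^ (-(hh (dl c T))) := by
  set h := hh (dl c T) with hh'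
  have h1 : e0 c ε T N l = (Fmu h * (Fpow h * Fmu (-h))) l := by
    rw [ArithmeticFunction.mul_apply]
    have hs := Nat.sum_divisorsAntidiagonal (fun a b : ℕ => Fmu h a * (Fpow h * Fmu (-h)) b) (n := l)
    rw [hs]
    unfold e0
    rw [Finset.filter_true_of_mem]
    · apply Finset.sum_congr rfl
      intro x hx
      have hxl := Nat.dvd_of_mem_divisors hx
      have hx0 := Nat.pos_of_mem_divisors hx
      have hq : l / x ≠ 0 := (Nat.div_pos (Nat.divisor_le hx) hx0).ne'
      rw [fm_eq _ hq]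
      unfold d0
      rw [if_pos (rough_dvd hl hxl)]
      rfl
    · intro x hx
      exact (Nat.divisor_le hx).trans hlN
  rw [h1, ← mul_assoc, Fmu_mul, one_mul]
  rfl

open Classical in
/-- the diagonal sum -/
noncomputable def be (c ε T : ℝ) (N : ℕ) : ℂ :=
  ∑ l ∈ Finset.Icc 1 N, e0 c ε T N l * (starRingEnd ℂ) (d0 c ε T l) / (l : ℂ)

theorem conj_pow_hh (δ : ℝ) {l : ℕ} (hl : 1 ≤ l) :
    (starRingEnd ℂ) ((l : ℂ) ^ (hh δ)) = (l : ℂ) ^ (-(hh δ)) := by
  have h : (l : ℂ).arg ≠ Real.pi := by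
    rw [Complex.natCast_arg]
    exact Real.pi_pos.ne
  have h2 := Complex.cpow_conj (l : ℂ) (hh δ) h
  rw [Complex.conj_natCast] at h2
  rw [← h2]
  congr 1
  unfold hh
  rw [map_mul, conj_I, conj_ofReal]
  ring

open Classical in
theorem be_im (c ε T : ℝ) (N : ℕ) :
    (cexp (-(Real.pi * c : ℝ) * I) * be c ε T N).im =
      ∑ l ∈ (Finset.Icc 1 N).filter (fun l => Rough (T ^ ε) l ∧ Squarefree l),
        (1 / l : ℝ) * (-Real.sin (Real.pi * c + 2 * Real.pi * c * (Real.log l / Real.log T))) := by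
  unfold be
  rw [Finset.mul_sum, Complex.im_sum, Finset.sum_filter]
  refine Finset.sum_congr rfl fun l hl => ?_
  rw [Finset.mem_Icc] at hl
  have hl0 : (l : ℂ) ≠ 0 := by exact_mod_cast (by omega : l ≠ 0)
  have hlr : (0 : ℝ) < l := by exact_mod_cast hl.1
  by_cases hR : Rough (T ^ ε) l
  · rw [e0_rough c ε T hR hl.2]
    unfold d0
    rw [if_pos hR, map_mul, conj_pow_hh _ hl.1, map_intCast]
    by_cases hS : Squarefree l
    · rw [if_pos ⟨hR, hS⟩]
      have hm : ((ArithmeticFunction.moebius l : ℤ) : ℂ) * ((ArithmeticFunction.moebius l : ℤ) : ℂ) = 1 := by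
        have := ArithmeticFunction.moebius_sq_eq_one_of_squarefree hS
        rw [sq] at this
        exact_mod_cast this
      have e1 : cexp (-(Real.pi * c : ℝ) * I) * (((ArithmeticFunction.moebius l : ℤ) : ℂ) *
          (l : ℂ) ^ (-(hh (dl c T))) * (((ArithmeticFunction.moebius l : ℤ) : ℂ) *
          (l : ℂ) ^ (-(hh (dl c T)))) / (l : ℂ)) =
          ((1 / l : ℝ) : ℂ) * cexp (((-(Real.pi * c + 2 * Real.pi * c * (Real.log l / Real.log T)) : ℝ) : ℂ) * I) := by
        have e2 : (l : ℂ) ^ (-(hh (dl c T))) * (l : ℂ) ^ (-(hh (dl c T))) =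
            cexp (((-(2 * Real.pi * c * (Real.log l / Real.log T)) : ℝ) : ℂ) * I) := by
          rw [← Complex.cpow_add _ _ hl0, Complex.cpow_def_of_ne_zero hl0, ← Complex.natCast_log]
          congr 1
          unfold hh dl
          push_cast
          ring
        have e3 : cexp (((-(Real.pi * c + 2 * Real.pi * c * (Real.log l / Real.log T)) : ℝ) : ℂ) * I) =
            cexp (-(Real.pi * c : ℝ) * I) *
            cexp (((-(2 * Real.pi * c * (Real.log l / Real.log T)) : ℝ) : ℂ) * I) := by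
          rw [← Complex.exp_add]
          congr 1
          push_cast
          ring
        rw [e3, ← e2]
        push_cast
        linear_combination (cexp (-(↑Real.pi * ↑c) * I) * (l : ℂ) ^ (-(hh (dl c T))) *
          (l : ℂ) ^ (-(hh (dl c T))) / (l : ℂ)) * hm
      rw [e1, Complex.im_ofReal_mul, Complex.exp_ofReal_mul_I_im, Real.sin_neg]
    · rw [if_neg (fun h => hS h.2), ArithmeticFunction.moebius_eq_zero_of_not_squarefree hS]
      simp
  · rw [if_neg (fun h => hR h.1)]
    unfold d0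
    rw [if_neg hR]
    simp

end Pool.Agent.W192.PP
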