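import Pool.Agent.W192.PP.Low
import Pool.Agent.W192.PP.DefsB
import Pool.Agent.W240.PPLa
import Pool.Agent.W240.PPDiv
import Pool.Agent.W249.PP.Ari
import Pool.Agent.W612.PP.Coef
import Pool.Agent.W578.PPHor
import Pool.Agent.W338.PP.Res
import Pool.Agent.W191.PP.Cnt

open Complex Filter Topology Set MeasureTheory

namespace Pool.Agent.W192.PP

open SG (phi hh dl)
open SP SP.EvalAux
open Pool.Agent.W192.SI (Adm dd)

theorem ev_log (k : ℕ) (a : ℝ) (ha : 0 < a) : ∀ᶠ T : ℝ in atTop, Real.log T ^ k ≤ T ^ a := by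
  have h := (isLittleO_log_rpow_rpow_atTop (k : ℝ) ha).bound (show (0 : ℝ) < 1 by norm_num)
  filter_upwards [h, Real.tendsto_log_atTop.eventually_ge_atTop 0, eventually_gt_atTop 0]
    with T h1 h2 h3
  rw [Real.rpow_natCast, one_mul, Real.norm_of_nonneg (by positivity),
    Real.norm_of_nonneg (by positivity)] at h1
  exact h1

theorem params (c θ : ℝ) (hc : 0 < c) (hc1 : c < 1) (hθ : 0 < θ) (hθ1 : θ < 1)
    (h : 2 < c * (2 + θ)) : ∃ x η : ℝ, 0 < x ∧ x ≤ 1 / 2 ∧ 1 < c * (1 + x) ∧ 0 < η ∧ η ≤ 1 ∧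
      x + 2 * η ≤ 1 ∧ 2 * x + 3 * η ≤ θ := by
  have h1 : 1 / c - 1 < θ / 2 := by
    have : 1 / c < 1 + θ / 2 := by
      rw [div_lt_iff₀ hc]
      linarith
    linarith
  have h2 : 0 < 1 / c - 1 := by
    have : 1 < 1 / c := by
      rw [lt_div_iff₀ hc]
      linarith
    linarith
  refine ⟨(θ / 2 + (1 / c - 1)) / 2, (θ - (θ / 2 + (1 / c - 1))) / 8, by linarith, by linarith, ?_,
    by linarith, by linarith, by linarith, by linarith⟩
  have h3 : 1 / c < 1 + (θ / 2 + (1 / c - 1)) / 2 := by linarith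
  rw [div_lt_iff₀ hc] at h3
  linarith

theorem dat_ev (x η θ κ : ℝ) (hx : 0 < x) (hη : 0 < η) (hη1 : η ≤ 1) (hx1 : x + 2 * η ≤ 1)
    (hθ : θ < 1) (hxθ : 2 * x + 3 * η ≤ θ) (hκ : 0 < κ) :
    ∃ T0 : ℝ, ∀ T : ℝ, T0 ≤ T → ∀ W : ℝ, T ≤ W → W + T ^ θ ≤ 2 * T →
      Dat x η (T ^ θ) T W ⌊T ^ x⌋₊ ⌊T ^ (x + 2 * η)⌋₊ ⌊η * Real.log T * T ^ θ / (2 * Real.pi)⌋₊ ∧
      ⌊T ^ x⌋₊ ≤ ⌊T ^ (x + 2 * η)⌋₊ ∧
      Real.log T ^ 2 * (⌊T ^ (x + 2 * η)⌋₊ : ℝ) ≤ dd (T ^ θ) T ∧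
      (⌊T ^ x⌋₊ : ℝ) * (⌊T ^ (x + 2 * η)⌋₊ : ℝ) ≤ T ^ θ ∧
      4 / κ ≤ dd (T ^ θ) T ∧
      η * Real.log T * T ^ θ / (4 * Real.pi) ≤
        (⌊η * Real.log T * T ^ θ / (2 * Real.pi)⌋₊ : ℝ) := by
  have hθ0 : 0 < θ := by linarith
  have ev := (eventually_ge_atTop (Real.exp 100)).and ((ev_log 6 θ hθ0).and
    ((ev_log 1 (1 - θ) (by linarith)).and ((ev_log 4 (θ - x - 2 * η) (by linarith)).and
    ((ev_log 3 θ hθ0).and ((Real.tendsto_log_atTop.eventually_ge_atTop (40 / η)).and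
    ((Real.tendsto_log_atTop.eventually_ge_atTop (4 / κ)))))))) 
  obtain ⟨T0, hT0⟩ := eventually_atTop.mp ev
  refine ⟨T0, fun T hT W hW1 hW2 => ?_⟩
  obtain ⟨e1, e2, e3, e4, e5, e6, e7⟩ := hT0 T hT
  have hTpos : 0 < T := (Real.exp_pos _).trans_le e1
  have hT1 : 1 ≤ T := by
    have := Real.add_one_le_exp (100 : ℝ)
    linarith
  have hL : 100 ≤ Real.log T := by
    rw [Real.le_log_iff_exp_le hTpos]
    exact e1
  have hHT : T ^ θ ≤ T := by
    calc T ^ θ ≤ T ^ (1 : ℝ) := Real.rpow_le_rpow_of_exponent_le hT1 hθ.le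
      _ = T := Real.rpow_one T
  have hA : Adm (T ^ θ) T := ⟨e1, e2, hHT⟩
  have hH := hA.H_pos
  have hHge := hA.H_ge
  norm_num at hHge
  have hpi := Real.pi_pos
  have hpi3 := Real.pi_gt_three
  have hpi4 := Real.pi_lt_four
  set L := Real.log T with hLdef
  set H := T ^ θ with hHdef
  have hN' : (⌊T ^ (x + 2 * η)⌋₊ : ℝ) ≤ T ^ (x + 2 * η) :=
    Nat.floor_le (Real.rpow_nonneg hTpos.le _)
  have hN : (⌊T ^ x⌋₊ : ℝ) ≤ T ^ x := Nat.floor_le (Real.rpow_nonneg hTpos.le _)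
  have hJ0 : 0 ≤ η * L * H / (2 * Real.pi) := by positivity
  have hJ : (⌊η * L * H / (2 * Real.pi)⌋₊ : ℝ) ≤ η * L * H / (2 * Real.pi) := Nat.floor_le hJ0
  have hdd : dd H T = H / L ^ 2 := rfl
  have hLH : L * H ≤ T := by
    rw [pow_one] at e3
    calc L * H ≤ T ^ (1 - θ) * T ^ θ := mul_le_mul_of_nonneg_right e3 hH.le
      _ = T := by rw [← Real.rpow_add hTpos]; norm_num
  have hddL : L ≤ dd H T := by
    rw [hdd, le_div_iff₀ (by positivity)]
    calc L * L ^ 2 = L ^ 3 := by ring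
      _ ≤ H := e5
  refine ⟨⟨hA, hW1, hW2, hx.le, hη, hη1, hx1, hN, (Nat.lt_floor_add_one _).le, ?_, ?_, ?_,
    e6.trans hddL⟩, ?_, ?_, ?_, e7.trans hddL, ?_⟩
  · refine hN'.trans ?_
    calc T ^ (x + 2 * η) ≤ T ^ (1 : ℝ) := Real.rpow_le_rpow_of_exponent_le hT1 hx1
      _ = T := Real.rpow_one T
  · refine hJ.trans ?_
    rw [div_le_iff₀ (by positivity)]
    have h1 : η * L * H ≤ 1 * (L * H) := by
      rw [mul_assoc]
      exact mul_le_mul_of_nonneg_right hη1 (by positivity)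
    nlinarith
  · intro j
    unfold fr
    rw [div_le_iff₀ hH]
    have h1 : ((j : ℕ) : ℝ) ≤ η * L * H / (2 * Real.pi) := by
      have : ((j : ℕ) : ℝ) ≤ (⌊η * L * H / (2 * Real.pi)⌋₊ : ℝ) := by exact_mod_cast j.2.le
      exact this.trans hJ
    calc 2 * Real.pi * ((j : ℕ) : ℝ) ≤ 2 * Real.pi * (η * L * H / (2 * Real.pi)) :=
          mul_le_mul_of_nonneg_left h1 (by positivity)
      _ = η * L * H := by field_simp
  · apply Nat.floor_le_floor
    exact Real.rpow_le_rpow_of_exponent_le hT1 (by linarith)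
  · rw [hdd, le_div_iff₀ (by positivity)]
    calc L ^ 2 * (⌊T ^ (x + 2 * η)⌋₊ : ℝ) * L ^ 2 = L ^ 4 * (⌊T ^ (x + 2 * η)⌋₊ : ℝ) := by ring
      _ ≤ T ^ (θ - x - 2 * η) * T ^ (x + 2 * η) := mul_le_mul e4 hN' (by positivity) (by positivity)
      _ = H := by
          rw [← Real.rpow_add hTpos, hHdef]
          congr 1
          ring
  · calc (⌊T ^ x⌋₊ : ℝ) * (⌊T ^ (x + 2 * η)⌋₊ : ℝ) ≤ T ^ x * T ^ (x + 2 * η) :=
          mul_le_mul hN hN' (by positivity) (by positivity)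
      _ = T ^ (x + (x + 2 * η)) := by rw [← Real.rpow_add hTpos]
      _ ≤ T ^ θ := Real.rpow_le_rpow_of_exponent_le hT1 (by linarith)
  · have h1 := (Nat.lt_floor_add_one (η * L * H / (2 * Real.pi))).le
    have h2 : 1 ≤ η * L * H / (4 * Real.pi) := by
      rw [le_div_iff₀ (by positivity)]
      rw [div_le_iff₀ hη] at e6
      nlinarith
    have h3 : η * L * H / (2 * Real.pi) = 2 * (η * L * H / (4 * Real.pi)) := by
      field_simp
      ring
    rw [h3] at h1 ⊢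
    linarith

/-- final algebra -/
theorem final_alg {J K κ D H C3 : ℝ} (hJ : 0 < J) (hK : 0 ≤ K) (hκ : 0 < κ) (hD : 0 < D)
    (hH : 0 < H) (hC3 : 0 < C3) (hbig : 4 / κ ≤ D)
    (h : J * (κ / 2 * D * H) ≤ J * H + Real.sqrt (C3 * D ^ 2 * H) * Real.sqrt (J * H * K)) :
    κ ^ 2 / (16 * C3) * J ≤ K := by
  have h1 : Real.sqrt (C3 * D ^ 2 * H) * Real.sqrt (J * H * K) =
      D * H * Real.sqrt (C3 * J * K) := by
    rw [← Real.sqrt_mul (by positivity)]
    have : C3 * D ^ 2 * H * (J * H * K) = (D * H) ^ 2 * (C3 * J * K) := by ring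
    rw [this, Real.sqrt_mul (by positivity), Real.sqrt_sq (by positivity)]
  rw [h1] at h
  have h2 : J * H ≤ κ / 4 * (J * D * H) := by
    rw [div_le_iff₀ hκ] at hbig
    have : 0 < J * H := by positivity
    nlinarith
  have h3 : κ / 4 * J * (D * H) ≤ Real.sqrt (C3 * J * K) * (D * H) := by nlinarith
  have h4 : κ / 4 * J ≤ Real.sqrt (C3 * J * K) := le_of_mul_le_mul_right h3 (by positivity)
  have h5 : (κ / 4 * J) ^ 2 ≤ C3 * J * K := by
    have h6 := pow_le_pow_left₀ (by positivity) h4 2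
    rwa [Real.sq_sqrt (by positivity)] at h6
  rw [div_mul_eq_mul_div, div_le_iff₀ (by positivity)]
  have h7 : κ ^ 2 * J * J ≤ K * (16 * C3) * J := by nlinarith
  exact le_of_mul_le_mul_right h7 hJ

/-- many bad zeros in every interval of length `T^θ` -/
theorem many_bad (c θ : ℝ) (hc : 0 < c) (hc1 : c < 1) (hθ : 0 < θ) (hθ1 : θ < 1)
    (h : 2 < c * (2 + θ)) :
    ∃ κ T0 : ℝ, 0 < κ ∧ ∀ T : ℝ, T0 ≤ T → ∀ W : ℝ, T ≤ W → W + T ^ θ ≤ 2 * T →
      ∃ S : Multiset ℂ, (∀ z ∈ S, W + dl c T ≤ (z + hh (dl c T)).im ∧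
        (z + hh (dl c T)).im ≤ W + T ^ θ ∧ 0 < (z + hh (dl c T)).re ∧ (z + hh (dl c T)).re < 1 ∧
        riemannZeta (z + hh (dl c T)) = 0 ∧ BadZ (dl c T) (z + hh (dl c T))) ∧
      (∀ z, S.count z ≤ H370.mult riemannZeta (z + hh (dl c T))) ∧
      κ * T ^ θ * Real.log T ≤ Multiset.card S := by
  classical
  obtain ⟨x, η, hx, hx1, hcx, hη, hη1, hxη, hxθ⟩ := params c θ hc hc1 hθ hθ1 h
  obtain ⟨ε, κ, Ta, hε, hε1, hκ, hari⟩ := Pool.Agent.W249.PP.t_ari c x hc hc1 hx hx1 hcx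
  obtain ⟨C2, Tb, hC2, hsec⟩ := second Pool.Agent.W612.PP.t_coef c ε hc hc1 hε hε1
  obtain ⟨Ch, Tc, hCh, hhor⟩ := Pool.Agent.W578.PPHor.t_hor c hc hc1
  obtain ⟨Td, hup⟩ := upper_v c Ch hc hc1
  obtain ⟨C3, Te, hC3, hbd⟩ := bounds c κ C2 hc hc1 hκ hC2
  obtain ⟨Tf, hdat⟩ := dat_ev x η θ κ hx hη hη1 hxη hθ1 hxθ hκ
  refine ⟨κ ^ 2 / (16 * C3) * (η / (4 * Real.pi)),
    max (max (max Ta Tb) (max Tc Td)) (max Te Tf), by have := Real.pi_pos; positivity, ?_⟩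
  intro T hT W hW1 hW2
  have hTa : Ta ≤ T := (le_max_left _ _).trans ((le_max_left _ _).trans ((le_max_left _ _).trans hT))
  have hTb : Tb ≤ T := (le_max_right _ _).trans ((le_max_left _ _).trans ((le_max_left _ _).trans hT))
  have hTc : Tc ≤ T := (le_max_left _ _).trans ((le_max_right _ _).trans ((le_max_left _ _).trans hT))
  have hTd : Td ≤ T := (le_max_right _ _).trans ((le_max_right _ _).trans ((le_max_left _ _).trans hT))
  have hTe : Te ≤ T := (le_max_left _ _).trans ((le_max_right _ _).trans hT)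
  have hTf : Tf ≤ T := (le_max_right _ _).trans ((le_max_right _ _).trans hT)
  obtain ⟨hD, hNN, hbig, hprod, hκD, hJlow⟩ := hdat T hTf W hW1 hW2
  set H := T ^ θ with hH
  set N := ⌊T ^ x⌋₊ with hN
  set N' := ⌊T ^ (x + 2 * η)⌋₊ with hN'
  set J := ⌊η * Real.log T * H / (2 * Real.pi)⌋₊ with hJ
  have hA := hD.adm
  have hHpos := hA.H_pos
  have hHge := hA.H_ge
  norm_num at hHge
  have hHT := hA.hi
  have hTge := hA.T_ge'
  have hdl0 : 0 < dl c T := hA.dl_pos hc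
  have hdl1 : dl c T ≤ 1 := by linarith [hA.dl_le (by linarith : c < 2)]
  have hL := hA.log_ge
  have hdd0 := hA.dd_pos
  -- heights
  obtain ⟨U1, hU1a, hU1b, hU1⟩ := hhor T hTc (W + 1) (by linarith) (by linarith)
  obtain ⟨U2, hU2a, hU2b, hU2⟩ := hhor T hTc (W + H - 2) (by linarith) (by linarith)
  -- residues
  obtain ⟨S, hS1, hS2, hS3⟩ := Pool.Agent.W338.PP.t_res c T U1 U2 hdl0 hdl1 (by linarith)
    (by linarith) (fun σ h1 h2 => ⟨(hU1 σ h1 h2).1, (hU2 σ h1 h2).1⟩)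
  refine ⟨S, ?_, hS2, ?_⟩
  · intro z hz
    obtain ⟨h1, h2, h3, h4, h5, h6⟩ := hS1 z hz
    have him : (z + hh (dl c T)).im = z.im + dl c T / 2 := by
      rw [Complex.add_im]
      simp [hh]
    rw [him]
    exact ⟨by linarith, by linarith, h3, h4, h5, h6⟩
  -- linear conditions
  obtain ⟨Φ, hΦ⟩ := Pool.Agent.W240.PPDiv.t_div J (fun v => FF c ε H T N v)
    (fun v => FF_diff c ε H T N v) (by
      intro a v w s
      simp only [FF, gv_lin]
      ring) S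
  have hbe : κ ≤ (cexp (-(Real.pi * c : ℝ) * I) * be c ε T N).im := by
    rw [be_im]
    exact hari T hTa
  have hsec' := hsec T hTb H W N N' (by linarith) hHT hprod
  obtain ⟨b1, b2, b3⟩ := hbd x η ε H T W N N' J hTe hκD hD hNN hbig hbe hsec' U1 U2
    (by linarith) (by linarith) (by linarith) (by linarith)
  set f : ℝ → ℝ := fun t => wW (dd H T) (W + H / 4) (W + 3 * H / 4) t * ss c ε T N N' t with hf
  have hU12 : U1 ≤ U2 := by linarith
  have hfc : ContinuousOn f (Icc U1 U2) := (wW_cont _ _ _).continuousOn.mul b3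
  have hla := Pool.Agent.W240.PPLa.t_la J (Multiset.card S) H U1 U2 H Φ f hHpos hU12 (by linarith)
    hfc hHpos.le (by
    intro v hv
    obtain ⟨F1, hF1, hF2⟩ := hΦ v hv
    have hg : ∀ t : ℝ, (∑ j : Fin J, v j * cexp (-(I * ((2 * Real.pi * j / H * t : ℝ) : ℂ)))) =
        gv H v (⟨1 / 2, t⟩ : ℂ) := fun t => (gv_half H v t).symm
    simp only [hg]
    have hq : ContinuousOn (fun t : ℝ => ss c ε T N N' t * ‖gv H v (⟨1 / 2, t⟩ : ℂ)‖ ^ 2)
        (Icc U1 U2) := by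
      apply b3.mul
      apply Continuous.continuousOn
      exact (((gv_diff H v).continuous.comp (mk_cont' (1 / 2))).norm).pow 2
    have h1 := swap_upper (D := dd H T) (m := 2 * ∑ j, ‖v j‖ ^ 2)
      (by linarith : W + H / 4 ≤ W + 3 * H / 4) hU12 _ hq (by
        intro τ hτ
        exact hup x η ε H T W N N' J hTd hD U1 U2 (by linarith) (by linarith) (by linarith)
          (by linarith) (fun σ h1 h2 => ⟨(hU1 σ h1 h2).2, (hU2 σ h1 h2).2⟩) S hS3 v F1 hF1 hF2 τ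
          hτ.1 hτ.2)
    calc ∫ t in U1..U2, f t * ‖gv H v (⟨1 / 2, t⟩ : ℂ)‖ ^ 2 =
          ∫ t in U1..U2, wW (dd H T) (W + H / 4) (W + 3 * H / 4) t *
            (ss c ε T N N' t * ‖gv H v (⟨1 / 2, t⟩ : ℂ)‖ ^ 2) := by
            apply intervalIntegral.integral_congr
            intro t _
            simp only [hf]
            ring
      _ ≤ (W + 3 * H / 4 - (W + H / 4)) * (2 * ∑ j, ‖v j‖ ^ 2) := h1
      _ = H * ∑ j, ‖v j‖ ^ 2 := by ring)
  have hJ0 : (0 : ℝ) < J := by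
    have : 0 < η * Real.log T * H / (4 * Real.pi) := by
      have := Real.pi_pos
      positivity
    linarith
  have hfin := final_alg (K := (Multiset.card S : ℝ)) hJ0 (by positivity) hκ hdd0 hHpos hC3 hκD
    (by
      refine (mul_le_mul_of_nonneg_left b1 hJ0.le).trans (hla.trans ?_)
      have := mul_le_mul_of_nonneg_right (Real.sqrt_le_sqrt b2)
        (Real.sqrt_nonneg (J * H * (Multiset.card S : ℝ)))
      linarith)
  refine le_trans ?_ hfin
  have : κ ^ 2 / (16 * C3) * (η / (4 * Real.pi)) * H * Real.log T =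
      κ ^ 2 / (16 * C3) * (η * Real.log T * H / (4 * Real.pi)) := by ring
  rw [this]
  exact mul_le_mul_of_nonneg_left hJlow (by positivity)

/-- **positive proportion of small gaps in every interval `[W, W + T^θ]` of `[T, 2T]`** -/
theorem pos_window (c θ : ℝ) (hc : 0 < c) (hc1 : c < 1) (hθ : 0 < θ) (hθ1 : θ < 1)
    (h : 2 < c * (2 + θ)) :
    ∃ κ T0 : ℝ, 0 < κ ∧ ∀ T : ℝ, T0 ≤ T → ∀ W : ℝ, T ≤ W → W + T ^ θ ≤ 2 * T →
      κ * T ^ θ * Real.log T ≤ ({n : ℕ | 1 ≤ n ∧ W ≤ SG.ord n ∧ SG.ord (n + 1) ≤ W + T ^ θ ∧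
        SG.ord (n + 1) - SG.ord n ≤ dl c T}.ncard : ℝ) := by
  classical
  obtain ⟨κ, T0, hκ, hm⟩ := many_bad c θ hc hc1 hθ hθ1 h
  refine ⟨κ / 2, max T0 (Real.exp 100), by positivity, fun T hT W hW1 hW2 => ?_⟩
  obtain ⟨S, hS1, hS2, hS3⟩ := hm T ((le_max_left _ _).trans hT) W hW1 hW2
  have hTe : Real.exp 100 ≤ T := (le_max_right _ _).trans hT
  have hTpos : 0 < T := (Real.exp_pos _).trans_le hTe
  have hT10 : 10 ≤ T := by
    have := Real.add_one_le_exp (100 : ℝ)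
    linarith
  have hL : 100 ≤ Real.log T := by
    rw [Real.le_log_iff_exp_le hTpos]
    exact hTe
  have hdl0 : 0 < dl c T := by
    unfold dl
    have := Real.pi_pos
    positivity
  have hH0 : 0 < T ^ θ := Real.rpow_pos_of_pos hTpos _
  have hcnt := Pool.Agent.W191.PP.t_cnt (dl c T) W (W + T ^ θ) hdl0 (by linarith) (by linarith)
    (S.toFinset.image (fun z => z + hh (dl c T))) (by
      intro s hs
      rw [Finset.mem_image] at hs
      obtain ⟨z, hz, rfl⟩ := hs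
      obtain ⟨h1, h2, h3, h4, h5, h6⟩ := hS1 z (Multiset.mem_toFinset.mp hz)
      exact ⟨h5, h3, h4, h1, h2, h6⟩)
  rw [Finset.sum_image (by
    intro a _ b _ hab
    exact add_right_cancel hab)] at hcnt
  have hcard : Multiset.card S ≤ ∑ z ∈ S.toFinset, SG.zmult (z + hh (dl c T)) := by
    rw [← Multiset.toFinset_sum_count_eq S]
    exact Finset.sum_le_sum fun z _ => hS2 z
  have h1 : (Multiset.card S : ℝ) ≤ 2 * ({n : ℕ | 1 ≤ n ∧ W ≤ SG.ord n ∧
      SG.ord (n + 1) ≤ W + T ^ θ ∧ SG.ord (n + 1) - SG.ord n ≤ dl c T}.ncard : ℝ) := by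
    exact_mod_cast hcard.trans hcnt
  linarith

end Pool.Agent.W192.PP
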