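import Pool.Agent.W192.PP.Fin

open Complex Filter Topology Set MeasureTheory

namespace Pool.Agent.W192.PP

open SG (dl ord)

/-- the set of small gaps is finite -/
theorem gaps_finite (P : ℕ → Prop) (B : ℝ) : {n : ℕ | 1 ≤ n ∧ P n ∧ ord (n + 1) ≤ B}.Finite := by
  refine (Set.finite_Iic (SG.NZ B)).subset ?_
  rintro n ⟨hn, _, h⟩
  have := (SG.ord_le_iff (by omega : 1 ≤ n + 1) B).mp h
  show n ≤ SG.NZ B
  omega

/-- disjoint windows -/
theorem glue (P : ℕ → Prop) (W h B : ℝ) (hh : 0 < h) (M : ℕ) (m : ℝ)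
    (hB : W + 2 * M * h ≤ B)
    (hw : ∀ i : ℕ, i < M → m ≤ ({n : ℕ | 1 ≤ n ∧ W + 2 * i * h ≤ ord n ∧
      ord (n + 1) ≤ W + 2 * i * h + h ∧ P n}.ncard : ℝ)) :
    M * m ≤ ({n : ℕ | 1 ≤ n ∧ W ≤ ord n ∧ ord (n + 1) ≤ B ∧ P n}.ncard : ℝ) := by
  classical
  set A : ℕ → Set ℕ := fun i => {n : ℕ | 1 ≤ n ∧ W + 2 * i * h ≤ ord n ∧
      ord (n + 1) ≤ W + 2 * i * h + h ∧ P n} with hA
  have hfin : ∀ i, (A i).Finite := by
    intro i
    refine (gaps_finite (fun _ => True) (W + 2 * i * h + h)).subset ?_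
    rintro n ⟨h1, _, h3, _⟩
    exact ⟨h1, trivial, h3⟩
  set F : ℕ → Finset ℕ := fun i => (hfin i).toFinset with hF
  have hdisj : ((Finset.range M : Finset ℕ) : Set ℕ).PairwiseDisjoint F := by
    have key : ∀ i j : ℕ, i < j → ∀ n, n ∈ F i → n ∈ F j → False := by
      intro i j hij n hi hj
      rw [hF] at hi hj
      simp only [Set.Finite.mem_toFinset] at hi hj
      obtain ⟨h1, _, h3, _⟩ := hi
      obtain ⟨_, k2, _, _⟩ := hj
      have hm := SG.ord_mono h1 (Nat.le_succ n)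
      have hij' : (i : ℝ) + 1 ≤ j := by exact_mod_cast hij
      nlinarith
    intro i _ j _ hij
    rw [Function.onFun, Finset.disjoint_left]
    intro n hi hj
    rcases lt_or_gt_of_ne hij with h | h
    · exact key i j h n hi hj
    · exact key j i h n hj hi
  have hsub : ((Finset.range M).biUnion F : Set ℕ) ⊆
      {n : ℕ | 1 ≤ n ∧ W ≤ ord n ∧ ord (n + 1) ≤ B ∧ P n} := by
    intro n hn
    rw [Finset.mem_coe, Finset.mem_biUnion] at hn
    obtain ⟨i, hi, hn⟩ := hn
    rw [Finset.mem_range] at hi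
    rw [hF] at hn
    simp only [Set.Finite.mem_toFinset] at hn
    obtain ⟨h1, h2, h3, h4⟩ := hn
    have hi' : (i : ℝ) + 1 ≤ M := by exact_mod_cast hi
    have hi0 : (0 : ℝ) ≤ i := by positivity
    refine ⟨h1, ?_, ?_, h4⟩
    · nlinarith
    · nlinarith
  have hfin' : {n : ℕ | 1 ≤ n ∧ W ≤ ord n ∧ ord (n + 1) ≤ B ∧ P n}.Finite := by
    refine (gaps_finite (fun _ => True) B).subset ?_
    rintro n ⟨h1, _, h3, _⟩
    exact ⟨h1, trivial, h3⟩
  have h1 := Set.ncard_le_ncard hsub hfin'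
  rw [Set.ncard_coe_finset, Finset.card_biUnion hdisj] at h1
  have h2 : (M : ℝ) * m ≤ ((∑ i ∈ Finset.range M, (F i).card : ℕ) : ℝ) := by
    push_cast
    calc (M : ℝ) * m = ∑ _i ∈ Finset.range M, m := by
          rw [Finset.sum_const, nsmul_eq_mul, Finset.card_range]
      _ ≤ ∑ i ∈ Finset.range M, ((F i).card : ℝ) := by
          refine Finset.sum_le_sum fun i hi => ?_
          have := hw i (Finset.mem_range.mp hi)
          rwa [← Set.ncard_eq_toFinset_card _ (hfin i)]
  exact h2.trans (by exact_mod_cast h1)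

/-- **positive proportion of small gaps in every short interval** -/
theorem pos_prop (θ c : ℝ) (hθ : 0 < θ) (hθ1 : θ ≤ 1) (h : 2 / (2 + θ) < c) :
    ∃ κ T0 : ℝ, 0 < κ ∧ ∀ T t0 H : ℝ, T0 ≤ T → T ≤ t0 → t0 + H ≤ 2 * T → T ^ θ ≤ H →
      κ * H * Real.log T ≤ ({n : ℕ | 1 ≤ n ∧ t0 ≤ ord n ∧ ord (n + 1) ≤ t0 + H ∧
        ord (n + 1) - ord n < c * (2 * Real.pi / Real.log T)}.ncard : ℝ) := by
  have hpi := Real.pi_pos
  -- smaller constants
  set c' : ℝ := (2 / (2 + θ) + min c 1) / 2 with hc'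
  have h1 : 2 / (2 + θ) < 1 := by rw [div_lt_one (by linarith)]; linarith
  have h2 : 2 / (2 + θ) < min c 1 := lt_min h h1
  have h3 : min c 1 ≤ c := min_le_left _ _
  have h4 : min c 1 ≤ 1 := min_le_right _ _
  have h5 : 2 / (2 + θ) < c' := by rw [hc']; linarith
  have h6 : c' < min c 1 := by rw [hc']; linarith
  have h7 : 0 < 2 / (2 + θ) := by positivity
  have hc0 : 0 < c' := by linarith
  have hc1 : c' < 1 := by linarith
  have h8 : 2 < c' * (2 + θ) := by rwa [div_lt_iff₀ (by linarith)] at h5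
  have h9 : 2 / c' - 2 < θ := by
    have : 2 / c' < 2 + θ := by
      rw [div_lt_iff₀ hc0]
      linarith
    linarith
  have h10 : 0 < 2 / c' - 2 := by
    have : 2 < 2 / c' := by
      rw [lt_div_iff₀ hc0]
      linarith
    linarith
  set θ' : ℝ := (θ + (2 / c' - 2)) / 2 with hθ'
  have h11 : θ' < θ := by rw [hθ']; linarith
  have h12 : 0 < θ' := by rw [hθ']; linarith
  have h13 : 2 < c' * (2 + θ') := by
    have : 2 / c' < 2 + θ' := by rw [hθ']; linarith
    rw [div_lt_iff₀ hc0] at this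
    linarith
  obtain ⟨κ, T1, hκ, hwin⟩ := pos_window c' θ' hc0 hc1 h12 (by linarith) h13
  have ev : ∀ᶠ T : ℝ in atTop, 4 * T ^ θ' ≤ T ^ θ := by
    have hlim : Tendsto (fun T : ℝ => T ^ (θ - θ')) atTop atTop := tendsto_rpow_atTop (by linarith)
    filter_upwards [hlim.eventually_ge_atTop 4, eventually_gt_atTop 0] with T h1 h2
    calc 4 * T ^ θ' ≤ T ^ (θ - θ') * T ^ θ' :=
          mul_le_mul_of_nonneg_right h1 (Real.rpow_nonneg h2.le _)
      _ = T ^ θ := by
          rw [← Real.rpow_add h2]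
          congr 1
          ring
  obtain ⟨T2, hT2⟩ := eventually_atTop.mp ev
  refine ⟨κ / 4, max (max T1 T2) 10, by positivity, ?_⟩
  intro T t0 H hT ht0 ht1 hH
  have hTa : T1 ≤ T := (le_max_left _ _).trans ((le_max_left _ _).trans hT)
  have hTb : T2 ≤ T := (le_max_right _ _).trans ((le_max_left _ _).trans hT)
  have hT10 : 10 ≤ T := (le_max_right _ _).trans hT
  have hTpos : 0 < T := by linarith
  have hL : 0 < Real.log T := Real.log_pos (by linarith)
  set h := T ^ θ' with hh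
  have hh0 : 0 < h := Real.rpow_pos_of_pos hTpos _
  have h4h : 4 * h ≤ H := (hT2 T hTb).trans hH
  set M : ℕ := ⌊H / (2 * h)⌋₊ with hM
  have hHpos : 0 < H := by linarith
  have hM1 : (M : ℝ) ≤ H / (2 * h) := Nat.floor_le (by positivity)
  have hM2 : H / (2 * h) < M + 1 := Nat.lt_floor_add_one _
  have hM3 : 2 ≤ H / (2 * h) := by
    rw [le_div_iff₀ (by positivity)]
    linarith
  have hM4 : H / (4 * h) ≤ M := by
    have : H / (2 * h) = 2 * (H / (4 * h)) := by
      field_simp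
      ring
    rw [this] at hM2 hM3
    linarith
  have hg := glue (fun n => ord (n + 1) - ord n < c * (2 * Real.pi / Real.log T)) t0 h (t0 + H) hh0 M
    (κ * h * Real.log T) (by
      have : 2 * (M : ℝ) * h ≤ H := by
        rw [le_div_iff₀ (by positivity)] at hM1
        linarith
      linarith) (by
      intro i hi
      have hi' : (i : ℝ) + 1 ≤ M := by exact_mod_cast hi
      have hi0 : (0 : ℝ) ≤ i := by positivity
      have hMh : 2 * (M : ℝ) * h ≤ H := by
        rw [le_div_iff₀ (by positivity)] at hM1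
        linarith
      have hb : 0 ≤ 2 * (i : ℝ) * h := by positivity
      have h3 : 2 * (i : ℝ) * h + h ≤ H := by nlinarith
      have := hwin T hTa (t0 + 2 * i * h) (by linarith) (by linarith)
      refine this.trans ?_
      have hsub : {n : ℕ | 1 ≤ n ∧ t0 + 2 * i * h ≤ ord n ∧ ord (n + 1) ≤ t0 + 2 * i * h + h ∧
          ord (n + 1) - ord n ≤ dl c' T} ⊆ {n : ℕ | 1 ≤ n ∧ t0 + 2 * i * h ≤ ord n ∧
          ord (n + 1) ≤ t0 + 2 * i * h + h ∧
          ord (n + 1) - ord n < c * (2 * Real.pi / Real.log T)} := by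
        rintro n ⟨k1, k2, k3, k4⟩
        refine ⟨k1, k2, k3, k4.trans_lt ?_⟩
        have e : dl c' T = c' * (2 * Real.pi / Real.log T) := by
          unfold dl
          ring
        rw [e]
        apply mul_lt_mul_of_pos_right _ (by positivity)
        linarith
      have hfin : {n : ℕ | 1 ≤ n ∧ t0 + 2 * i * h ≤ ord n ∧
          ord (n + 1) ≤ t0 + 2 * i * h + h ∧
          ord (n + 1) - ord n < c * (2 * Real.pi / Real.log T)}.Finite := by
        refine (gaps_finite (fun _ => True) (t0 + 2 * i * h + h)).subset ?_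
        rintro n ⟨k1, _, k3, _⟩
        exact ⟨k1, trivial, k3⟩
      exact_mod_cast Set.ncard_le_ncard hsub hfin)
  refine le_trans ?_ hg
  have e : κ / 4 * H * Real.log T = H / (4 * h) * (κ * h * Real.log T) := by
    field_simp
  rw [e]
  exact mul_le_mul_of_nonneg_right hM4 (by positivity)

end Pool.Agent.W192.PP
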