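import Pool.Agent.H382P.Eval0
import Pool.Agent.W192.PP.Defs

open Complex Filter Topology Set MeasureTheory

namespace Pool.Agent.W192.PP

open SG (phi hh dl)
open SP SP.EvalAux

/-- the frequencies `2πj/H` -/
noncomputable def fr (H : ℝ) (j : ℕ) : ℝ := 2 * Real.pi * j / H

/-- `g_v(s) = ∑ v_j e^{-(s-1/2) u_j}` -/
noncomputable def gv (H : ℝ) {J : ℕ} (v : Fin J → ℂ) (s : ℂ) : ℂ :=
  ∑ j : Fin J, v j * cexp (-((s - 1 / 2) * (fr H j : ℂ)))

/-- `g_v^*(s) = ∑ conj v_j e^{(s-1/2) u_j}` -/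
noncomputable def gs (H : ℝ) {J : ℕ} (v : Fin J → ℂ) (s : ℂ) : ℂ :=
  ∑ j : Fin J, (starRingEnd ℂ) (v j) * cexp ((s - 1 / 2) * (fr H j : ℂ))

theorem gv_diff (H : ℝ) {J : ℕ} (v : Fin J → ℂ) : Differentiable ℂ (gv H v) := by
  unfold gv
  fun_prop

theorem gs_diff (H : ℝ) {J : ℕ} (v : Fin J → ℂ) : Differentiable ℂ (gs H v) := by
  unfold gs
  fun_prop

theorem gv_lin (H : ℝ) {J : ℕ} (a : ℂ) (v w : Fin J → ℂ) (s : ℂ) :
    gv H (a • v + w) s = a * gv H v s + gv H w s := by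
  unfold gv
  rw [Finset.mul_sum, ← Finset.sum_add_distrib]
  refine Finset.sum_congr rfl fun j _ => ?_
  simp only [Pi.add_apply, Pi.smul_apply, smul_eq_mul]
  ring

theorem sta_gv (H : ℝ) {J : ℕ} (v : Fin J → ℂ) (s : ℂ) : sta (gv H v) s = gs H v s := by
  unfold sta gv gs
  rw [map_sum]
  refine Finset.sum_congr rfl fun j _ => ?_
  rw [map_mul, ← Complex.exp_conj]
  congr 2
  simp only [map_neg, map_mul, map_sub, map_one, map_div₀, Complex.conj_ofReal,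
    Complex.conj_ofNat, Complex.conj_conj]
  ring

theorem sta_mul (F G : ℂ → ℂ) (s : ℂ) : sta (fun s => F s * G s) s = sta F s * sta G s := by
  unfold sta
  rw [map_mul]

theorem sta_DP (N : ℕ) (d : ℕ → ℂ) (s : ℂ) : sta (DP N d) s = DPs N d s := by
  unfold sta DP DPs
  rw [map_sum]
  refine Finset.sum_congr rfl fun n hn => ?_
  have hn0 : n ≠ 0 := by
    have := (Finset.mem_Icc.mp hn).1
    omega
  rw [map_mul]
  congr 1
  have h : (n : ℂ).arg ≠ Real.pi := by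
    rw [Complex.natCast_arg]
    exact Real.pi_pos.ne
  have h2 := Complex.cpow_conj (n : ℂ) (-(1 - (starRingEnd ℂ) s)) h
  rw [Complex.conj_natCast] at h2
  rw [← h2]
  congr 1
  simp

/-- on the critical line -/
theorem sta_half (F : ℂ → ℂ) (t : ℝ) : sta F (⟨1 / 2, t⟩ : ℂ) = (starRingEnd ℂ) (F (⟨1 / 2, t⟩ : ℂ)) := by
  unfold sta
  congr 2
  apply Complex.ext
  · simp; norm_num
  · simp

theorem fr_nonneg {H : ℝ} (hH : 0 < H) (j : ℕ) : 0 ≤ fr H j := by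
  unfold fr
  have := Real.pi_pos
  positivity

/-- sum of the coefficients -/
theorem sum_norm_le {J : ℕ} (v : Fin J → ℂ) :
    (∑ j, ‖v j‖) ^ 2 ≤ J * ∑ j, ‖v j‖ ^ 2 := by
  have := sq_sum_le_card_mul_sum_sq (s := (Finset.univ : Finset (Fin J))) (f := fun j => ‖v j‖)
  simpa using this

theorem gv_bound {H : ℝ} (hH : 0 < H) {J : ℕ} (v : Fin J → ℂ) (b : ℝ)
    (hb : ∀ j : Fin J, fr H j ≤ b) (s : ℂ) :
    ‖gv H v s‖ ≤ Real.exp (max 0 (1 / 2 - s.re) * b) * ∑ j, ‖v j‖ := by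
  unfold gv
  rw [Finset.mul_sum]
  refine norm_sum_le_of_le _ fun j _ => ?_
  rw [norm_mul, Complex.norm_exp, mul_comm]
  apply mul_le_mul_of_nonneg_right _ (norm_nonneg _)
  apply Real.exp_le_exp.mpr
  have h1 : (-((s - 1 / 2) * (fr H j : ℂ))).re = (1 / 2 - s.re) * fr H j := by
    rw [neg_re, Complex.re_mul_ofReal]
    simp
    ring
  rw [h1]
  have h2 := fr_nonneg hH j
  have h3 := hb j
  have h4 := le_max_left 0 (1 / 2 - s.re)
  have h5 := le_max_right 0 (1 / 2 - s.re)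
  calc (1 / 2 - s.re) * fr H j ≤ max 0 (1 / 2 - s.re) * fr H j :=
        mul_le_mul_of_nonneg_right h5 h2
    _ ≤ max 0 (1 / 2 - s.re) * b := mul_le_mul_of_nonneg_left h3 h4

theorem gs_bound {H : ℝ} (hH : 0 < H) {J : ℕ} (v : Fin J → ℂ) (b : ℝ)
    (hb : ∀ j : Fin J, fr H j ≤ b) (s : ℂ) :
    ‖gs H v s‖ ≤ Real.exp (max 0 (s.re - 1 / 2) * b) * ∑ j, ‖v j‖ := by
  unfold gs
  rw [Finset.mul_sum]
  refine norm_sum_le_of_le _ fun j _ => ?_
  rw [norm_mul, Complex.norm_exp, mul_comm, RCLike.norm_conj]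
  apply mul_le_mul_of_nonneg_right _ (norm_nonneg _)
  apply Real.exp_le_exp.mpr
  have h1 : ((s - 1 / 2) * (fr H j : ℂ)).re = (s.re - 1 / 2) * fr H j := by
    rw [Complex.re_mul_ofReal]
    simp
  rw [h1]
  have h2 := fr_nonneg hH j
  have h3 := hb j
  have h4 := le_max_left 0 (s.re - 1 / 2)
  have h5 := le_max_right 0 (s.re - 1 / 2)
  calc (s.re - 1 / 2) * fr H j ≤ max 0 (s.re - 1 / 2) * fr H j :=
        mul_le_mul_of_nonneg_right h5 h2
    _ ≤ max 0 (s.re - 1 / 2) * b := mul_le_mul_of_nonneg_left h3 h4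

/-- product bound -/
theorem gg_prod_bound {H : ℝ} (hH : 0 < H) {J : ℕ} (v : Fin J → ℂ) (b : ℝ) (hb0 : 0 ≤ b)
    (hb : ∀ j : Fin J, fr H j ≤ b) (s : ℂ) :
    ‖gv H v s‖ * ‖gs H v s‖ ≤ Real.exp (|s.re - 1 / 2| * b) * (J * ∑ j, ‖v j‖ ^ 2) := by
  have h1 := gv_bound hH v b hb s
  have h2 := gs_bound hH v b hb s
  have h3 := sum_norm_le v
  have hs0 : 0 ≤ ∑ j, ‖v j‖ := Finset.sum_nonneg fun j _ => norm_nonneg _
  calc ‖gv H v s‖ * ‖gs H v s‖ ≤ (Real.exp (max 0 (1 / 2 - s.re) * b) * ∑ j, ‖v j‖) *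
        (Real.exp (max 0 (s.re - 1 / 2) * b) * ∑ j, ‖v j‖) :=
        mul_le_mul h1 h2 (norm_nonneg _) (by positivity)
    _ = Real.exp ((max 0 (1 / 2 - s.re) + max 0 (s.re - 1 / 2)) * b) * (∑ j, ‖v j‖) ^ 2 := by
        rw [add_mul, Real.exp_add]
        ring
    _ ≤ Real.exp (|s.re - 1 / 2| * b) * (J * ∑ j, ‖v j‖ ^ 2) := by
        apply mul_le_mul _ h3 (by positivity) (Real.exp_pos _).le
        apply Real.exp_le_exp.mpr
        apply mul_le_mul_of_nonneg_right _ hb0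
        rcases le_total s.re (1 / 2) with h | h
        · rw [max_eq_right (by linarith), max_eq_left (by linarith), abs_of_nonpos (by linarith)]
          linarith
        · rw [max_eq_left (by linarith), max_eq_right (by linarith), abs_of_nonneg (by linarith)]
          linarith

/-- the detector coefficients are at most one -/
theorem d0_le (c ε T : ℝ) (n : ℕ) : ‖d0 c ε T n‖ ≤ 1 := by
  unfold d0
  split_ifs with h
  · rw [norm_mul, fm_norm_pow _ (Nat.pos_of_ne_zero h.1), mul_one, Complex.norm_intCast]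
    exact_mod_cast ArithmeticFunction.abs_moebius_le_one
  · simp

theorem e0_eq (c ε T : ℝ) (N j : ℕ) : e0 c ε T N j = ec 0 (dl c T) N (d0 c ε T) j := by
  unfold e0 ec
  refine Finset.sum_congr rfl fun x _ => ?_
  rw [Complex.ofReal_zero, Complex.cpow_zero, mul_one]

theorem e0_bound (c ε T : ℝ) (N j : ℕ) : ‖e0 c ε T N j‖ ≤ (j : ℝ) ^ 2 := by
  rw [e0_eq]
  have := ec_bound 0 (dl c T) 1 (by norm_num) (by norm_num) N (d0 c ε T) (d0_le c ε T) j
  simpa using this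

end Pool.Agent.W192.PP
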