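import Pool.Agent.W192.PP.Shift

open Complex Filter Topology Set MeasureTheory

namespace Pool.Agent.W192.PP

open SG (phi hh dl rectI rect_zero phi_norm)
open SG.Deep (phi_analytic)
open SP SP.EvalAux
open Pool.Agent.W192.SI (Adm dd ev_small4')

/-- a window `[W, W+H]` inside `[T, 2T]` with all parameters; `b` bounds the frequencies -/
structure Dat (x η H T W : ℝ) (N N' J : ℕ) : Prop where
  adm : Adm H T
  w1 : T ≤ W
  w2 : W + H ≤ 2 * T
  x0 : 0 ≤ x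
  η0 : 0 < η
  η1 : η ≤ 1
  x1 : x + 2 * η ≤ 1
  n1 : (N : ℝ) ≤ T ^ x
  n2 : T ^ (x + 2 * η) ≤ N' + 1
  n3 : (N' : ℝ) ≤ T
  j1 : (J : ℝ) ≤ T
  j2 : ∀ j : Fin J, fr H j ≤ η * Real.log T
  dbig : 40 / η ≤ dd H T

/-- the product `D g_v` -/
noncomputable def FF (c ε H T : ℝ) (N : ℕ) {J : ℕ} (v : Fin J → ℂ) (s : ℂ) : ℂ :=
  DP N (d0 c ε T) s * gv H v s

theorem sta_FF (c ε H T : ℝ) (N : ℕ) {J : ℕ} (v : Fin J → ℂ) (s : ℂ) :
    sta (FF c ε H T N v) s = DPs N (d0 c ε T) s * gs H v s := by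
  have h := sta_mul (DP N (d0 c ε T)) (gv H v) s
  rw [sta_DP, sta_gv] at h
  exact h

theorem FF_diff (c ε H T : ℝ) (N : ℕ) {J : ℕ} (v : Fin J → ℂ) :
    Differentiable ℂ (FF c ε H T N v) := (dp_analytic N _).mul (gv_diff H v)

/-- the first integrand: tail -/
noncomputable def G1 (c ε H T τ : ℝ) (N N' : ℕ) {J : ℕ} (v : Fin J → ℂ) (s : ℂ) : ℂ :=
  rho c T s * (PPr 0 (dl c T) N (d0 c ε T) s - DP N' (e0 c ε T N) s) *
    (gv H v s * (DPs N (d0 c ε T) s * gs H v s)) * phi τ (dd H T) s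

/-- the second integrand: polynomial part -/
noncomputable def G2 (c ε H T τ : ℝ) (N N' : ℕ) {J : ℕ} (v : Fin J → ℂ) (s : ℂ) : ℂ :=
  rho c T s * DP N' (e0 c ε T N) s *
    (gv H v s * (DPs N (d0 c ε T) s * gs H v s)) * phi τ (dd H T) s

theorem G_split (c ε H T τ : ℝ) (N N' : ℕ) {J : ℕ} (v : Fin J → ℂ) (s : ℂ) (hs : 1 < s.re) :
    ff c T s * FF c ε H T N v s * sta (FF c ε H T N v) s * phi τ (dd H T) s =
      G1 c ε H T τ N N' v s + G2 c ε H T τ N N' v s := by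
  rw [ff_eq c T s hs, sta_FF]
  unfold G1 G2 FF PPr
  rw [Complex.ofReal_zero, sub_zero]
  ring

section bounds

variable {x η H T W : ℝ} {N N' J : ℕ}

theorem Dat.T1 (h : Dat x η H T W N N' J) : 1 ≤ T := by linarith [h.adm.T_ge']

theorem Dat.N_le (h : Dat x η H T W N N' J) : (N : ℝ) ≤ T := by
  refine h.n1.trans ?_
  calc T ^ x ≤ T ^ (1 : ℝ) := Real.rpow_le_rpow_of_exponent_le h.T1 (by linarith [h.x1, h.η0])
    _ = T := Real.rpow_one T

/-- bound for the tail integrand without `φ` -/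
theorem G1_bound (h : Dat x η H T W N N' J) (c ε : ℝ) (v : Fin J → ℂ) (s : ℂ) (hs : 6 ≤ s.re) :
    ‖PPr 0 (dl c T) N (d0 c ε T) s - DP N' (e0 c ε T N) s‖ *
      (‖gv H v s‖ * (‖DPs N (d0 c ε T) s‖ * ‖gs H v s‖)) ≤
      2 * T ^ (7 : ℝ) * T ^ (-(η * s.re)) * ∑ j, ‖v j‖ ^ 2 := by
  have hT := h.T1
  have hT0 : 0 < T := by linarith
  have hη := h.η0
  have h1 := tail_bound c ε T N N' s hs
  have h2 := dps_right c ε T N s (by linarith)
  have hb0 : 0 ≤ η * Real.log T := mul_nonneg hη.le (Real.log_nonneg hT)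
  have h3 := gg_prod_bound h.adm.H_pos v (η * Real.log T) hb0 h.j2 s
  have hV : 0 ≤ ∑ j, ‖v j‖ ^ 2 := Finset.sum_nonneg fun j _ => by positivity
  have h4 : ((N' : ℝ) + 1) ^ (6 - s.re) ≤ T ^ ((x + 2 * η) * (6 - s.re)) := by
    rw [Real.rpow_mul hT0.le]
    exact Real.rpow_le_rpow_of_nonpos (Real.rpow_pos_of_pos hT0 _) h.n2 (by linarith)
  have h5 : (N : ℝ) ^ s.re ≤ T ^ (x * s.re) := by
    rw [Real.rpow_mul hT0.le]
    exact Real.rpow_le_rpow (by positivity) h.n1 (by linarith)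
  have h6 : Real.exp (|s.re - 1 / 2| * (η * Real.log T)) ≤ T ^ (η * s.re) := by
    rw [Real.rpow_def_of_pos hT0, abs_of_nonneg (by linarith)]
    apply Real.exp_le_exp.mpr
    nlinarith
  have h7 : T ^ ((x + 2 * η) * (6 - s.re)) * T ^ (x * s.re) * T ^ (η * s.re) * T ≤
      T ^ (7 : ℝ) * T ^ (-(η * s.re)) := by
    nth_rewrite 4 [← Real.rpow_one T]
    rw [← Real.rpow_add hT0, ← Real.rpow_add hT0, ← Real.rpow_add hT0, ← Real.rpow_add hT0]
    apply Real.rpow_le_rpow_of_exponent_le hT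
    nlinarith [h.x1, h.x0]
  calc ‖PPr 0 (dl c T) N (d0 c ε T) s - DP N' (e0 c ε T N) s‖ *
      (‖gv H v s‖ * (‖DPs N (d0 c ε T) s‖ * ‖gs H v s‖))
      = ‖PPr 0 (dl c T) N (d0 c ε T) s - DP N' (e0 c ε T N) s‖ *
        ‖DPs N (d0 c ε T) s‖ * (‖gv H v s‖ * ‖gs H v s‖) := by ring
    _ ≤ (2 * T ^ ((x + 2 * η) * (6 - s.re))) * T ^ (x * s.re) *
        (T ^ (η * s.re) * (T * ∑ j, ‖v j‖ ^ 2)) := by
        apply mul_le_mul
        · apply mul_le_mul _ (h2.trans h5) (norm_nonneg _) (by positivity)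
          exact h1.trans (mul_le_mul_of_nonneg_left h4 (by norm_num))
        · refine h3.trans ?_
          apply mul_le_mul h6 _ (by positivity) (by positivity)
          exact mul_le_mul_of_nonneg_right h.j1 hV
        · positivity
        · positivity
    _ = 2 * (T ^ ((x + 2 * η) * (6 - s.re)) * T ^ (x * s.re) * T ^ (η * s.re) * T) *
        ∑ j, ‖v j‖ ^ 2 := by ring
    _ ≤ 2 * (T ^ (7 : ℝ) * T ^ (-(η * s.re))) * ∑ j, ‖v j‖ ^ 2 := by
        apply mul_le_mul_of_nonneg_right _ hV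
        exact mul_le_mul_of_nonneg_left h7 (by norm_num)
    _ = _ := by ring

/-- bound for the polynomial integrand without `φ` -/
theorem G2_bound (h : Dat x η H T W N N' J) (c ε : ℝ) (v : Fin J → ℂ) (s : ℂ) (hs : -5 ≤ s.re)
    (hs2 : s.re ≤ 6) :
    (‖gv H v s‖ * (‖DPs N (d0 c ε T) s‖ * ‖gs H v s‖)) ≤
      T ^ (13 : ℝ) * ∑ j, ‖v j‖ ^ 2 := by
  have hT := h.T1
  have hT0 : 0 < T := by linarith
  have hη := h.η0
  have hb0 : 0 ≤ η * Real.log T := mul_nonneg hη.le (Real.log_nonneg hT)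
  have h3 := gg_prod_bound h.adm.H_pos v (η * Real.log T) hb0 h.j2 s
  have hV : 0 ≤ ∑ j, ‖v j‖ ^ 2 := Finset.sum_nonneg fun j _ => by positivity
  have h2 : ‖DPs N (d0 c ε T) s‖ ≤ T ^ (6 : ℝ) := by
    refine (norm_dps N (d0 c ε T) 1 (d0_le c ε T) s hs2).trans ?_
    have : (N : ℝ) * (1 * (N : ℝ) ^ 5) = (N : ℝ) ^ 6 := by ring
    rw [this]
    have h6 : T ^ (6 : ℝ) = T ^ 6 := by norm_cast
    rw [h6]
    exact pow_le_pow_left₀ (by positivity) h.N_le 6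
  have h6 : Real.exp (|s.re - 1 / 2| * (η * Real.log T)) ≤ T ^ (6 : ℝ) := by
    rw [Real.rpow_def_of_pos hT0]
    apply Real.exp_le_exp.mpr
    have habs : |s.re - 1 / 2| ≤ 6 := by rw [abs_le]; constructor <;> linarith
    have hl := Real.log_nonneg hT
    have : |s.re - 1 / 2| * (η * Real.log T) ≤ 6 * (1 * Real.log T) :=
      mul_le_mul habs (mul_le_mul_of_nonneg_right h.η1 hl) hb0 (by norm_num)
    linarith
  calc (‖gv H v s‖ * (‖DPs N (d0 c ε T) s‖ * ‖gs H v s‖))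
      = ‖DPs N (d0 c ε T) s‖ * (‖gv H v s‖ * ‖gs H v s‖) := by ring
    _ ≤ T ^ (6 : ℝ) * (T ^ (6 : ℝ) * (T * ∑ j, ‖v j‖ ^ 2)) := by
        apply mul_le_mul h2 _ (by positivity) (by positivity)
        refine h3.trans ?_
        apply mul_le_mul h6 _ (by positivity) (by positivity)
        exact mul_le_mul_of_nonneg_right h.j1 hV
    _ = T ^ (13 : ℝ) * ∑ j, ‖v j‖ ^ 2 := by
        have a1 : T ^ (13 : ℝ) = T ^ 13 := by norm_cast
        have a2 : T ^ (6 : ℝ) = T ^ 6 := by norm_cast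
        rw [a1, a2]
        ring

end bounds

theorem G1_an (c ε H T τ : ℝ) (N N' : ℕ) {J : ℕ} (v : Fin J → ℂ) (s : ℂ) (hs : 1 < s.re)
    (hr : AnalyticAt ℂ (rho c T) s) : AnalyticAt ℂ (G1 c ε H T τ N N' v) s := by
  unfold G1
  exact ((hr.mul ((PPr_analytic _ _ _ _ s hs).sub ((dp_analytic _ _).analyticAt s))).mul
    (((gv_diff H v).analyticAt s).mul (((dps_analytic _ _).analyticAt s).mul
      ((gs_diff H v).analyticAt s)))).mul (phi_analytic _ _ s)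

theorem G2_an (c ε H T τ : ℝ) (N N' : ℕ) {J : ℕ} (v : Fin J → ℂ) (s : ℂ)
    (hr : AnalyticAt ℂ (rho c T) s) : AnalyticAt ℂ (G2 c ε H T τ N N' v) s := by
  unfold G2
  exact ((hr.mul ((dp_analytic _ _).analyticAt s)).mul
    (((gv_diff H v).analyticAt s).mul (((dps_analytic _ _).analyticAt s).mul
      ((gs_diff H v).analyticAt s)))).mul (phi_analytic _ _ s)

theorem an_cont {F : ℂ → ℂ} {p U1 U2 : ℝ} (hU : U1 ≤ U2)
    (h : ∀ s : ℂ, s.re = p → U1 ≤ s.im → s.im ≤ U2 → AnalyticAt ℂ F s) :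
    IntervalIntegrable (fun t : ℝ => F (⟨p, t⟩ : ℂ)) volume U1 U2 := by
  apply ContinuousOn.intervalIntegrable
  rw [uIcc_of_le hU]
  intro t ht
  have h1 := (h ⟨p, t⟩ rfl ht.1 ht.2).continuousAt
  apply ContinuousAt.continuousWithinAt
  exact ContinuousAt.comp (g := F) (f := fun t : ℝ => (⟨p, t⟩ : ℂ)) h1
    (mk_cont' p).continuousAt

/-- **the shift** -/
theorem shift_main (c : ℝ) (hc : 0 < c) (hc1 : c < 1) :
    ∃ T0 : ℝ, ∀ (x η ε H T W : ℝ) (N N' J : ℕ), T0 ≤ T → Dat x η H T W N N' J →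
    ∀ (U1 U2 τ : ℝ), W ≤ U1 → U1 ≤ W + H / 20 → W + H - H / 20 ≤ U2 → U2 ≤ W + H →
    W + H / 4 ≤ τ → τ ≤ W + 3 * H / 4 → ∀ v : Fin J → ℂ,
    ‖(∫ t in U1..U2, ff c T (⟨6, t⟩ : ℂ) * FF c ε H T N v (⟨6, t⟩ : ℂ) *
        sta (FF c ε H T N v) (⟨6, t⟩ : ℂ) * phi τ (dd H T) (⟨6, t⟩ : ℂ)) -
      ∫ t in U1..U2, G2 c ε H T τ N N' v (⟨1 / 2, t⟩ : ℂ)‖ ≤ ∑ j, ‖v j‖ ^ 2 := by
  obtain ⟨C, T1, hC, hT1, hrho⟩ := SP.rho_bound c hc hc1
  have ev1 := ev_small4' 17 (1 / 50) (1 / (64 * C * Real.exp 1)) (by norm_num) (by positivity)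
  obtain ⟨T2, hT2⟩ := eventually_atTop.mp (ev1.and (eventually_ge_atTop (8 * C * Real.exp 1)))
  refine ⟨max T1 T2, fun x η ε H T W N N' J hT hdat U1 U2 τ hU1 hU1' hU2 hU2' hτ1 hτ2 v => ?_⟩
  have hTa : T1 ≤ T := (le_max_left _ _).trans hT
  obtain ⟨hsm, hT8⟩ := hT2 T ((le_max_right _ _).trans hT)
  have hA := hdat.adm
  have hT1' := hdat.T1
  have hT0 : 0 < T := by linarith
  have hH := hA.H_pos
  have hHge := hA.H_ge
  norm_num at hHge
  have hHT := hA.hi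
  have hw1 := hdat.w1
  have hw2 := hdat.w2
  have hD := hA.dd_pos
  have hD100 := hA.one_le_dd
  have hDT := hA.dd_le_T
  set D := dd H T with hDdef
  set V := ∑ j, ‖v j‖ ^ 2 with hV
  have hV0 : 0 ≤ V := Finset.sum_nonneg fun j _ => by positivity
  have hU12 : U1 < U2 := by linarith
  set E := Real.exp (-(1 / 50) * Real.log T ^ 4) with hE
  have hE0 : 0 < E := Real.exp_pos _
  have he0 : 0 < Real.exp 1 := Real.exp_pos 1
  have hC0 : 0 < C := by linarith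
  -- rho
  have hr : ∀ s : ℂ, U1 ≤ s.im → s.im ≤ U2 → |s.re| ≤ T / 4 →
      AnalyticAt ℂ (rho c T) s ∧ ‖rho c T s‖ ≤ C := fun s h1 h2 h3 =>
    hrho T hTa s (by linarith) (by linarith) h3
  -- analytic
  have han1 : ∀ s : ℂ, 6 ≤ s.re → s.re ≤ 1 / 2 + D → U1 ≤ s.im → s.im ≤ U2 →
      AnalyticAt ℂ (G1 c ε H T τ N N' v) s := fun s h1 h2 h3 h4 =>
    G1_an c ε H T τ N N' v s (by linarith) (hr s h3 h4 (by rw [abs_of_pos (by linarith)]; linarith)).1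
  have han2 : ∀ s : ℂ, 1 / 2 ≤ s.re → s.re ≤ 6 → U1 ≤ s.im → s.im ≤ U2 →
      AnalyticAt ℂ (G2 c ε H T τ N N' v) s := fun s h1 h2 h3 h4 =>
    G2_an c ε H T τ N N' v s (hr s h3 h4 (by rw [abs_of_pos (by linarith)]; linarith)).1
  -- distance from τ on the horizontals
  have hfar1 : H / 5 ≤ |U1 - τ| := by
    rw [abs_of_nonpos (by linarith)]; linarith
  have hfar2 : H / 5 ≤ |U2 - τ| := by
    rw [abs_of_nonneg (by linarith)]; linarith
  have h17 : T ^ (17 : ℝ) * E ≤ 1 / (64 * C * Real.exp 1) := hsm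
  have hpow : ∀ a : ℝ, a ≤ 17 → T ^ a ≤ T ^ (17 : ℝ) := fun a ha =>
    Real.rpow_le_rpow_of_exponent_le hT1' ha
  -- pieces
  have hG1 : ∀ s : ℂ, 6 ≤ s.re → s.re ≤ 1 / 2 + D → U1 ≤ s.im → s.im ≤ U2 →
      ‖G1 c ε H T τ N N' v s‖ ≤ C * (2 * T ^ (7 : ℝ) * T ^ (-(η * s.re)) * V) *
        ‖phi τ D s‖ := by
    intro s h1 h2 h3 h4
    unfold G1
    rw [norm_mul]
    apply mul_le_mul_of_nonneg_right _ (norm_nonneg _)
    rw [norm_mul, norm_mul, norm_mul, norm_mul, mul_assoc]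
    exact mul_le_mul (hr s h3 h4 (by rw [abs_of_pos (by linarith)]; linarith)).2
      (G1_bound hdat c ε v s h1) (by positivity) hC0.le
  have hG2 : ∀ s : ℂ, 1 / 2 ≤ s.re → s.re ≤ 6 → U1 ≤ s.im → s.im ≤ U2 →
      ‖G2 c ε H T τ N N' v s‖ ≤ C * (T ^ (16 : ℝ) * V) * ‖phi τ D s‖ := by
    intro s h1 h2 h3 h4
    unfold G2
    rw [norm_mul]
    apply mul_le_mul_of_nonneg_right _ (norm_nonneg _)
    rw [norm_mul, norm_mul, norm_mul, norm_mul, mul_assoc]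
    apply mul_le_mul (hr s h3 h4 (by rw [abs_of_pos (by linarith)]; linarith)).2 _
      (by positivity) hC0.le
    have p1 : ‖DP N' (e0 c ε T N) s‖ ≤ T ^ (3 : ℝ) := by
      refine (pp_bound c ε T N N' s (by linarith)).trans ?_
      have : T ^ (3 : ℝ) = T ^ 3 := by norm_cast
      rw [this]
      exact pow_le_pow_left₀ (by positivity) hdat.n3 3
    have p2 := G2_bound hdat c ε v s (by linarith) h2
    calc ‖DP N' (e0 c ε T N) s‖ * (‖gv H v s‖ * (‖DPs N (d0 c ε T) s‖ * ‖gs H v s‖)) ≤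
          T ^ (3 : ℝ) * (T ^ (13 : ℝ) * V) := mul_le_mul p1 p2 (by positivity) (by positivity)
      _ = T ^ (16 : ℝ) * V := by
          rw [← mul_assoc, ← Real.rpow_add hT0]
          norm_num
  -- horizontals
  have hor1 : ∀ σ : ℝ, 6 ≤ σ → σ ≤ 1 / 2 + D → ∀ U : ℝ, (U = U1 ∨ U = U2) →
      ‖G1 c ε H T τ N N' v (⟨σ, U⟩ : ℂ)‖ ≤ 2 * C * Real.exp 1 * V * (T ^ (7 : ℝ) * E) := by
    intro σ h1 h2 U hU
    have hUb : U1 ≤ U ∧ U ≤ U2 ∧ H / 5 ≤ |U - τ| := by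
      rcases hU with rfl | rfl
      · exact ⟨le_rfl, hU12.le, hfar1⟩
      · exact ⟨hU12.le, le_rfl, hfar2⟩
    refine (hG1 ⟨σ, U⟩ h1 h2 hUb.1 hUb.2.1).trans ?_
    have p1 := phi_small hA τ (⟨σ, U⟩ : ℂ) (by
      rw [abs_of_nonneg (by simp only; linarith)]; simp only; linarith) hUb.2.2
    have p2 : T ^ (-(η * (⟨σ, U⟩ : ℂ).re)) ≤ 1 := by
      apply Real.rpow_le_one_of_one_le_of_nonpos hT1'
      have := hdat.η0
      simp only
      nlinarith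
    calc C * (2 * T ^ (7 : ℝ) * T ^ (-(η * (⟨σ, U⟩ : ℂ).re)) * V) * ‖phi τ D (⟨σ, U⟩ : ℂ)‖
        ≤ C * (2 * T ^ (7 : ℝ) * 1 * V) * (Real.exp 1 * E) := by
          apply mul_le_mul _ p1 (norm_nonneg _) (by positivity)
          apply mul_le_mul_of_nonneg_left _ hC0.le
          apply mul_le_mul_of_nonneg_right _ hV0
          exact mul_le_mul_of_nonneg_left p2 (by positivity)
      _ = _ := by ring
  have hor2 : ∀ σ : ℝ, 1 / 2 ≤ σ → σ ≤ 6 → ∀ U : ℝ, (U = U1 ∨ U = U2) →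
      ‖G2 c ε H T τ N N' v (⟨σ, U⟩ : ℂ)‖ ≤ C * Real.exp 1 * V * (T ^ (16 : ℝ) * E) := by
    intro σ h1 h2 U hU
    have hUb : U1 ≤ U ∧ U ≤ U2 ∧ H / 5 ≤ |U - τ| := by
      rcases hU with rfl | rfl
      · exact ⟨le_rfl, hU12.le, hfar1⟩
      · exact ⟨hU12.le, le_rfl, hfar2⟩
    refine (hG2 ⟨σ, U⟩ h1 h2 hUb.1 hUb.2.1).trans ?_
    have p1 := phi_small hA τ (⟨σ, U⟩ : ℂ) (by
      rw [abs_of_nonneg (by simp only; linarith)]; simp only; linarith) hUb.2.2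
    calc C * (T ^ (16 : ℝ) * V) * ‖phi τ D (⟨σ, U⟩ : ℂ)‖
        ≤ C * (T ^ (16 : ℝ) * V) * (Real.exp 1 * E) :=
          mul_le_mul_of_nonneg_left p1 (by positivity)
      _ = _ := by ring
  -- shifts
  have s1 := vshift (G1 c ε H T τ N N' v) 6 (1 / 2 + D) U1 U2 _ (by linarith) hU12 han1
    (fun σ h1 h2 => ⟨hor1 σ h1 h2 U1 (Or.inl rfl), hor1 σ h1 h2 U2 (Or.inr rfl)⟩)
  have s2 := vshift (G2 c ε H T τ N N' v) (1 / 2) 6 U1 U2 _ (by norm_num) hU12 han2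
    (fun σ h1 h2 => ⟨hor2 σ h1 h2 U1 (Or.inl rfl), hor2 σ h1 h2 U2 (Or.inr rfl)⟩)
  -- the far vertical line
  have s3 : ‖∫ y in U1..U2, G1 c ε H T τ N N' v (⟨1 / 2 + D, y⟩ : ℂ)‖ ≤ V / 4 := by
    have hb : ∀ y ∈ Set.uIoc U1 U2, ‖G1 c ε H T τ N N' v (⟨1 / 2 + D, y⟩ : ℂ)‖ ≤
        C * (2 * T ^ (7 : ℝ) * T ^ (-40 : ℝ) * V) * Real.exp 1 := by
      intro y hy
      rw [uIoc_of_le hU12.le] at hy
      refine (hG1 ⟨1 / 2 + D, y⟩ (by simp only; linarith) le_rfl hy.1.le hy.2).trans ?_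
      have p1 := phi_le hA τ (⟨1 / 2 + D, y⟩ : ℂ) (by
        simp only
        rw [add_sub_cancel_left, abs_of_pos hD])
      have p2 : T ^ (-(η * (⟨1 / 2 + D, y⟩ : ℂ).re)) ≤ T ^ (-40 : ℝ) := by
        apply Real.rpow_le_rpow_of_exponent_le hT1'
        have h1 := hdat.η0
        have h2 := hdat.dbig
        rw [div_le_iff₀ h1] at h2
        simp only
        nlinarith
      apply mul_le_mul _ p1 (norm_nonneg _) (by positivity)
      apply mul_le_mul_of_nonneg_left _ hC0.le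
      apply mul_le_mul_of_nonneg_right _ hV0
      exact mul_le_mul_of_nonneg_left p2 (by positivity)
    refine (intervalIntegral.norm_integral_le_of_norm_le_const hb).trans ?_
    have hlen : |U2 - U1| ≤ T := by
      rw [abs_of_nonneg (by linarith)]
      linarith
    have hTT : T ^ (7 : ℝ) * T ^ (-40 : ℝ) * T ≤ 1 / T := by
      have : (1 : ℝ) / T = T ^ (-1 : ℝ) := by rw [Real.rpow_neg_one, one_div]
      rw [this]
      nth_rewrite 3 [← Real.rpow_one T]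
      rw [← Real.rpow_add hT0, ← Real.rpow_add hT0]
      exact Real.rpow_le_rpow_of_exponent_le hT1' (by norm_num)
    calc C * (2 * T ^ (7 : ℝ) * T ^ (-40 : ℝ) * V) * Real.exp 1 * |U2 - U1|
        ≤ C * (2 * T ^ (7 : ℝ) * T ^ (-40 : ℝ) * V) * Real.exp 1 * T :=
          mul_le_mul_of_nonneg_left hlen (by positivity)
      _ = 2 * C * Real.exp 1 * V * (T ^ (7 : ℝ) * T ^ (-40 : ℝ) * T) := by ring
      _ ≤ 2 * C * Real.exp 1 * V * (1 / T) := mul_le_mul_of_nonneg_left hTT (by positivity)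
      _ = V * (2 * C * Real.exp 1 / T) := by ring
      _ ≤ V * (1 / 4) := by
          apply mul_le_mul_of_nonneg_left _ hV0
          rw [div_le_div_iff₀ hT0 (by norm_num)]
          linarith
      _ = V / 4 := by ring
  -- split
  have i1 := an_cont (p := 6) hU12.le (fun s h1 h2 h3 =>
    han1 s (by linarith) (by linarith) h2 h3)
  have i2 := an_cont (p := 6) hU12.le (fun s h1 h2 h3 =>
    han2 s (by linarith) (by linarith) h2 h3)
  have hsplit : (∫ t in U1..U2, ff c T (⟨6, t⟩ : ℂ) * FF c ε H T N v (⟨6, t⟩ : ℂ) *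
        sta (FF c ε H T N v) (⟨6, t⟩ : ℂ) * phi τ D (⟨6, t⟩ : ℂ)) =
      (∫ t in U1..U2, G1 c ε H T τ N N' v (⟨6, t⟩ : ℂ)) +
      ∫ t in U1..U2, G2 c ε H T τ N N' v (⟨6, t⟩ : ℂ) := by
    rw [← intervalIntegral.integral_add i1 i2]
    apply intervalIntegral.integral_congr
    intro t _
    exact G_split c ε H T τ N N' v ⟨6, t⟩ (by norm_num)
  rw [hsplit]
  -- conclusion
  have c1 : 2 * (1 / 2 + D - 6) * (2 * C * Real.exp 1 * V * (T ^ (7 : ℝ) * E)) ≤ V / 8 := by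
    have hTE : T * (T ^ (7 : ℝ) * E) ≤ T ^ (17 : ℝ) * E := by
      rw [← mul_assoc]
      apply mul_le_mul_of_nonneg_right _ hE0.le
      nth_rewrite 1 [← Real.rpow_one T]
      rw [← Real.rpow_add hT0]
      exact Real.rpow_le_rpow_of_exponent_le hT1' (by norm_num)
    calc 2 * (1 / 2 + D - 6) * (2 * C * Real.exp 1 * V * (T ^ (7 : ℝ) * E)) ≤
        2 * T * (2 * C * Real.exp 1 * V * (T ^ (7 : ℝ) * E)) := by
          apply mul_le_mul_of_nonneg_right _ (by positivity)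
          linarith
      _ = 4 * C * Real.exp 1 * V * (T * (T ^ (7 : ℝ) * E)) := by ring
      _ ≤ 4 * C * Real.exp 1 * V * (1 / (64 * C * Real.exp 1)) := by
          apply mul_le_mul_of_nonneg_left _ (by positivity)
          exact hTE.trans h17
      _ = V / 16 := by field_simp; ring
      _ ≤ V / 8 := by linarith
  have c2 : 2 * (6 - 1 / 2) * (C * Real.exp 1 * V * (T ^ (16 : ℝ) * E)) ≤ V / 4 := by
    have hTE : T ^ (16 : ℝ) * E ≤ T ^ (17 : ℝ) * E :=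
      mul_le_mul_of_nonneg_right (hpow 16 (by norm_num)) hE0.le
    calc 2 * (6 - 1 / 2) * (C * Real.exp 1 * V * (T ^ (16 : ℝ) * E)) =
        11 * C * Real.exp 1 * V * (T ^ (16 : ℝ) * E) := by ring
      _ ≤ 11 * C * Real.exp 1 * V * (1 / (64 * C * Real.exp 1)) := by
          apply mul_le_mul_of_nonneg_left _ (by positivity)
          exact hTE.trans h17
      _ = V * (11 / 64) := by field_simp
      _ ≤ V / 4 := by linarith
  have key : ‖((∫ t in U1..U2, G1 c ε H T τ N N' v (⟨6, t⟩ : ℂ)) +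
      ∫ t in U1..U2, G2 c ε H T τ N N' v (⟨6, t⟩ : ℂ)) -
      ∫ t in U1..U2, G2 c ε H T τ N N' v (⟨1 / 2, t⟩ : ℂ)‖ ≤
      ‖(∫ y in U1..U2, G1 c ε H T τ N N' v (⟨6, y⟩ : ℂ)) -
        ∫ y in U1..U2, G1 c ε H T τ N N' v (⟨1 / 2 + D, y⟩ : ℂ)‖ +
      ‖∫ y in U1..U2, G1 c ε H T τ N N' v (⟨1 / 2 + D, y⟩ : ℂ)‖ +
      ‖(∫ y in U1..U2, G2 c ε H T τ N N' v (⟨1 / 2, y⟩ : ℂ)) -
        ∫ y in U1..U2, G2 c ε H T τ N N' v (⟨6, y⟩ : ℂ)‖ := by
    rw [← norm_neg ((∫ y in U1..U2, G2 c ε H T τ N N' v (⟨1 / 2, y⟩ : ℂ)) -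
        ∫ y in U1..U2, G2 c ε H T τ N N' v (⟨6, y⟩ : ℂ))]
    refine le_trans ?_ (norm_add₃_le)
    apply le_of_eq
    congr 1
    ring
  refine key.trans ?_
  linarith

end Pool.Agent.W192.PP
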