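import Pool.Agent.W192.PP.MV
import Pool.Agent.W192.PP.Diag
import Pool.Agent.W192.PP.Shift2

open Complex Filter Topology Set MeasureTheory

namespace Pool.Agent.W192.PP

open SG (phi hh dl)
open SG.Deep (gauss_integrable gauss_integral)
open SG.MVaux (cpow_nat ek_int ek_val log_gap_sq)
open SP SP.EvalAux
open Pool.Agent.W192.SI (Adm dd ev_small4')

/-- real size of the coefficient -/
noncomputable def rn (n : ℕ) : ℂ := ((Real.exp (-(1 / 2) * Real.log n) : ℝ) : ℂ)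

theorem rn_sq {n : ℕ} (hn : 1 ≤ n) : rn n * rn n = 1 / (n : ℂ) := by
  unfold rn
  rw [← Complex.ofReal_mul, ← Real.exp_add]
  have : -(1 / 2) * Real.log n + -(1 / 2) * Real.log n = -Real.log n := by ring
  have hn0 : (0 : ℝ) < n := by exact_mod_cast hn
  rw [this, Real.exp_neg, Real.exp_log hn0]
  push_cast
  rw [one_div]

theorem rn_le {n : ℕ} (hn : 1 ≤ n) : ‖rn n‖ ≤ 1 := by
  unfold rn
  rw [Complex.norm_real, Real.norm_of_nonneg (Real.exp_pos _).le, Real.exp_le_one_iff]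
  have : 0 ≤ Real.log n := Real.log_nonneg (by exact_mod_cast hn)
  linarith

/-- expansion of the product of a polynomial and a conjugate polynomial -/
theorem pd_expand (a b : ℕ → ℂ) (N N' : ℕ) (D τ t : ℝ) :
    (wt τ D t : ℂ) * (DP N' a (⟨1 / 2, t⟩ : ℂ) * (starRingEnd ℂ) (DP N b (⟨1 / 2, t⟩ : ℂ))) =
      ∑ j ∈ Finset.Icc 1 N', ∑ l ∈ Finset.Icc 1 N,
        (a j * rn j * ((starRingEnd ℂ) (b l) * rn l)) *
          ((Real.exp (-(t - τ) ^ 2 / (2 * D ^ 2)) : ℂ) *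
            cexp (I * ((Real.log l - Real.log j : ℝ) : ℂ) * t)) := by
  rw [DP_half, DP_half, map_sum, Finset.sum_mul_sum, Finset.mul_sum]
  refine Finset.sum_congr rfl fun j _ => ?_
  rw [Finset.mul_sum]
  refine Finset.sum_congr rfl fun l _ => ?_
  have h2 : (starRingEnd ℂ) (b l * ((Real.exp (-(1 / 2) * Real.log l) : ℝ) : ℂ) *
      cexp (-(I * ((Real.log l : ℝ) : ℂ) * t))) =
      (starRingEnd ℂ) (b l) * ((Real.exp (-(1 / 2) * Real.log l) : ℝ) : ℂ) *
        cexp (I * ((Real.log l : ℝ) : ℂ) * t) := by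
    rw [map_mul, map_mul, ← Complex.exp_conj, Complex.conj_ofReal]
    congr 2
    simp only [map_neg, map_mul, conj_I, Complex.conj_ofReal]
    ring
  rw [h2]
  have h3 : cexp (I * ((Real.log l - Real.log j : ℝ) : ℂ) * t) =
      cexp (-(I * ((Real.log j : ℝ) : ℂ) * t)) * cexp (I * ((Real.log l : ℝ) : ℂ) * t) := by
    rw [← Complex.exp_add]
    congr 1
    push_cast
    ring
  rw [h3]
  unfold wt rn
  ring

theorem pd_int (a b : ℕ → ℂ) (N N' : ℕ) (D τ : ℝ) (hD : 0 < D) :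
    Integrable (fun t : ℝ => (wt τ D t : ℂ) * (DP N' a (⟨1 / 2, t⟩ : ℂ) *
      (starRingEnd ℂ) (DP N b (⟨1 / 2, t⟩ : ℂ)))) := by
  simp_rw [pd_expand]
  exact integrable_finsetSum _ fun j _ => integrable_finsetSum _ fun l _ =>
    (ek_int D τ _ hD).const_mul _

/-- value of the full integral: the diagonal plus a tiny error -/
theorem pd_val (a b : ℕ → ℂ) (N N' : ℕ) (hNN : N ≤ N') (D τ A : ℝ) (hD : 0 < D)
    (ha : ∀ j ∈ Finset.Icc 1 N', ‖a j‖ ≤ A) (hb : ∀ l, ‖b l‖ ≤ 1) :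
    ‖(∫ t : ℝ, (wt τ D t : ℂ) * (DP N' a (⟨1 / 2, t⟩ : ℂ) *
      (starRingEnd ℂ) (DP N b (⟨1 / 2, t⟩ : ℂ)))) -
      ((D * Real.sqrt (2 * Real.pi) : ℝ) : ℂ) *
        ∑ l ∈ Finset.Icc 1 N, a l * (starRingEnd ℂ) (b l) / (l : ℂ)‖ ≤
      D * Real.sqrt (2 * Real.pi) * (N' * (N * (A * Real.exp (-(D ^ 2 / (2 * (N' : ℝ) ^ 2)))))) := by
  classical
  set S : ℝ := D * Real.sqrt (2 * Real.pi) with hS
  have hS0 : 0 ≤ S := by positivity
  have h1 : (∫ t : ℝ, (wt τ D t : ℂ) * (DP N' a (⟨1 / 2, t⟩ : ℂ) *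
      (starRingEnd ℂ) (DP N b (⟨1 / 2, t⟩ : ℂ)))) =
      ∑ j ∈ Finset.Icc 1 N', ∑ l ∈ Finset.Icc 1 N,
        (S : ℂ) * ((a j * rn j * ((starRingEnd ℂ) (b l) * rn l)) *
          (cexp (I * ((Real.log l - Real.log j : ℝ) : ℂ) * τ) *
            ((Real.exp (-(D ^ 2 * (Real.log l - Real.log j) ^ 2 / 2)) : ℝ) : ℂ))) := by
    simp_rw [pd_expand]
    rw [integral_finsetSum _ fun j _ => integrable_finsetSum _ fun l _ =>
      (ek_int D τ _ hD).const_mul _]
    refine Finset.sum_congr rfl fun j _ => ?_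
    rw [integral_finsetSum _ fun l _ => (ek_int D τ _ hD).const_mul _]
    refine Finset.sum_congr rfl fun l _ => ?_
    rw [integral_const_mul, ek_val D τ _ hD, hS]
    ring
  -- the diagonal as a double sum
  have h2 : ((S : ℝ) : ℂ) * ∑ l ∈ Finset.Icc 1 N, a l * (starRingEnd ℂ) (b l) / (l : ℂ) =
      ∑ j ∈ Finset.Icc 1 N', ∑ l ∈ Finset.Icc 1 N,
        if j = l then (S : ℂ) * (a l * (starRingEnd ℂ) (b l) / (l : ℂ)) else 0 := by
    rw [Finset.sum_comm, Finset.mul_sum]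
    refine Finset.sum_congr rfl fun l hl => ?_
    rw [Finset.sum_ite_eq' (Finset.Icc 1 N') l]
    rw [Finset.mem_Icc] at hl
    rw [if_pos (Finset.mem_Icc.mpr ⟨hl.1, hl.2.trans hNN⟩)]
  rw [h1, h2, ← Finset.sum_sub_distrib]
  set E := Real.exp (-(D ^ 2 / (2 * (N' : ℝ) ^ 2))) with hE
  have hterm : ∀ j ∈ Finset.Icc 1 N', ‖(∑ l ∈ Finset.Icc 1 N,
        (S : ℂ) * ((a j * rn j * ((starRingEnd ℂ) (b l) * rn l)) *
          (cexp (I * ((Real.log l - Real.log j : ℝ) : ℂ) * τ) *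
            ((Real.exp (-(D ^ 2 * (Real.log l - Real.log j) ^ 2 / 2)) : ℝ) : ℂ)))) -
        ∑ l ∈ Finset.Icc 1 N, if j = l then (S : ℂ) * (a l * (starRingEnd ℂ) (b l) / (l : ℂ))
          else 0‖ ≤ N * (S * (A * E)) := by
    intro j hj
    have hA0 : 0 ≤ A := (norm_nonneg _).trans (ha j hj)
    rw [← Finset.sum_sub_distrib]
    have hone : ∀ l ∈ Finset.Icc 1 N, ‖(S : ℂ) * ((a j * rn j * ((starRingEnd ℂ) (b l) * rn l)) *
          (cexp (I * ((Real.log l - Real.log j : ℝ) : ℂ) * τ) *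
            ((Real.exp (-(D ^ 2 * (Real.log l - Real.log j) ^ 2 / 2)) : ℝ) : ℂ))) -
        (if j = l then (S : ℂ) * (a l * (starRingEnd ℂ) (b l) / (l : ℂ)) else 0)‖ ≤ S * (A * E) := by
      intro l hl
      rw [Finset.mem_Icc] at hl hj
      by_cases hjl : j = l
      · subst hjl
        rw [if_pos rfl]
        have e : (S : ℂ) * ((a j * rn j * ((starRingEnd ℂ) (b j) * rn j)) *
          (cexp (I * ((Real.log j - Real.log j : ℝ) : ℂ) * τ) *
            ((Real.exp (-(D ^ 2 * (Real.log j - Real.log j) ^ 2 / 2)) : ℝ) : ℂ))) =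
            (S : ℂ) * (a j * (starRingEnd ℂ) (b j) / (j : ℂ)) := by
          have e1 : a j * rn j * ((starRingEnd ℂ) (b j) * rn j) =
              a j * (starRingEnd ℂ) (b j) * (rn j * rn j) := by ring
          rw [e1, rn_sq hj.1, sub_self]
          simp only [Complex.ofReal_zero, mul_zero, zero_mul, Complex.exp_zero, ne_eq,
            OfNat.ofNat_ne_zero, not_false_eq_true, zero_pow, zero_div, neg_zero, Real.exp_zero,
            Complex.ofReal_one, mul_one]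
          ring
        rw [e, sub_self, norm_zero]
        positivity
      · rw [if_neg hjl, sub_zero, norm_mul, Complex.norm_real, Real.norm_of_nonneg hS0]
        apply mul_le_mul_of_nonneg_left _ hS0
        rw [norm_mul, norm_mul, norm_mul, norm_mul, norm_mul, RCLike.norm_conj, Complex.norm_real,
          Real.norm_of_nonneg (Real.exp_pos _).le]
        have e1 : ‖cexp (I * ((Real.log l - Real.log j : ℝ) : ℂ) * τ)‖ = 1 := by
          rw [Complex.norm_exp]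
          have : (I * ((Real.log l - Real.log j : ℝ) : ℂ) * τ).re = 0 := by
            rw [mul_assoc, ← Complex.ofReal_mul, Complex.I_mul_re, Complex.ofReal_im, neg_zero]
          rw [this, Real.exp_zero]
        rw [e1, one_mul]
        have g1 := ha j (Finset.mem_Icc.mpr hj)
        have g2 := hb l
        have g3 := rn_le hj.1
        have g4 := rn_le hl.1
        have g5 : Real.exp (-(D ^ 2 * (Real.log l - Real.log j) ^ 2 / 2)) ≤ E := by
          rw [hE]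
          apply Real.exp_le_exp.mpr
          have hg := log_gap_sq (N := N') hj.1 hj.2 hl.1 (hl.2.trans hNN) hjl
          have hN0 : (0 : ℝ) < N' := by exact_mod_cast (by omega : 0 < N')
          have : D ^ 2 / (2 * (N' : ℝ) ^ 2) = D ^ 2 * (1 / (N' : ℝ) ^ 2) / 2 := by field_simp
          rw [this]
          have hD2 : 0 < D ^ 2 := by positivity
          have := mul_le_mul_of_nonneg_left hg hD2.le
          linarith
        have g6 : ‖a j‖ * ‖rn j‖ * (‖b l‖ * ‖rn l‖) ≤ A := by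
          calc ‖a j‖ * ‖rn j‖ * (‖b l‖ * ‖rn l‖) ≤ A * 1 * (1 * 1) := by
                apply mul_le_mul _ _ (by positivity) (by positivity)
                · exact mul_le_mul g1 g3 (norm_nonneg _) hA0
                · exact mul_le_mul g2 g4 (norm_nonneg _) zero_le_one
            _ = A := by ring
        exact mul_le_mul g6 g5 (Real.exp_pos _).le hA0
    refine (norm_sum_le_of_le _ hone).trans (le_of_eq ?_)
    rw [Finset.sum_const, nsmul_eq_mul, Nat.card_Icc, Nat.add_sub_cancel]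
  refine (norm_sum_le_of_le _ hterm).trans (le_of_eq ?_)
  rw [Finset.sum_const, nsmul_eq_mul, Nat.card_Icc, Nat.add_sub_cancel]
  ring

/-- cutting the tails -/
theorem cut_tail {H T : ℝ} (hA : Adm H T) (F : ℝ → ℂ) (τ U1 U2 K : ℝ) (hU : U1 ≤ U2)
    (hτ1 : H / 5 ≤ τ - U1) (hτ2 : H / 5 ≤ U2 - τ) (hF : ∀ t, ‖F t‖ ≤ K)
    (hint : Integrable (fun t : ℝ => (wt τ (dd H T) t : ℂ) * F t)) :
    ‖(∫ t : ℝ, (wt τ (dd H T) t : ℂ) * F t) - ∫ t in U1..U2, (wt τ (dd H T) t : ℂ) * F t‖ ≤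
      K * Real.exp (-(1 / 100) * Real.log T ^ 4) * (6 * dd H T) := by
  have hD := hA.dd_pos
  have hL := hA.log_ge
  have hH := hA.H_pos
  set D := dd H T with hDdef
  have hK : 0 ≤ K := (norm_nonneg _).trans (hF 0)
  have h0 := integral_add_compl (s := Set.Ioc U1 U2) measurableSet_Ioc hint
  rw [intervalIntegral.integral_of_le hU, ← h0, add_sub_cancel_left]
  have hD2 : D ^ 2 * Real.log T ^ 4 = H ^ 2 := by
    have h := hA.dd_sq
    calc D ^ 2 * Real.log T ^ 4 = (D * Real.log T ^ 2) ^ 2 := by ring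
      _ = H ^ 2 := by rw [h]
  have hpt : ∀ t ∈ (Set.Ioc U1 U2)ᶜ, ‖(wt τ D t : ℂ) * F t‖ ≤
      K * Real.exp (-(1 / 100) * Real.log T ^ 4) * Real.exp (-(t - τ) ^ 2 / (2 * (2 * D) ^ 2)) := by
    intro t ht
    have hdist : H / 5 ≤ |t - τ| := by
      rw [Set.mem_compl_iff, Set.mem_Ioc, not_and_or, not_lt, not_le] at ht
      rcases ht with ht | ht
      · rw [abs_of_nonpos (by linarith)]; linarith
      · rw [abs_of_nonneg (by linarith)]; linarith
    have hsq : (H / 5) ^ 2 ≤ (t - τ) ^ 2 := by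
      rw [← sq_abs (t - τ)]
      exact pow_le_pow_left₀ (by positivity) hdist 2
    have hw : wt τ D t ≤ Real.exp (-(1 / 100) * Real.log T ^ 4) *
        Real.exp (-(t - τ) ^ 2 / (2 * (2 * D) ^ 2)) := by
      unfold wt
      rw [← Real.exp_add]
      apply Real.exp_le_exp.mpr
      have hl4 : Real.log T ^ 4 = H ^ 2 / D ^ 2 := by
        rw [eq_div_iff (by positivity)]
        linarith
      rw [hl4]
      have e : -(t - τ) ^ 2 / (2 * D ^ 2) - -(t - τ) ^ 2 / (2 * (2 * D) ^ 2) =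
          -(3 / 8) * ((t - τ) ^ 2 / D ^ 2) := by
        field_simp
        ring
      have h3 : (H / 5) ^ 2 / D ^ 2 ≤ (t - τ) ^ 2 / D ^ 2 :=
        div_le_div_of_nonneg_right hsq (by positivity)
      have h4 : (H / 5) ^ 2 / D ^ 2 = H ^ 2 / D ^ 2 / 25 := by ring
      have h5 : 0 ≤ H ^ 2 / D ^ 2 := by positivity
      linarith
    have hwn : ‖wt τ D t‖ = wt τ D t := Real.norm_of_nonneg (Real.exp_pos _).le
    rw [norm_mul, Complex.norm_real, hwn]
    calc wt τ D t * ‖F t‖ ≤ (Real.exp (-(1 / 100) * Real.log T ^ 4) *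
        Real.exp (-(t - τ) ^ 2 / (2 * (2 * D) ^ 2))) * K :=
          mul_le_mul hw (hF t) (norm_nonneg _) (by positivity)
      _ = _ := by ring
  have hgi := (gauss_integrable (2 * D) τ (by positivity)).const_mul
    (K * Real.exp (-(1 / 100) * Real.log T ^ 4))
  have h1 : ‖∫ t in (Set.Ioc U1 U2)ᶜ, (wt τ D t : ℂ) * F t‖ ≤
      ∫ t in (Set.Ioc U1 U2)ᶜ, K * Real.exp (-(1 / 100) * Real.log T ^ 4) *
        Real.exp (-(t - τ) ^ 2 / (2 * (2 * D) ^ 2)) := by
    apply norm_integral_le_of_norm_le hgi.integrableOn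
    exact (ae_restrict_mem measurableSet_Ioc.compl).mono hpt
  refine h1.trans ?_
  have h2 := setIntegral_le_integral (s := (Set.Ioc U1 U2)ᶜ) hgi
    (Eventually.of_forall fun t => by positivity)
  refine h2.trans ?_
  rw [integral_const_mul, gauss_integral _ _ (by positivity)]
  have h5 : Real.sqrt (2 * Real.pi) ≤ 3 := by
    rw [Real.sqrt_le_left (by norm_num)]
    have := Real.pi_lt_four
    linarith
  apply mul_le_mul_of_nonneg_left _ (by positivity)
  nlinarith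

theorem dp_line (c ε T : ℝ) (N : ℕ) (t : ℝ) : ‖DP N (d0 c ε T) (⟨1 / 2, t⟩ : ℂ)‖ ≤ N := by
  have := norm_dp N (d0 c ε T) 1 (d0_le c ε T) (⟨1 / 2, t⟩ : ℂ) (by norm_num)
  simpa using this

/-- the main term on `[U1,U2]` -/
theorem gauss_main : ∃ T0 : ℝ, ∀ (x η c ε H T W : ℝ) (N N' J : ℕ), T0 ≤ T →
    Dat x η H T W N N' J → N ≤ N' → Real.log T ^ 2 * N' ≤ dd H T →
    ∀ (U1 U2 τ : ℝ), W ≤ U1 → U1 ≤ W + H / 20 → W + H - H / 20 ≤ U2 → U2 ≤ W + H →
    W + H / 4 ≤ τ → τ ≤ W + 3 * H / 4 →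
    ‖(∫ t in U1..U2, (wt τ (dd H T) t : ℂ) * (DP N' (e0 c ε T N) (⟨1 / 2, t⟩ : ℂ) *
      (starRingEnd ℂ) (DP N (d0 c ε T) (⟨1 / 2, t⟩ : ℂ)))) -
      ((dd H T * Real.sqrt (2 * Real.pi) : ℝ) : ℂ) * be c ε T N‖ ≤ 1 := by
  have ev1 := ev_small4' 5 (1 / 100) (1 / 12) (by norm_num) (by norm_num)
  have ev2 := ev_small4' 5 (1 / 2) (1 / 12) (by norm_num) (by norm_num)
  obtain ⟨T0, hT0⟩ := eventually_atTop.mp (ev1.and ev2)
  refine ⟨T0, fun x η c ε H T W N N' J hT hdat hNN hbig U1 U2 τ hU1 hU1' hU2 hU2' hτ1 hτ2 => ?_⟩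
  obtain ⟨k1, k2⟩ := hT0 T hT
  have hA := hdat.adm
  have hD := hA.dd_pos
  have hL := hA.log_ge
  have hH := hA.H_pos
  have hT1 := hdat.T1
  have hTpos : 0 < T := by linarith
  set D := dd H T with hDdef
  have hDT : D ≤ T / 100 := hA.dd_le_T
  have h5 : Real.sqrt (2 * Real.pi) ≤ 3 := by
    rw [Real.sqrt_le_left (by norm_num)]
    have := Real.pi_lt_four
    linarith
  have ha : ∀ j ∈ Finset.Icc 1 N', ‖e0 c ε T N j‖ ≤ T ^ 2 := by
    intro j hj
    refine (e0_bound c ε T N j).trans ?_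
    apply pow_le_pow_left₀ (by positivity)
    exact le_trans (by exact_mod_cast (Finset.mem_Icc.mp hj).2) hdat.n3
  have hv := pd_val (e0 c ε T N) (d0 c ε T) N N' hNN D τ (T ^ 2) hD ha (d0_le c ε T)
  have hbe : ∑ l ∈ Finset.Icc 1 N, e0 c ε T N l * (starRingEnd ℂ) (d0 c ε T l) / (l : ℂ) =
      be c ε T N := rfl
  rw [hbe] at hv
  have hK : ∀ t : ℝ, ‖DP N' (e0 c ε T N) (⟨1 / 2, t⟩ : ℂ) *
      (starRingEnd ℂ) (DP N (d0 c ε T) (⟨1 / 2, t⟩ : ℂ))‖ ≤ T ^ 4 := by
    intro t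
    rw [norm_mul, RCLike.norm_conj]
    have p1 := pp_bound c ε T N N' (⟨1 / 2, t⟩ : ℂ) (by norm_num)
    have p2 := dp_line c ε T N t
    have p3 : (N' : ℝ) ^ 3 ≤ T ^ 3 := pow_le_pow_left₀ (by positivity) hdat.n3 3
    calc _ ≤ T ^ 3 * T := mul_le_mul (p1.trans p3) (p2.trans hdat.N_le) (norm_nonneg _)
          (by positivity)
      _ = T ^ 4 := by ring
  have hc := cut_tail hA (fun t => DP N' (e0 c ε T N) (⟨1 / 2, t⟩ : ℂ) *
      (starRingEnd ℂ) (DP N (d0 c ε T) (⟨1 / 2, t⟩ : ℂ))) τ U1 U2 (T ^ 4) (by linarith)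
      (by linarith) (by linarith) hK (pd_int _ _ _ _ _ _ hD)
  have c1 : T ^ 4 * Real.exp (-(1 / 100) * Real.log T ^ 4) * (6 * D) ≤ 1 / 2 := by
    calc T ^ 4 * Real.exp (-(1 / 100) * Real.log T ^ 4) * (6 * D) ≤
        T ^ 4 * Real.exp (-(1 / 100) * Real.log T ^ 4) * (6 * T) := by
          apply mul_le_mul_of_nonneg_left _ (by positivity)
          linarith
      _ = 6 * (T ^ (5 : ℝ) * Real.exp (-(1 / 100) * Real.log T ^ 4)) := by
          have : T ^ (5 : ℝ) = T ^ 5 := by norm_cast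
          rw [this]
          ring
      _ ≤ 6 * (1 / 12) := mul_le_mul_of_nonneg_left k1 (by norm_num)
      _ = 1 / 2 := by norm_num
  have c2 : D * Real.sqrt (2 * Real.pi) * (N' * (N * (T ^ 2 *
      Real.exp (-(D ^ 2 / (2 * (N' : ℝ) ^ 2)))))) ≤ 1 / 2 := by
    rcases Nat.eq_zero_or_pos N' with h0 | h0
    · rw [h0]
      simp
    have hN0 : (0 : ℝ) < N' := by exact_mod_cast h0
    have g1 : Real.exp (-(D ^ 2 / (2 * (N' : ℝ) ^ 2))) ≤ Real.exp (-(1 / 2) * Real.log T ^ 4) := by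
      apply Real.exp_le_exp.mpr
      have : Real.log T ^ 4 ≤ D ^ 2 / (N' : ℝ) ^ 2 := by
        rw [le_div_iff₀ (by positivity)]
        have := pow_le_pow_left₀ (by positivity) hbig 2
        calc Real.log T ^ 4 * (N' : ℝ) ^ 2 = (Real.log T ^ 2 * N') ^ 2 := by ring
          _ ≤ D ^ 2 := this
      have e : D ^ 2 / (2 * (N' : ℝ) ^ 2) = D ^ 2 / (N' : ℝ) ^ 2 / 2 := by field_simp
      rw [e]
      linarith
    calc D * Real.sqrt (2 * Real.pi) * (N' * (N * (T ^ 2 *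
          Real.exp (-(D ^ 2 / (2 * (N' : ℝ) ^ 2)))))) ≤
        T / 100 * 3 * (T * (T * (T ^ 2 * Real.exp (-(1 / 2) * Real.log T ^ 4)))) := by
          apply mul_le_mul _ _ (by positivity) (by positivity)
          · exact mul_le_mul hDT h5 (Real.sqrt_nonneg _) (by positivity)
          · apply mul_le_mul hdat.n3 _ (by positivity) (by positivity)
            apply mul_le_mul hdat.N_le _ (by positivity) (by positivity)
            exact mul_le_mul_of_nonneg_left g1 (by positivity)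
      _ = 3 / 100 * (T ^ (5 : ℝ) * Real.exp (-(1 / 2) * Real.log T ^ 4)) := by
          have : T ^ (5 : ℝ) = T ^ 5 := by norm_cast
          rw [this]
          ring
      _ ≤ 3 / 100 * (1 / 12) := mul_le_mul_of_nonneg_left k2 (by norm_num)
      _ ≤ 1 / 2 := by norm_num
  have tri : ∀ (X Y Z : ℂ), ‖Y - Z‖ ≤ ‖X - Y‖ + ‖X - Z‖ := by
    intro X Y Z
    have : Y - Z = -(X - Y) + (X - Z) := by ring
    rw [this]
    refine (norm_add_le _ _).trans ?_
    rw [norm_neg]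
  refine (tri (∫ t : ℝ, (wt τ D t : ℂ) * (DP N' (e0 c ε T N) (⟨1 / 2, t⟩ : ℂ) *
      (starRingEnd ℂ) (DP N (d0 c ε T) (⟨1 / 2, t⟩ : ℂ)))) _ _).trans ?_
  have := hc.trans c1
  have := hv.trans c2
  linarith

end Pool.Agent.W192.PP
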