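import Pool.Agent.W192.PP.Up

open Complex Filter Topology Set MeasureTheory

namespace Pool.Agent.W192.PP

open SG (phi hh dl phi_norm)
open SP SP.EvalAux
open Pool.Agent.W192.SI (Adm dd ev_small4' ev_small4)

/-- the product `P conj D` on the critical line -/
noncomputable def pdt (c ε T : ℝ) (N N' : ℕ) (t : ℝ) : ℂ :=
  DP N' (e0 c ε T N) (⟨1 / 2, t⟩ : ℂ) * (starRingEnd ℂ) (DP N (d0 c ε T) (⟨1 / 2, t⟩ : ℂ))

theorem pdt_cont (c ε T : ℝ) (N N' : ℕ) : Continuous (pdt c ε T N N') := by
  unfold pdt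
  exact (DP_half_cont _ _).mul (Complex.continuous_conj.comp (DP_half_cont _ _))

theorem pdt_norm (c ε T : ℝ) (N N' : ℕ) (t : ℝ) : ‖pdt c ε T N N' t‖ =
    ‖DP N' (e0 c ε T N) (⟨1 / 2, t⟩ : ℂ)‖ * ‖DP N (d0 c ε T) (⟨1 / 2, t⟩ : ℂ)‖ := by
  unfold pdt
  rw [norm_mul, RCLike.norm_conj]

theorem phase_norm (c : ℝ) : ‖cexp (-(Real.pi * c : ℝ) * I)‖ = 1 := by
  rw [← Complex.ofReal_neg]
  exact Complex.norm_exp_ofReal_mul_I _

theorem ss_lower (c ε T : ℝ) (N N' : ℕ) (t E : ℝ)
    (h : ‖rho c T (⟨1 / 2, t⟩ : ℂ) - cexp (-(Real.pi * c : ℝ) * I)‖ ≤ E) :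
    (cexp (-(Real.pi * c : ℝ) * I) * pdt c ε T N N' t).im - E * ‖pdt c ε T N N' t‖ ≤
      ss c ε T N N' t := by
  have e : ss c ε T N N' t = (cexp (-(Real.pi * c : ℝ) * I) * pdt c ε T N N' t).im +
      ((rho c T (⟨1 / 2, t⟩ : ℂ) - cexp (-(Real.pi * c : ℝ) * I)) * pdt c ε T N N' t).im := by
    rw [← Complex.add_im]
    unfold ss pdt
    congr 1
    ring
  rw [e]
  have h2 := Complex.abs_im_le_norm
    ((rho c T (⟨1 / 2, t⟩ : ℂ) - cexp (-(Real.pi * c : ℝ) * I)) * pdt c ε T N N' t)
  rw [norm_mul, abs_le] at h2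
  have h3 := mul_le_mul_of_nonneg_right h (norm_nonneg (pdt c ε T N N' t))
  linarith [h2.1]

theorem ss_cont {c ε T : ℝ} {N N' : ℕ} {U1 U2 : ℝ}
    (h : ∀ t ∈ Icc U1 U2, AnalyticAt ℂ (rho c T) (⟨1 / 2, t⟩ : ℂ)) :
    ContinuousOn (ss c ε T N N') (Icc U1 U2) := by
  have h1 : ContinuousOn (fun t : ℝ => rho c T (⟨1 / 2, t⟩ : ℂ)) (Icc U1 U2) := by
    intro t ht
    apply ContinuousAt.continuousWithinAt
    exact ContinuousAt.comp (g := rho c T) (f := fun t : ℝ => (⟨1 / 2, t⟩ : ℂ))
      (h t ht).continuousAt (mk_cont' (1 / 2)).continuousAt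
  have h2 : ContinuousOn (fun t : ℝ => rho c T (⟨1 / 2, t⟩ : ℂ) * pdt c ε T N N' t) (Icc U1 U2) :=
    h1.mul (pdt_cont c ε T N N').continuousOn
  exact Complex.continuous_im.comp_continuousOn h2

/-- lower and upper bounds for the integrals of `f = w s` -/
theorem bounds (c κ C2 : ℝ) (hc : 0 < c) (hc1 : c < 1) (hκ : 0 < κ) (hC2 : 0 < C2) :
    ∃ C3 T0 : ℝ, 0 < C3 ∧ ∀ (x η ε H T W : ℝ) (N N' J : ℕ), T0 ≤ T → 4 / κ ≤ dd H T →
    Dat x η H T W N N' J →
    N ≤ N' → Real.log T ^ 2 * N' ≤ dd H T → κ ≤ (cexp (-(Real.pi * c : ℝ) * I) * be c ε T N).im →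
    ∫ t in W..(W + H), (‖DP N' (e0 c ε T N) (⟨1 / 2, t⟩ : ℂ)‖ *
      ‖DP N (d0 c ε T) (⟨1 / 2, t⟩ : ℂ)‖) ^ 2 ≤ C2 * H →
    ∀ (U1 U2 : ℝ), W ≤ U1 → U1 ≤ W + H / 20 → W + H - H / 20 ≤ U2 → U2 ≤ W + H →
    κ / 2 * dd H T * H ≤
      ∫ t in U1..U2, wW (dd H T) (W + H / 4) (W + 3 * H / 4) t * ss c ε T N N' t ∧
    ∫ t in U1..U2, (wW (dd H T) (W + H / 4) (W + 3 * H / 4) t * ss c ε T N N' t) ^ 2 ≤
      C3 * dd H T ^ 2 * H ∧
    ContinuousOn (ss c ε T N N') (Icc U1 U2) := by
  obtain ⟨Cp, Tp, hCp, hTp, hph⟩ := rho_phase0 c hc hc1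
  obtain ⟨Cr, Tr, hCr, hTr, hrho⟩ := SP.rho_bound c hc hc1
  obtain ⟨Tg, hg⟩ := gauss_main
  have ev1 : ∀ᶠ T : ℝ in atTop, 12 * (Cp * (1 + C2)) / κ ≤ Real.log T :=
    Real.tendsto_log_atTop.eventually_ge_atTop _
  obtain ⟨Te, hTe⟩ := eventually_atTop.mp ev1
  refine ⟨9 * Cr ^ 2 * C2, max (max Tp Tr) (max Tg Te), by positivity, ?_⟩
  intro x η ε H T W N N' J hT hbigD hdat hNN hbig hbe hsec U1 U2 hU1 hU1' hU2 hU2'
  have hTp' : Tp ≤ T := (le_max_left _ _).trans ((le_max_left _ _).trans hT)
  have hTr' : Tr ≤ T := (le_max_right _ _).trans ((le_max_left _ _).trans hT)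
  have hTg' : Tg ≤ T := (le_max_left _ _).trans ((le_max_right _ _).trans hT)
  have hlogbig := hTe T ((le_max_right _ _).trans ((le_max_right _ _).trans hT))
  have hA := hdat.adm
  have hT1' := hdat.T1
  have hT0 : 0 < T := by linarith
  have hH := hA.H_pos
  have hHge := hA.H_ge
  norm_num at hHge
  have hHT := hA.hi
  have hw1 := hdat.w1
  have hw2 := hdat.w2
  have hD := hA.dd_pos
  have hL := hA.log_ge
  set D := dd H T with hDdef
  set w := wW D (W + H / 4) (W + 3 * H / 4) with hw
  have hab : W + H / 4 ≤ W + 3 * H / 4 := by linarith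
  have hU12 : U1 < U2 := by linarith
  have hwc : Continuous w := wW_cont _ _ _
  have hw0 : ∀ t, 0 ≤ w t := fun t => wW_nonneg hab t
  have hw3 : ∀ t, w t ≤ 3 * D := fun t => wW_le hD hab t
  have hpc := pdt_cont c ε T N N'
  have han : ∀ t ∈ Icc U1 U2, AnalyticAt ℂ (rho c T) (⟨1 / 2, t⟩ : ℂ) := fun t ht =>
    (hrho T hTr' _ (by simp only; linarith [ht.1]) (by simp only; linarith [ht.2]) (by
      simp only
      rw [abs_of_pos (by norm_num)]; linarith)).1
  have hsc : ContinuousOn (ss c ε T N N') (Icc U1 U2) := ss_cont han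
  -- second moment on [U1,U2]
  have hsec' : ∫ t in U1..U2, ‖pdt c ε T N N' t‖ ^ 2 ≤ C2 * H := by
    simp only [pdt_norm]
    refine le_trans ?_ hsec
    apply intervalIntegral.integral_mono_interval hU1 hU12.le hU2'
    · exact Eventually.of_forall fun t => by positivity
    · have h1 := DP_half_cont N' (e0 c ε T N)
      have h2 := DP_half_cont N (d0 c ε T)
      exact ((h1.norm.mul h2.norm).pow 2).intervalIntegrable _ _
  refine ⟨?_, ?_, hsc⟩
  · -- lower bound
    set q : ℝ → ℝ := fun t => (cexp (-(Real.pi * c : ℝ) * I) * pdt c ε T N N' t).im with hq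
    have hqc : Continuous q := Complex.continuous_im.comp (continuous_const.mul hpc)
    -- main part
    have hmain : (W + 3 * H / 4 - (W + H / 4)) * (2 * D * κ - 1) ≤ ∫ t in U1..U2, w t * q t := by
      apply swap_lower hab hU12.le q hqc.continuousOn
      intro τ hτ
      have hgm := hg x η c ε H T W N N' J hTg' hdat hNN hbig U1 U2 τ hU1 hU1' hU2 hU2' hτ.1 hτ.2
      have hwt : Continuous (fun t : ℝ => wt τ D t) := by unfold wt; fun_prop
      have hcont : Continuous (fun t : ℝ => (wt τ D t : ℂ) * pdt c ε T N N' t) := by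
        exact (Complex.continuous_ofReal.comp hwt).mul hpc
      have e1 : ∫ t in U1..U2, wt τ D t * q t =
          (cexp (-(Real.pi * c : ℝ) * I) *
            ∫ t in U1..U2, (wt τ D t : ℂ) * pdt c ε T N N' t).im := by
        rw [← intervalIntegral.integral_const_mul, im_int]
        · apply intervalIntegral.integral_congr
          intro t _
          simp only [hq]
          rw [mul_left_comm, Complex.im_ofReal_mul]
        · exact (continuous_const.mul hcont).intervalIntegrable _ _
      rw [e1]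
      set X := ∫ t in U1..U2, (wt τ D t : ℂ) * pdt c ε T N N' t with hX
      set Y := ((D * Real.sqrt (2 * Real.pi) : ℝ) : ℂ) * be c ε T N with hY
      have hXY : ‖X - Y‖ ≤ 1 := hgm
      have h1 : (cexp (-(Real.pi * c : ℝ) * I) * X).im =
          (cexp (-(Real.pi * c : ℝ) * I) * Y).im +
          (cexp (-(Real.pi * c : ℝ) * I) * (X - Y)).im := by
        rw [← Complex.add_im]
        congr 1
        ring
      have h2 := Complex.abs_im_le_norm (cexp (-(Real.pi * c : ℝ) * I) * (X - Y))
      rw [norm_mul, phase_norm, one_mul, abs_le] at h2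
      have h3 : (cexp (-(Real.pi * c : ℝ) * I) * Y).im = D * Real.sqrt (2 * Real.pi) *
          (cexp (-(Real.pi * c : ℝ) * I) * be c ε T N).im := by
        rw [hY, mul_left_comm, Complex.im_ofReal_mul]
      have h4 : 2 ≤ Real.sqrt (2 * Real.pi) := by
        apply Real.le_sqrt_of_sq_le
        have := Real.pi_gt_three
        linarith
      have h5 : 2 * D * κ ≤ D * Real.sqrt (2 * Real.pi) *
          (cexp (-(Real.pi * c : ℝ) * I) * be c ε T N).im := by
        calc 2 * D * κ ≤ D * Real.sqrt (2 * Real.pi) * κ := by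
              apply mul_le_mul_of_nonneg_right _ hκ.le
              nlinarith
          _ ≤ _ := mul_le_mul_of_nonneg_left hbe (by positivity)
      rw [h1, h3]
      linarith [h2.1]
    -- error part
    have herr : ∫ t in U1..U2, w t * ‖pdt c ε T N N' t‖ ≤ 3 * D * ((1 + C2) * H) := by
      calc ∫ t in U1..U2, w t * ‖pdt c ε T N N' t‖
          ≤ ∫ t in U1..U2, 3 * D * ((1 + ‖pdt c ε T N N' t‖ ^ 2)) := by
            apply intervalIntegral.integral_mono_on hU12.le
            · exact (hwc.mul hpc.norm).intervalIntegrable _ _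
            · exact (continuous_const.mul (continuous_const.add (hpc.norm.pow 2))).intervalIntegrable _ _
            · intro t _
              have h1 := hw3 t
              have h2 := norm_nonneg (pdt c ε T N N' t)
              have h3 : ‖pdt c ε T N N' t‖ ≤ 1 + ‖pdt c ε T N N' t‖ ^ 2 := by nlinarith
              exact mul_le_mul h1 h3 h2 (by positivity)
        _ = 3 * D * ((U2 - U1) + ∫ t in U1..U2, ‖pdt c ε T N N' t‖ ^ 2) := by
            rw [intervalIntegral.integral_const_mul, intervalIntegral.integral_add]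
            · simp
            · simp
            · exact (hpc.norm.pow 2).intervalIntegrable _ _
        _ ≤ 3 * D * ((1 + C2) * H) := by
            apply mul_le_mul_of_nonneg_left _ (by positivity)
            linarith
    have hlow : (∫ t in U1..U2, w t * q t) - Cp / Real.log T *
        (∫ t in U1..U2, w t * ‖pdt c ε T N N' t‖) ≤ ∫ t in U1..U2, w t * ss c ε T N N' t := by
      rw [← intervalIntegral.integral_const_mul, ← intervalIntegral.integral_sub]
      · apply intervalIntegral.integral_mono_on hU12.le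
        · exact ((hwc.mul hqc).sub (continuous_const.mul (hwc.mul hpc.norm))).intervalIntegrable _ _
        · apply ContinuousOn.intervalIntegrable
          rw [uIcc_of_le hU12.le]
          exact hwc.continuousOn.mul hsc
        · intro t ht
          have h1 := ss_lower c ε T N N' t _ (hph T hTp' t (by linarith [ht.1]) (by linarith [ht.2]))
          have h2 := mul_le_mul_of_nonneg_left h1 (hw0 t)
          calc w t * q t - Cp / Real.log T * (w t * ‖pdt c ε T N N' t‖) =
                w t * ((cexp (-(Real.pi * c : ℝ) * I) * pdt c ε T N N' t).im -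
                  Cp / Real.log T * ‖pdt c ε T N N' t‖) := by
                  simp only [hq]
                  ring
            _ ≤ _ := h2
      · exact (hwc.mul hqc).intervalIntegrable _ _
      · exact (continuous_const.mul (hwc.mul hpc.norm)).intervalIntegrable _ _
    refine le_trans ?_ hlow
    have h6 : Cp / Real.log T * (∫ t in U1..U2, w t * ‖pdt c ε T N N' t‖) ≤ κ / 4 * D * H := by
      have hCpL : 0 ≤ Cp / Real.log T := by positivity
      refine (mul_le_mul_of_nonneg_left herr hCpL).trans ?_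
      have hL0 : 0 < Real.log T := by linarith
      have e : Cp / Real.log T * (3 * D * ((1 + C2) * H)) =
          (3 * (Cp * (1 + C2)) / Real.log T) * (D * H) := by ring
      rw [e]
      have h7 : 3 * (Cp * (1 + C2)) / Real.log T ≤ κ / 4 := by
        rw [div_le_div_iff₀ hL0 (by norm_num)]
        rw [div_le_iff₀ hκ] at hlogbig
        linarith
      calc 3 * (Cp * (1 + C2)) / Real.log T * (D * H) ≤ κ / 4 * (D * H) :=
            mul_le_mul_of_nonneg_right h7 (by positivity)
        _ = κ / 4 * D * H := by ring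
    have h8 : 1 ≤ κ / 4 * D := by
      rw [div_le_iff₀ hκ] at hbigD
      linarith
    nlinarith
  · -- second moment
    calc ∫ t in U1..U2, (w t * ss c ε T N N' t) ^ 2
        ≤ ∫ t in U1..U2, 9 * D ^ 2 * Cr ^ 2 * ‖pdt c ε T N N' t‖ ^ 2 := by
          apply intervalIntegral.integral_mono_on hU12.le
          · apply ContinuousOn.intervalIntegrable
            rw [uIcc_of_le hU12.le]
            exact (hwc.continuousOn.mul hsc).pow 2
          · exact (continuous_const.mul (hpc.norm.pow 2)).intervalIntegrable _ _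
          · intro t ht
            have h1 : |ss c ε T N N' t| ≤ Cr * ‖pdt c ε T N N' t‖ := by
              unfold ss
              refine (Complex.abs_im_le_norm _).trans ?_
              rw [norm_mul]
              apply mul_le_mul_of_nonneg_right _ (norm_nonneg _)
              exact (hrho T hTr' _ (by simp only; linarith [ht.1]) (by simp only; linarith [ht.2]) (by
                simp only
                rw [abs_of_pos (by norm_num)]; linarith)).2
            rw [mul_pow, ← sq_abs (ss c ε T N N' t)]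
            have h2 : w t ^ 2 ≤ (3 * D) ^ 2 := pow_le_pow_left₀ (hw0 t) (hw3 t) 2
            have h3 : |ss c ε T N N' t| ^ 2 ≤ (Cr * ‖pdt c ε T N N' t‖) ^ 2 :=
              pow_le_pow_left₀ (abs_nonneg _) h1 2
            calc w t ^ 2 * |ss c ε T N N' t| ^ 2 ≤ (3 * D) ^ 2 * (Cr * ‖pdt c ε T N N' t‖) ^ 2 :=
                  mul_le_mul h2 h3 (by positivity) (by positivity)
              _ = _ := by ring
      _ = 9 * D ^ 2 * Cr ^ 2 * ∫ t in U1..U2, ‖pdt c ε T N N' t‖ ^ 2 := by
          rw [intervalIntegral.integral_const_mul]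
      _ ≤ 9 * D ^ 2 * Cr ^ 2 * (C2 * H) := mul_le_mul_of_nonneg_left hsec' (by positivity)
      _ = 9 * Cr ^ 2 * C2 * D ^ 2 * H := by ring

end Pool.Agent.W192.PP
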