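import Pool.Agent.H382P.Mom
import Pool.Agent.W192.PP.G

open Complex Filter Topology Set MeasureTheory

namespace Pool.Agent.W192.PP

open SG (phi hh dl)
open SG.MVaux (cpow_nat)
open SP SP.EvalAux SP.MomAux

theorem geo_sum (r : ℝ) (hr0 : 0 ≤ r) (hr1 : r < 1) (m X : ℕ) :
    ∑ n ∈ Finset.Icc 1 X, r ^ ((n - m) + (m - n)) ≤ 2 / (1 - r) := by
  classical
  have hs : ∀ K : ℕ, ∑ k ∈ Finset.range K, r ^ k ≤ 1 / (1 - r) := by
    intro K
    have h := (summable_geometric_of_lt_one hr0 hr1).sum_le_tsum (Finset.range K)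
      (fun i _ => by positivity)
    rw [tsum_geometric_of_lt_one hr0 hr1] at h
    rwa [one_div]
  rw [← Finset.sum_filter_add_sum_filter_not (Finset.Icc 1 X) (fun n => m ≤ n)]
  have h1 : ∑ n ∈ (Finset.Icc 1 X).filter (fun n => m ≤ n), r ^ ((n - m) + (m - n)) ≤
      1 / (1 - r) := by
    refine le_trans (le_of_eq ?_) (le_trans (Finset.sum_le_sum_of_subset_of_nonneg
      (s := ((Finset.Icc 1 X).filter (fun n => m ≤ n)).image (fun n => n - m))
      (t := Finset.range (X + 1)) ?_ (fun i _ _ => by positivity)) (hs (X + 1)))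
    · rw [Finset.sum_image]
      · refine Finset.sum_congr rfl fun n hn => ?_
        have := (Finset.mem_filter.mp hn).2
        congr 1
        omega
      · intro a ha b hb hab
        have h1 := (Finset.mem_filter.mp ha).2
        have h2 := (Finset.mem_filter.mp hb).2
        simp only at hab
        omega
    · intro k hk
      rw [Finset.mem_image] at hk
      obtain ⟨n, hn, rfl⟩ := hk
      have := (Finset.mem_Icc.mp (Finset.mem_filter.mp hn).1).2
      rw [Finset.mem_range]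
      omega
  have h2 : ∑ n ∈ (Finset.Icc 1 X).filter (fun n => ¬ m ≤ n), r ^ ((n - m) + (m - n)) ≤
      1 / (1 - r) := by
    refine le_trans (le_of_eq ?_) (le_trans (Finset.sum_le_sum_of_subset_of_nonneg
      (s := ((Finset.Icc 1 X).filter (fun n => ¬ m ≤ n)).image (fun n => m - n))
      (t := Finset.range (m + 1)) ?_ (fun i _ _ => by positivity)) (hs (m + 1)))
    · rw [Finset.sum_image]
      · refine Finset.sum_congr rfl fun n hn => ?_
        have := (Finset.mem_filter.mp hn).2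
        congr 1
        omega
      · intro a ha b hb hab
        have h1 := (Finset.mem_filter.mp ha).2
        have h2 := (Finset.mem_filter.mp hb).2
        simp only at hab
        omega
    · intro k hk
      rw [Finset.mem_image] at hk
      obtain ⟨n, hn, rfl⟩ := hk
      rw [Finset.mem_range]
      omega
  have e : 2 / (1 - r) = 1 / (1 - r) + 1 / (1 - r) := by ring
  rw [e]
  exact add_le_add h1 h2

/-- the Gaussian of the logarithmic distance -/
theorem near_le {X m n : ℕ} {H : ℝ} (hH : 0 < H) (hX : (X : ℝ) ≤ H) (hm : 1 ≤ m) (hmX : m ≤ X)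
    (hn : 1 ≤ n) (hnX : n ≤ X) :
    Real.exp (-(H ^ 2 * (Real.log n - Real.log m) ^ 2 / 2)) ≤
      (Real.exp (-(1 / 2))) ^ ((n - m) + (m - n)) := by
  have key : ∀ a b : ℕ, 1 ≤ a → a < b → b ≤ X →
      ((b - a : ℕ) : ℝ) ≤ H * (Real.log b - Real.log a) := by
    intro a b ha hab hb
    have ha0 : (0 : ℝ) < a := by exact_mod_cast ha
    have hb0 : (0 : ℝ) < b := by exact_mod_cast (by omega : 0 < b)
    have h1 := Real.one_sub_inv_le_log_of_pos (div_pos hb0 ha0)
    rw [Real.log_div hb0.ne' ha0.ne', inv_div] at h1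
    have hbH : (b : ℝ) ≤ H := le_trans (by exact_mod_cast hb) hX
    have h2 : ((b - a : ℕ) : ℝ) = b * (1 - a / b) := by
      rw [Nat.cast_sub hab.le]
      field_simp
    rw [h2]
    have h3 : 0 ≤ 1 - (a : ℝ) / b := by
      rw [sub_nonneg, div_le_one hb0]
      exact_mod_cast hab.le
    calc (b : ℝ) * (1 - a / b) ≤ H * (1 - a / b) := mul_le_mul_of_nonneg_right hbH h3
      _ ≤ _ := mul_le_mul_of_nonneg_left h1 hH.le
  rw [← Real.exp_nat_mul]
  apply Real.exp_le_exp.mpr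
  have hsq : (((n - m) + (m - n) : ℕ) : ℝ) ≤ H ^ 2 * (Real.log n - Real.log m) ^ 2 := by
    rcases lt_trichotomy m n with h | h | h
    · have h1 := key m n hm h hnX
      have e : ((n - m) + (m - n) : ℕ) = n - m := by omega
      rw [e]
      have h2 : (1 : ℝ) ≤ ((n - m : ℕ) : ℝ) := by exact_mod_cast (by omega : 1 ≤ n - m)
      nlinarith
    · subst h
      simp
    · have h1 := key n m hn h hmX
      have e : ((n - m) + (m - n) : ℕ) = m - n := by omega
      rw [e]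
      have h2 : (1 : ℝ) ≤ ((m - n : ℕ) : ℝ) := by exact_mod_cast (by omega : 1 ≤ m - n)
      nlinarith
  have : (((n - m) + (m - n) : ℕ) : ℝ) * -(1 / 2) = -((((n - m) + (m - n) : ℕ) : ℝ) / 2) := by ring
  rw [this]
  linarith

/-- on the critical line -/
theorem DP_half (X : ℕ) (B : ℕ → ℂ) (t : ℝ) : DP X B (⟨1 / 2, t⟩ : ℂ) =
    ∑ n ∈ Finset.Icc 1 X, (B n * ((Real.exp (-(1 / 2) * Real.log n) : ℝ) : ℂ)) *
      cexp (-(I * ((Real.log n : ℝ) : ℂ) * t)) := by
  unfold DP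
  refine Finset.sum_congr rfl fun n hn => ?_
  rw [cpow_nat n (Finset.mem_Icc.mp hn).1, mul_assoc, Complex.ofReal_exp, ← Complex.exp_add]
  congr 2
  have : (⟨1 / 2, t⟩ : ℂ) = 1 / 2 + t * I := by
    rw [Complex.mk_eq_add_mul_I]
    push_cast
    ring
  rw [this]
  push_cast
  ring

theorem DP_half_cont (X : ℕ) (B : ℕ → ℂ) : Continuous fun t : ℝ => DP X B (⟨1 / 2, t⟩ : ℂ) := by
  simp_rw [DP_half]
  fun_prop

/-- mean value theorem on an interval -/
theorem mv_int (B : ℕ → ℂ) (X : ℕ) (H W : ℝ) (hH : 1 ≤ H) (hX : (X : ℝ) ≤ H) :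
    ∫ t in W..(W + H), ‖DP X B (⟨1 / 2, t⟩ : ℂ)‖ ^ 2 ≤
      60 * H * ∑ n ∈ Finset.Icc 1 X, ‖B n‖ ^ 2 / n := by
  have hH0 : 0 < H := by linarith
  set b : ℕ → ℂ := fun n => B n * ((Real.exp (-(1 / 2) * Real.log n) : ℝ) : ℂ) with hb
  obtain ⟨m1, m2⟩ := mv H (W + H / 2) hH0 (Finset.Icc 1 X) b (fun n => Real.log n)
  have hrew : ∀ t : ℝ, ‖∑ n ∈ Finset.Icc 1 X, b n * cexp (-(I * ((Real.log n : ℝ) : ℂ) * t))‖ =
      ‖DP X B (⟨1 / 2, t⟩ : ℂ)‖ := by
    intro t
    rw [DP_half]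
  simp only [hrew] at m1 m2
  have hbn : ∀ n ∈ Finset.Icc 1 X, ‖b n‖ ^ 2 = ‖B n‖ ^ 2 / n := by
    intro n hn
    have hn0 : (0 : ℝ) < n := by exact_mod_cast (Finset.mem_Icc.mp hn).1
    simp only [hb]
    rw [norm_mul, Complex.norm_real, Real.norm_of_nonneg (Real.exp_pos _).le, mul_pow,
      ← Real.exp_nat_mul]
    have : ((2 : ℕ) : ℝ) * (-(1 / 2) * Real.log n) = -Real.log n := by push_cast; ring
    rw [this, Real.exp_neg, Real.exp_log hn0]
    rfl
  -- bilinear form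
  have hbil : ∑ f ∈ Finset.Icc 1 X, ∑ g ∈ Finset.Icc 1 X, ‖b f‖ * ‖b g‖ *
        Real.exp (-(H ^ 2 * (Real.log g - Real.log f) ^ 2 / 2)) ≤
      6 * ∑ n ∈ Finset.Icc 1 X, ‖B n‖ ^ 2 / n := by
    set r := Real.exp (-(1 / 2)) with hr
    have hr0 : 0 < r := Real.exp_pos _
    have hr1 : r ≤ 2 / 3 := by
      rw [hr, Real.exp_neg, inv_le_comm₀ (Real.exp_pos _) (by norm_num)]
      have := Real.add_one_le_exp (1 / 2 : ℝ)
      norm_num at this ⊢
      linarith
    have h2r : 2 / (1 - r) ≤ 6 := by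
      rw [div_le_iff₀ (by linarith)]
      linarith
    calc ∑ f ∈ Finset.Icc 1 X, ∑ g ∈ Finset.Icc 1 X, ‖b f‖ * ‖b g‖ *
          Real.exp (-(H ^ 2 * (Real.log g - Real.log f) ^ 2 / 2))
        ≤ ∑ f ∈ Finset.Icc 1 X, ∑ g ∈ Finset.Icc 1 X, (‖b f‖ ^ 2 / 2 + ‖b g‖ ^ 2 / 2) *
          r ^ ((g - f) + (f - g)) := by
          refine Finset.sum_le_sum fun f hf => Finset.sum_le_sum fun g hg => ?_
          rw [Finset.mem_Icc] at hf hg
          apply mul_le_mul _ (near_le hH0 hX hf.1 hf.2 hg.1 hg.2) (Real.exp_pos _).le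
            (by positivity)
          nlinarith [sq_nonneg (‖b f‖ - ‖b g‖)]
      _ = ∑ f ∈ Finset.Icc 1 X, ∑ g ∈ Finset.Icc 1 X, ‖b f‖ ^ 2 / 2 * r ^ ((g - f) + (f - g)) +
          ∑ f ∈ Finset.Icc 1 X, ∑ g ∈ Finset.Icc 1 X, ‖b f‖ ^ 2 / 2 * r ^ ((g - f) + (f - g)) := by
          have hA2 : ∑ f ∈ Finset.Icc 1 X, ∑ g ∈ Finset.Icc 1 X,
              ‖b g‖ ^ 2 / 2 * r ^ ((g - f) + (f - g)) =
              ∑ f ∈ Finset.Icc 1 X, ∑ g ∈ Finset.Icc 1 X,
              ‖b f‖ ^ 2 / 2 * r ^ ((g - f) + (f - g)) := by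
            rw [Finset.sum_comm]
            refine Finset.sum_congr rfl fun f _ => Finset.sum_congr rfl fun g _ => ?_
            rw [add_comm (f - g) (g - f)]
          conv_rhs => rw [← hA2]
          conv_rhs => enter [1]; rw [hA2]
          rw [← Finset.sum_add_distrib]
          refine Finset.sum_congr rfl fun f _ => ?_
          rw [← Finset.sum_add_distrib]
          refine Finset.sum_congr rfl fun g _ => ?_
          rw [add_mul]
      _ ≤ ∑ f ∈ Finset.Icc 1 X, ‖b f‖ ^ 2 / 2 * 6 + ∑ f ∈ Finset.Icc 1 X, ‖b f‖ ^ 2 / 2 * 6 := by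
          apply add_le_add
          · refine Finset.sum_le_sum fun f _ => ?_
            rw [← Finset.mul_sum]
            apply mul_le_mul_of_nonneg_left _ (by positivity)
            exact (geo_sum r hr0.le (by linarith) f X).trans h2r
          · refine Finset.sum_le_sum fun f _ => ?_
            rw [← Finset.mul_sum]
            apply mul_le_mul_of_nonneg_left _ (by positivity)
            exact (geo_sum r hr0.le (by linarith) f X).trans h2r
      _ = 6 * ∑ n ∈ Finset.Icc 1 X, ‖B n‖ ^ 2 / n := by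
          rw [← Finset.sum_add_distrib, Finset.mul_sum]
          refine Finset.sum_congr rfl fun n hn => ?_
          rw [← hbn n hn]
          ring
  have hS0 : 0 ≤ ∑ n ∈ Finset.Icc 1 X, ‖B n‖ ^ 2 / n :=
    Finset.sum_nonneg fun n _ => by positivity
  -- compare with the Gaussian weight
  have hcont : Continuous fun t : ℝ => ‖DP X B (⟨1 / 2, t⟩ : ℂ)‖ ^ 2 := by
    have := DP_half_cont X B
    fun_prop
  have hW : ∀ t ∈ Set.Icc W (W + H), ‖DP X B (⟨1 / 2, t⟩ : ℂ)‖ ^ 2 ≤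
      2 * (wt (W + H / 2) H t * ‖DP X B (⟨1 / 2, t⟩ : ℂ)‖ ^ 2) := by
    intro t ht
    have h1 : 1 / 2 ≤ wt (W + H / 2) H t := by
      unfold wt
      have h2 : -(1 / 8 : ℝ) ≤ -(t - (W + H / 2)) ^ 2 / (2 * H ^ 2) := by
        rw [neg_div, neg_le_neg_iff, div_le_iff₀ (by positivity)]
        nlinarith [ht.1, ht.2]
      have h3 := Real.add_one_le_exp (-(t - (W + H / 2)) ^ 2 / (2 * H ^ 2))
      linarith
    have h4 : 0 ≤ ‖DP X B (⟨1 / 2, t⟩ : ℂ)‖ ^ 2 := by positivity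
    nlinarith
  calc ∫ t in W..(W + H), ‖DP X B (⟨1 / 2, t⟩ : ℂ)‖ ^ 2
      ≤ ∫ t in W..(W + H), 2 * (wt (W + H / 2) H t * ‖DP X B (⟨1 / 2, t⟩ : ℂ)‖ ^ 2) := by
        apply intervalIntegral.integral_mono_on (by linarith)
        · exact hcont.intervalIntegrable _ _
        · exact (m1.const_mul 2).intervalIntegrable
        · exact hW
    _ = 2 * ∫ t in W..(W + H), wt (W + H / 2) H t * ‖DP X B (⟨1 / 2, t⟩ : ℂ)‖ ^ 2 := by
        rw [intervalIntegral.integral_const_mul]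
    _ ≤ 2 * ∫ t : ℝ, wt (W + H / 2) H t * ‖DP X B (⟨1 / 2, t⟩ : ℂ)‖ ^ 2 := by
        apply mul_le_mul_of_nonneg_left _ (by norm_num)
        rw [intervalIntegral.integral_of_le (by linarith)]
        apply setIntegral_le_integral m1
        exact Eventually.of_forall fun t => mul_nonneg (Real.exp_pos _).le (by positivity)
    _ ≤ 2 * (H * Real.sqrt (2 * Real.pi) * (6 * ∑ n ∈ Finset.Icc 1 X, ‖B n‖ ^ 2 / n)) := by
        apply mul_le_mul_of_nonneg_left _ (by norm_num)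
        refine m2.trans ?_
        exact mul_le_mul_of_nonneg_left hbil (by positivity)
    _ ≤ 60 * H * ∑ n ∈ Finset.Icc 1 X, ‖B n‖ ^ 2 / n := by
        have h5 : Real.sqrt (2 * Real.pi) ≤ 3 := by
          rw [Real.sqrt_le_left (by norm_num)]
          have := Real.pi_lt_four
          linarith
        have h6 : 0 ≤ H * ∑ n ∈ Finset.Icc 1 X, ‖B n‖ ^ 2 / n := by positivity
        nlinarith

/-- the product polynomial -/
theorem prod_DP (c ε T : ℝ) (N N' : ℕ) (s : ℂ) :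
    DP N' (e0 c ε T N) s * DP N (d0 c ε T) s = DP (N * N') (b0 c ε T N N') s := by
  classical
  unfold DP b0
  rw [Finset.sum_mul_sum, ← Finset.sum_product',
    ← Finset.sum_fiberwise_of_maps_to (g := fun p : ℕ × ℕ => p.1 * p.2)
      (t := Finset.Icc 1 (N * N'))]
  · refine Finset.sum_congr rfl fun n hn => ?_
    rw [Finset.mem_Icc] at hn
    rw [Finset.sum_mul]
    apply Finset.sum_congr
    · ext ⟨a, b⟩
      simp only [Finset.mem_filter, Finset.mem_product, Finset.mem_Icc, Nat.mem_divisorsAntidiagonal]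
      constructor
      · rintro ⟨⟨⟨h1, h2⟩, h3, h4⟩, h5⟩
        exact ⟨⟨h5, by omega⟩, h2, h4⟩
      · rintro ⟨⟨h1, h2⟩, h3, h4⟩
        have ha : a ≠ 0 := by rintro rfl; simp at h1; omega
        have hb : b ≠ 0 := by rintro rfl; simp at h1; omega
        exact ⟨⟨⟨by omega, h3⟩, by omega, h4⟩, h1⟩
    · rintro ⟨a, b⟩ hx
      simp only [Finset.mem_filter, Nat.mem_divisorsAntidiagonal] at hx
      rw [← hx.1.1]
      push_cast
      rw [Complex.natCast_mul_natCast_cpow]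
      ring
  · rintro ⟨a, b⟩ hx
    simp only [Finset.mem_product, Finset.mem_Icc] at hx ⊢
    refine ⟨Nat.mul_pos (by omega) (by omega), ?_⟩
    rw [mul_comm N N']
    exact Nat.mul_le_mul hx.1.2 hx.2.2

/-- second moment of the product -/
theorem second (hcoef : S_coef) (c ε : ℝ) (hc : 0 < c) (hc1 : c < 1) (hε : 0 < ε) (hε1 : ε < 1) :
    ∃ C T0 : ℝ, 0 < C ∧ ∀ T : ℝ, T0 ≤ T → ∀ (H W : ℝ) (N N' : ℕ), 1 ≤ H → H ≤ T →
    (N : ℝ) * N' ≤ H →
    ∫ t in W..(W + H), (‖DP N' (e0 c ε T N) (⟨1 / 2, t⟩ : ℂ)‖ *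
      ‖DP N (d0 c ε T) (⟨1 / 2, t⟩ : ℂ)‖) ^ 2 ≤ C * H := by
  obtain ⟨C, T0, hC, h⟩ := hcoef c ε hc hc1 hε hε1
  refine ⟨60 * C, T0, by positivity, fun T hT H W N N' hH hHT hNN => ?_⟩
  have h1 := mv_int (b0 c ε T N N') (N * N') H W hH (by push_cast; exact hNN)
  have h2 := h T hT N N' (hNN.trans hHT)
  have e : ∀ t : ℝ, (‖DP N' (e0 c ε T N) (⟨1 / 2, t⟩ : ℂ)‖ *
      ‖DP N (d0 c ε T) (⟨1 / 2, t⟩ : ℂ)‖) ^ 2 = ‖DP (N * N') (b0 c ε T N N') (⟨1 / 2, t⟩ : ℂ)‖ ^ 2 := by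
    intro t
    rw [← norm_mul, prod_DP]
  simp only [e]
  refine h1.trans ?_
  calc 60 * H * ∑ n ∈ Finset.Icc 1 (N * N'), ‖b0 c ε T N N' n‖ ^ 2 / n ≤ 60 * H * C :=
        mul_le_mul_of_nonneg_left h2 (by linarith)
    _ = 60 * C * H := by ring

end Pool.Agent.W192.PP
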