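import Pool.Agent.W192.PP.Fin2

open Complex Filter Topology Set MeasureTheory

namespace Pool.Agent.W192.PP

open SG (ord NZ zmult ZS ZS_finite NZ_eq ord_le_iff ord_mono le_NZ_ord jump_one zmult_pos)

/-- nontrivial zeros -/
def ZZ0 : Set ℂ := {s : ℂ | riemannZeta s = 0 ∧ 0 < s.re ∧ s.re < 1}

/-- zeros with ordinate in `[A, B]` -/
def Zab (A B : ℝ) : Set ℂ := {s : ℂ | s ∈ ZZ0 ∧ A ≤ s.im ∧ s.im ≤ B}

theorem Zab_finite (A B : ℝ) : (Zab A B).Finite := by
  have hcomp : IsCompact (Icc (0 : ℝ) 1 ×ℂ Icc A B) := isCompact_Icc.reProdIm isCompact_Icc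
  refine hcomp.inter_riemannZetaZeros_finite.subset ?_
  rintro s ⟨⟨h0, h1, h2⟩, h3, h4⟩
  exact ⟨⟨⟨h1.le, h2.le⟩, ⟨h3, h4⟩⟩, h0⟩

/-- pairs of zeros with ordinates in `[A, B]` and difference in `(0, d]` -/
def Pab (A B d : ℝ) : Set (ℂ × ℂ) := {p : ℂ × ℂ | p.1 ∈ ZZ0 ∧ p.2 ∈ ZZ0 ∧ A ≤ p.2.im ∧
  p.1.im ≤ B ∧ 0 < p.1.im - p.2.im ∧ p.1.im - p.2.im ≤ d}

theorem Pab_finite (A B d : ℝ) : (Pab A B d).Finite := by
  refine ((Zab_finite A B).prod (Zab_finite A B)).subset ?_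
  rintro ⟨s, s'⟩ ⟨h1, h2, h3, h4, h5, h6⟩
  simp only at h3 h4 h5 h6
  exact ⟨⟨h1, by linarith, h4⟩, ⟨h2, h3, by linarith⟩⟩

/-- there is a zero at every ordinate -/
theorem exists_zero_at {n : ℕ} (hn : 1 ≤ n) : ∃ s ∈ ZZ0, s.im = ord n := by
  by_contra hcon
  push Not at hcon
  have hpos := SG.ord_pos hn
  -- NZ is constant just below ord n
  have hfin := ZS_finite (ord n)
  have key : ∃ t, t < ord n ∧ NZ t = NZ (ord n) := by
    classical
    by_cases hne : hfin.toFinset.Nonempty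
    · obtain ⟨s0, hs0, hmax⟩ := hfin.toFinset.exists_max_image (fun s => s.im) hne
      rw [Set.Finite.mem_toFinset] at hs0
      refine ⟨s0.im, lt_of_le_of_ne hs0.2.2.2.2 (hcon s0 ⟨hs0.1, hs0.2.1, hs0.2.2.1⟩), ?_⟩
      rw [NZ_eq, NZ_eq]
      apply Finset.sum_congr _ (fun _ _ => rfl)
      ext s
      rw [Set.Finite.mem_toFinset, Set.Finite.mem_toFinset]
      constructor
      · rintro ⟨h1, h2, h3, h4, h5⟩
        exact ⟨h1, h2, h3, h4, h5.trans hs0.2.2.2.2⟩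
      · intro h
        refine ⟨h.1, h.2.1, h.2.2.1, h.2.2.2.1, ?_⟩
        exact hmax s (by rwa [Set.Finite.mem_toFinset])
    · rw [Finset.not_nonempty_iff_eq_empty] at hne
      refine ⟨0, hpos, ?_⟩
      rw [SG.NZ_nonpos le_rfl, NZ_eq, hne, Finset.sum_empty]
  obtain ⟨t, ht, he⟩ := key
  have h1 := le_NZ_ord hn
  rw [← he] at h1
  have := (ord_le_iff hn t).mpr h1
  linarith

/-- small positive gaps are counted by pairs -/
theorem pos_le_pairs (A B d : ℝ) :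
    {n : ℕ | 1 ≤ n ∧ A ≤ ord n ∧ ord (n + 1) ≤ B ∧ ord (n + 1) - ord n ≤ d ∧
      ord n < ord (n + 1)}.ncard ≤ ∑ᶠ p ∈ Pab A B d, zmult p.1 * zmult p.2 := by
  classical
  set G : Set ℕ := {n : ℕ | 1 ≤ n ∧ A ≤ ord n ∧ ord (n + 1) ≤ B ∧ ord (n + 1) - ord n ≤ d ∧
      ord n < ord (n + 1)} with hG
  have hGfin : G.Finite := by
    refine (gaps_finite (fun _ => True) B).subset ?_
    rintro n ⟨h1, _, h3, _⟩
    exact ⟨h1, trivial, h3⟩
  have hz : ∀ n : ℕ, ∃ s : ℂ, 1 ≤ n → s ∈ ZZ0 ∧ s.im = ord n := by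
    intro n
    by_cases hn : 1 ≤ n
    · obtain ⟨s, h1, h2⟩ := exists_zero_at hn
      exact ⟨s, fun _ => ⟨h1, h2⟩⟩
    · exact ⟨0, fun h => absurd h hn⟩
  choose z hz using hz
  have hfin := Pab_finite A B d
  rw [finsum_mem_eq_finite_toFinset_sum _ hfin]
  have hmaps : ∀ n ∈ hGfin.toFinset, (z (n + 1), z n) ∈ hfin.toFinset := by
    intro n hn
    rw [Set.Finite.mem_toFinset] at hn ⊢
    obtain ⟨h1, h2, h3, h4, h5⟩ := hn
    obtain ⟨a1, a2⟩ := hz (n + 1) (by omega)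
    obtain ⟨b1, b2⟩ := hz n h1
    refine ⟨a1, b1, ?_, ?_, ?_, ?_⟩ <;> simp only [a2, b2] <;> linarith
  have hinj : Set.InjOn (fun n => (z (n + 1), z n)) (hGfin.toFinset : Set ℕ) := by
    intro n hn m hm hnm
    rw [Set.Finite.coe_toFinset] at hn hm
    have e1 : z (n + 1) = z (m + 1) := congrArg Prod.fst hnm
    have e2 : z n = z m := congrArg Prod.snd hnm
    have f1 : ord (n + 1) = ord (m + 1) := by
      rw [← (hz (n + 1) (by omega)).2, ← (hz (m + 1) (by omega)).2, e1]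
    have f2 : ord n = ord m := by
      rw [← (hz n hn.1).2, ← (hz m hm.1).2, e2]
    obtain ⟨n1, -, -, -, n5⟩ := hn
    obtain ⟨m1, -, -, -, m5⟩ := hm
    rcases lt_trichotomy n m with h | h | h
    · have := ord_mono (by omega : 1 ≤ n + 1) (by omega : n + 1 ≤ m)
      linarith
    · exact h
    · have := ord_mono (by omega : 1 ≤ m + 1) (by omega : m + 1 ≤ n)
      linarith
  rw [Set.ncard_eq_toFinset_card _ hGfin, ← Finset.card_image_of_injOn hinj, Finset.card_eq_sum_ones]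
  refine (Finset.sum_le_sum (fun p hp => ?_)).trans
    (Finset.sum_le_sum_of_subset (f := fun p : ℂ × ℂ => zmult p.1 * zmult p.2) ?_)
  · rw [Finset.mem_image] at hp
    obtain ⟨n, hn, rfl⟩ := hp
    rw [Set.Finite.mem_toFinset] at hn
    obtain ⟨a1, a2⟩ := hz (n + 1) (by omega)
    obtain ⟨b1, b2⟩ := hz n hn.1
    have p1 := SG.ord_pos (by omega : 1 ≤ n + 1)
    have p2 := SG.ord_pos hn.1
    have h1 := zmult_pos (by rw [a2]; exact p1) a1.1
    have h2 := zmult_pos (by rw [b2]; exact p2) b1.1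
    show 1 ≤ zmult (z (n + 1)) * zmult (z n)
    exact Nat.mul_pos h1 h2
  · intro p hp
    rw [Finset.mem_image] at hp
    obtain ⟨n, hn, rfl⟩ := hp
    exact hmaps n hn

/-- zeros that are multiple or off the critical line -/
def Bab (A B : ℝ) : Set ℂ :=
  {s : ℂ | s ∈ ZZ0 ∧ A ≤ s.im ∧ s.im ≤ B ∧ (s.re ≠ 1 / 2 ∨ deriv riemannZeta s = 0)}

theorem Bab_finite (A B : ℝ) : (Bab A B).Finite :=
  (Zab_finite A B).subset fun _ hs => ⟨hs.1, hs.2.1, hs.2.2.1⟩

/-- zero gaps are counted by bad zeros -/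
theorem zero_le_bad (A B : ℝ) (hA : 0 < A) :
    {n : ℕ | 1 ≤ n ∧ A ≤ ord n ∧ ord (n + 1) ≤ B ∧ ord (n + 1) = ord n}.ncard ≤
      ∑ᶠ s ∈ Bab A B, zmult s := by
  classical
  set G : Set ℕ := {n : ℕ | 1 ≤ n ∧ A ≤ ord n ∧ ord (n + 1) ≤ B ∧ ord (n + 1) = ord n} with hG
  have hGfin : G.Finite := by
    refine (gaps_finite (fun _ => True) B).subset ?_
    rintro n ⟨h1, _, h3, _⟩
    exact ⟨h1, trivial, h3⟩
  rw [finsum_mem_eq_finite_toFinset_sum _ (Bab_finite A B)]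
  set Zf := (Zab_finite A B).toFinset with hZf
  set Fz := (ZS_finite A).toFinset.filter (fun s => s.im < A) with hFz
  -- the indices
  set lo := ∑ s ∈ Fz, zmult s with hlo
  have hmemZ : ∀ s, s ∈ Zf ↔ s ∈ ZZ0 ∧ A ≤ s.im ∧ s.im ≤ B := by
    intro s
    rw [hZf, Set.Finite.mem_toFinset]
    rfl
  have hmemF : ∀ s, s ∈ Fz ↔ s ∈ ZZ0 ∧ 0 < s.im ∧ s.im < A := by
    intro s
    rw [hFz, Finset.mem_filter, Set.Finite.mem_toFinset]
    constructor
    · rintro ⟨⟨h1, h2, h3, h4, h5⟩, h6⟩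
      exact ⟨⟨h1, h2, h3⟩, h4, h6⟩
    · rintro ⟨⟨h1, h2, h3⟩, h4, h5⟩
      exact ⟨⟨h1, h2, h3, h4, h5.le⟩, h5⟩
  have hlow : ∀ n, 1 ≤ n → A ≤ ord n → lo < n := by
    intro n hn hAn
    by_cases hne : Fz.Nonempty
    · obtain ⟨s0, hs0, hmax⟩ := Fz.exists_max_image (fun s => s.im) hne
      have h0 := (hmemF s0).mp hs0
      have h1 : lo ≤ NZ s0.im := by
        rw [hlo, NZ_eq]
        apply Finset.sum_le_sum_of_subset
        intro s hs
        have h2 := (hmemF s).mp hs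
        rw [Set.Finite.mem_toFinset]
        exact ⟨h2.1.1, h2.1.2.1, h2.1.2.2, h2.2.1, hmax s hs⟩
      by_contra hcon
      push Not at hcon
      have := (ord_le_iff hn s0.im).mpr (hcon.trans h1)
      linarith [h0.2.2]
    · rw [Finset.not_nonempty_iff_eq_empty] at hne
      rw [hlo, hne, Finset.sum_empty]
      omega
  by_cases hAB : A ≤ B
  swap
  · have : G = ∅ := by
      ext n
      simp only [hG, Set.mem_setOf_eq, Set.mem_empty_iff_false, iff_false]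
      rintro ⟨h1, h2, h3, h4⟩
      have := ord_mono h1 (Nat.le_succ n)
      apply hAB
      linarith
    rw [this, Set.ncard_empty]
    exact Nat.zero_le _
  have hNZ : NZ B = lo + ∑ s ∈ Zf, zmult s := by
    rw [NZ_eq, hlo, ← Finset.sum_union]
    · apply Finset.sum_congr _ (fun _ _ => rfl)
      ext s
      rw [Set.Finite.mem_toFinset, Finset.mem_union, hmemF, hmemZ]
      constructor
      · rintro ⟨h1, h2, h3, h4, h5⟩
        rcases lt_or_ge s.im A with h | h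
        · exact Or.inl ⟨⟨h1, h2, h3⟩, h4, h⟩
        · exact Or.inr ⟨⟨h1, h2, h3⟩, h, h5⟩
      · rintro (⟨⟨h1, h2, h3⟩, h4, h5⟩ | ⟨⟨h1, h2, h3⟩, h4, h5⟩)
        · exact ⟨h1, h2, h3, h4, by linarith⟩
        · exact ⟨h1, h2, h3, by linarith, h5⟩
    · rw [Finset.disjoint_left]
      intro s h1 h2
      have a1 := (hmemF s).mp h1
      have a2 := (hmemZ s).mp h2
      linarith [a1.2.2, a2.2.1]
  -- distinct ordinates
  set Y := Zf.image Complex.im with hY
  have hYlast : ∀ y ∈ Y, 1 ≤ NZ y ∧ ord (NZ y) = y ∧ A ≤ y ∧ y ≤ B := by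
    intro y hy
    rw [hY, Finset.mem_image] at hy
    obtain ⟨s, hs, rfl⟩ := hy
    obtain ⟨⟨h0, h1, h2⟩, h3, h4⟩ := (hmemZ s).mp hs
    have him : 0 < s.im := by linarith
    have hj := jump_one h0 h1 h2 him
    have hp := zmult_pos him h0
    have hN1 : 1 ≤ NZ s.im := by
      have := hj 0 him
      omega
    refine ⟨hN1, ?_, h3, h4⟩
    apply le_antisymm ((ord_le_iff hN1 s.im).mpr le_rfl)
    by_contra hcon
    push Not at hcon
    have h5 := hj _ hcon
    have h6 := le_NZ_ord hN1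
    omega
  have hinjY : Set.InjOn NZ (Y : Set ℝ) := by
    intro y hy y' hy' h
    rw [← (hYlast y hy).2.1, ← (hYlast y' hy').2.1, h]
  have hdisj : Disjoint hGfin.toFinset (Y.image NZ) := by
    rw [Finset.disjoint_left]
    intro n hn hn'
    rw [Set.Finite.mem_toFinset] at hn
    rw [Finset.mem_image] at hn'
    obtain ⟨y, hy, rfl⟩ := hn'
    obtain ⟨h1, h2, h3, h4⟩ := hn
    have h5 := (hYlast y hy).2.1
    rw [h5] at h4
    have h6 := (ord_le_iff (by omega : 1 ≤ NZ y + 1) y).mp h4.le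
    omega
  have hsub : hGfin.toFinset ∪ Y.image NZ ⊆ Finset.Ioc lo (NZ B) := by
    intro n hn
    rw [Finset.mem_Ioc]
    rcases Finset.mem_union.mp hn with h | h
    · rw [Set.Finite.mem_toFinset] at h
      obtain ⟨h1, h2, h3, h4⟩ := h
      refine ⟨hlow n h1 h2, ?_⟩
      exact (ord_le_iff h1 B).mp (by linarith)
    · rw [Finset.mem_image] at h
      obtain ⟨y, hy, rfl⟩ := h
      obtain ⟨h1, h2, h3, h4⟩ := hYlast y hy
      exact ⟨hlow _ h1 (by rw [h2]; exact h3), SG.NZ_mono h4⟩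
  have hcard := Finset.card_le_card hsub
  rw [Finset.card_union_of_disjoint hdisj, Nat.card_Ioc, hNZ, Nat.add_sub_cancel_left,
    Finset.card_image_of_injOn hinjY] at hcard
  -- good zeros inject into the ordinates
  set Zg := Zf.filter (fun s => ¬ (s.re ≠ 1 / 2 ∨ deriv riemannZeta s = 0)) with hZg
  have hgood : ∑ s ∈ Zf, zmult s = ∑ s ∈ (Bab_finite A B).toFinset, zmult s + ∑ s ∈ Zg, zmult s := by
    rw [← Finset.sum_filter_add_sum_filter_not Zf (fun s => s.re ≠ 1 / 2 ∨ deriv riemannZeta s = 0)]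
    congr 1
    apply Finset.sum_congr _ (fun _ _ => rfl)
    ext s
    rw [Finset.mem_filter, hmemZ, Set.Finite.mem_toFinset]
    constructor
    · rintro ⟨⟨h1, h2, h3⟩, h4⟩
      exact ⟨h1, h2, h3, h4⟩
    · rintro ⟨h1, h2, h3, h4⟩
      exact ⟨⟨h1, h2, h3⟩, h4⟩
  have hone : ∀ s ∈ Zg, zmult s ≤ 1 := by
    intro s hs
    rw [hZg, Finset.mem_filter, hmemZ] at hs
    obtain ⟨⟨⟨h0, h1, h2⟩, h3, h4⟩, h5⟩ := hs
    push Not at h5
    have hs1 : s ≠ 1 := by
      intro h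
      rw [h] at h2
      norm_num at h2
    have ha := SG.zeta_an hs1
    by_contra hcon
    push Not at hcon
    have htop : analyticOrderAt riemannZeta s ≠ ⊤ := by
      intro h
      unfold zmult analyticOrderNatAt at hcon
      rw [h] at hcon
      simp at hcon
    have h6 : (2 : ℕ∞) ≤ analyticOrderAt riemannZeta s := by
      rw [← Nat.cast_analyticOrderNatAt htop]
      exact_mod_cast hcon
    have h7 : deriv riemannZeta s = 0 := by
      have h8 : (2 : ℕ) ≤ analyticOrderAt riemannZeta s := by exact_mod_cast h6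
      rw [natCast_le_analyticOrderAt ha] at h8
      obtain ⟨g, hg, hgeq⟩ := h8
      have h9 : riemannZeta =ᶠ[𝓝 s] fun z => (z - s) ^ 2 * g z := by
        filter_upwards [hgeq] with z hz
        rw [hz, smul_eq_mul]
      rw [h9.deriv_eq]
      have hd : HasDerivAt (fun z : ℂ => (z - s) ^ 2 * g z)
          (2 * (s - s) ^ 1 * 1 * g s + (s - s) ^ 2 * deriv g s) s := by
        have h10 : HasDerivAt (fun z : ℂ => (z - s) ^ 2) (2 * (s - s) ^ 1 * 1) s := by
          have h11 : HasDerivAt (fun z : ℂ => z - s) 1 s := (hasDerivAt_id' s).sub_const s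
          have h12 := h11.fun_pow 2
          rw [Nat.cast_ofNat] at h12
          exact h12
        exact h10.mul hg.differentiableAt.hasDerivAt
      rw [hd.deriv]
      simp
    exact h5.2 h7
  have hgcard : ∑ s ∈ Zg, zmult s ≤ Y.card := by
    calc ∑ s ∈ Zg, zmult s ≤ ∑ s ∈ Zg, 1 := Finset.sum_le_sum hone
      _ = Zg.card := by simp
      _ ≤ Y.card := by
          apply Finset.card_le_card_of_injOn Complex.im
          · intro s hs
            rw [Finset.mem_coe, hZg, Finset.mem_filter] at hs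
            exact Finset.mem_image_of_mem _ hs.1
          · intro s hs s' hs' h
            rw [Finset.mem_coe, hZg, Finset.mem_filter] at hs hs'
            have h1 := hs.2
            have h2 := hs'.2
            push Not at h1 h2
            apply Complex.ext
            · rw [h1.1, h2.1]
            · exact h
  rw [Set.ncard_eq_toFinset_card _ hGfin]
  omega

/-- small gaps are pairs or bad zeros -/
theorem gaps_le (A B d : ℝ) (hA : 0 < A) :
    {n : ℕ | 1 ≤ n ∧ A ≤ ord n ∧ ord (n + 1) ≤ B ∧ ord (n + 1) - ord n < d}.ncard ≤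
      (∑ᶠ p ∈ Pab A B d, zmult p.1 * zmult p.2) + ∑ᶠ s ∈ Bab A B, zmult s := by
  classical
  have h1 := pos_le_pairs A B d
  have h2 := zero_le_bad A B hA
  have hsub : {n : ℕ | 1 ≤ n ∧ A ≤ ord n ∧ ord (n + 1) ≤ B ∧ ord (n + 1) - ord n < d} ⊆
      {n : ℕ | 1 ≤ n ∧ A ≤ ord n ∧ ord (n + 1) ≤ B ∧ ord (n + 1) - ord n ≤ d ∧
      ord n < ord (n + 1)} ∪
      {n : ℕ | 1 ≤ n ∧ A ≤ ord n ∧ ord (n + 1) ≤ B ∧ ord (n + 1) = ord n} := by
    rintro n ⟨k1, k2, k3, k4⟩
    have hm := ord_mono k1 (Nat.le_succ n)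
    rcases hm.lt_or_eq with h | h
    · exact Or.inl ⟨k1, k2, k3, k4.le, h⟩
    · exact Or.inr ⟨k1, k2, k3, h.symm⟩
  have hf1 : {n : ℕ | 1 ≤ n ∧ A ≤ ord n ∧ ord (n + 1) ≤ B ∧ ord (n + 1) - ord n ≤ d ∧
      ord n < ord (n + 1)}.Finite := by
    refine (gaps_finite (fun _ => True) B).subset ?_
    rintro n ⟨h1, _, h3, _⟩
    exact ⟨h1, trivial, h3⟩
  have hf2 : {n : ℕ | 1 ≤ n ∧ A ≤ ord n ∧ ord (n + 1) ≤ B ∧ ord (n + 1) = ord n}.Finite := by
    refine (gaps_finite (fun _ => True) B).subset ?_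
    rintro n ⟨h1, _, h3, _⟩
    exact ⟨h1, trivial, h3⟩
  have h3 := Set.ncard_le_ncard hsub (hf1.union hf2)
  have h4 := Set.ncard_union_le {n : ℕ | 1 ≤ n ∧ A ≤ ord n ∧ ord (n + 1) ≤ B ∧
      ord (n + 1) - ord n ≤ d ∧ ord n < ord (n + 1)}
      {n : ℕ | 1 ≤ n ∧ A ≤ ord n ∧ ord (n + 1) ≤ B ∧ ord (n + 1) = ord n}
  omega

end Pool.Agent.W192.PP
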