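import Pool.Agent.W192.PP.Pair

open Complex Filter Topology Set MeasureTheory

namespace Pool.Agent.W192.PP

open SG (ord NZ zmult ZS ZS_finite NZ_eq ord_le_iff ord_mono le_NZ_ord jump_one zmult_pos)

/-- the pairs counted by `N*(T, a)` -/
def PS (T a : ℝ) : Set (ℂ × ℂ) := {p : ℂ × ℂ | p.1 ∈ ZZ0 ∧ p.2 ∈ ZZ0 ∧ 0 < p.1.im ∧
  p.1.im ≤ T ∧ 0 < p.1.im - p.2.im ∧ p.1.im - p.2.im ≤ 2 * Real.pi * a / Real.log T}

theorem PS_finite (T a : ℝ) : (PS T a).Finite := by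
  refine ((Zab_finite 0 T).prod (Zab_finite (-(2 * Real.pi * a / Real.log T)) T)).subset ?_
  rintro ⟨s, s'⟩ ⟨h1, h2, h3, h4, h5, h6⟩
  simp only at h3 h4 h5 h6
  exact ⟨⟨h1, h3.le, h4⟩, ⟨h2, by linarith, by linarith⟩⟩

/-- zeros that are multiple or off the critical line, up to height `T` -/
def BS (T : ℝ) : Set ℂ :=
  {s : ℂ | s ∈ ZZ0 ∧ 0 < s.im ∧ s.im ≤ T ∧ (s.re ≠ 1 / 2 ∨ deriv riemannZeta s = 0)}

theorem BS_finite (T : ℝ) : (BS T).Finite :=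
  (Zab_finite 0 T).subset fun _ hs => ⟨hs.1, hs.2.1.le, hs.2.2.1⟩

theorem pairs_window (θ a : ℝ) (hθ : 0 < θ) (hθ1 : θ ≤ 1) (h : 2 / (2 + θ) < a) :
    ∃ κ T0 : ℝ, 0 < κ ∧ ∀ T t0 H : ℝ, T0 ≤ T → T ≤ t0 → t0 + H ≤ 2 * T → T ^ θ ≤ H →
      κ * H * Real.log T ≤
        ((∑ᶠ p ∈ Pab t0 (t0 + H) (2 * Real.pi * a / Real.log T), zmult p.1 * zmult p.2 : ℕ) : ℝ) +
        ((∑ᶠ s ∈ Bab t0 (t0 + H), zmult s : ℕ) : ℝ) := by
  obtain ⟨κ, T0, hκ, hk⟩ := pos_prop θ a hθ hθ1 h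
  refine ⟨κ, max T0 1, hκ, fun T t0 H hT ht hH hθH => ?_⟩
  have h1 := hk T t0 H ((le_max_left _ _).trans hT) ht hH hθH
  have hT1 : 1 ≤ T := (le_max_right _ _).trans hT
  have h2 := gaps_le t0 (t0 + H) (a * (2 * Real.pi / Real.log T)) (by linarith)
  have e1 : a * (2 * Real.pi / Real.log T) = 2 * Real.pi * a / Real.log T := by ring
  rw [e1] at h1 h2
  refine h1.trans ?_
  exact_mod_cast h2

theorem pairs_all (a : ℝ) (h : 2 / 3 < a) :
    ∃ κ T0 : ℝ, 0 < κ ∧ ∀ T : ℝ, T0 ≤ T →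
      κ * T * Real.log T ≤
        ((∑ᶠ p ∈ PS T a, zmult p.1 * zmult p.2 : ℕ) : ℝ) +
        ((∑ᶠ s ∈ BS T, zmult s : ℕ) : ℝ) := by
  set c : ℝ := (2 / 3 + a) / 2 with hc
  have hc1 : 2 / 3 < c := by rw [hc]; linarith
  have hc2 : c < a := by rw [hc]; linarith
  obtain ⟨κ, T0, hκ, hk⟩ := pos_prop 1 c one_pos le_rfl (by norm_num; linarith)
  -- threshold for c / log (T/2) ≤ a / log T
  have hlim : ∀ᶠ T : ℝ in atTop, 2 * Real.log 2 ≤ Real.log T ∧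
      a * Real.log 2 ≤ (a - c) * Real.log T ∧ 2 * T0 ≤ T ∧ 2 ≤ T := by
    have hlog := Real.tendsto_log_atTop
    filter_upwards [hlog.eventually_ge_atTop (2 * Real.log 2),
      hlog.eventually_ge_atTop (a * Real.log 2 / (a - c)), eventually_ge_atTop (2 * T0),
      eventually_ge_atTop 2] with T k1 k2 k3 k4
    refine ⟨k1, ?_, k3, k4⟩
    have hac : 0 < a - c := by linarith
    rw [div_le_iff₀ hac] at k2
    linarith
  obtain ⟨T1, hT1⟩ := eventually_atTop.mp hlim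
  refine ⟨κ / 4, T1, by positivity, fun T hT => ?_⟩
  obtain ⟨k1, k2, k3, k4⟩ := hT1 T hT
  have hTpos : 0 < T := by linarith
  have hl2 : 0 < Real.log 2 := Real.log_pos (by norm_num)
  have hlT : 0 < Real.log T := by linarith
  have hlT2 : Real.log (T / 2) = Real.log T - Real.log 2 := Real.log_div hTpos.ne' (by norm_num)
  have hlT2p : 0 < Real.log (T / 2) := by rw [hlT2]; linarith
  have h1 := hk (T / 2) (T / 2) (T / 2) (by linarith) le_rfl (by linarith)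
    (by rw [Real.rpow_one])
  have e2 : T / 2 + T / 2 = T := by ring
  rw [e2] at h1
  have hd : c * (2 * Real.pi / Real.log (T / 2)) ≤ 2 * Real.pi * a / Real.log T := by
    have e3 : c * (2 * Real.pi / Real.log (T / 2)) = 2 * Real.pi * (c / Real.log (T / 2)) := by ring
    have e4 : 2 * Real.pi * a / Real.log T = 2 * Real.pi * (a / Real.log T) := by ring
    rw [e3, e4]
    apply mul_le_mul_of_nonneg_left _ (by positivity)
    rw [div_le_div_iff₀ hlT2p hlT, hlT2]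
    linarith
  have h2 := gaps_le (T / 2) T (2 * Real.pi * a / Real.log T) (by linarith)
  have h3 : ({n : ℕ | 1 ≤ n ∧ T / 2 ≤ ord n ∧ ord (n + 1) ≤ T ∧
        ord (n + 1) - ord n < c * (2 * Real.pi / Real.log (T / 2))}.ncard : ℝ) ≤
      ({n : ℕ | 1 ≤ n ∧ T / 2 ≤ ord n ∧ ord (n + 1) ≤ T ∧
        ord (n + 1) - ord n < 2 * Real.pi * a / Real.log T}.ncard : ℝ) := by
    have hf : {n : ℕ | 1 ≤ n ∧ T / 2 ≤ ord n ∧ ord (n + 1) ≤ T ∧
        ord (n + 1) - ord n < 2 * Real.pi * a / Real.log T}.Finite := by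
      refine (gaps_finite (fun _ => True) T).subset ?_
      rintro n ⟨q1, _, q3, _⟩
      exact ⟨q1, trivial, q3⟩
    have := Set.ncard_le_ncard (s := {n : ℕ | 1 ≤ n ∧ T / 2 ≤ ord n ∧ ord (n + 1) ≤ T ∧
        ord (n + 1) - ord n < c * (2 * Real.pi / Real.log (T / 2))}) (by
          rintro n ⟨q1, q2, q3, q4⟩
          exact ⟨q1, q2, q3, lt_of_lt_of_le q4 hd⟩) hf
    exact_mod_cast this
  have h4 : ∑ᶠ p ∈ Pab (T / 2) T (2 * Real.pi * a / Real.log T), zmult p.1 * zmult p.2 ≤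
      ∑ᶠ p ∈ PS T a, zmult p.1 * zmult p.2 := by
    rw [finsum_mem_eq_finite_toFinset_sum _ (PS_finite T a),
      finsum_mem_eq_finite_toFinset_sum _ (Pab_finite _ _ _)]
    apply Finset.sum_le_sum_of_subset
    intro p hp
    rw [Set.Finite.mem_toFinset] at hp ⊢
    obtain ⟨q1, q2, q3, q4, q5, q6⟩ := hp
    exact ⟨q1, q2, by linarith, q4, q5, q6⟩
  have h5 : ∑ᶠ s ∈ Bab (T / 2) T, zmult s ≤ ∑ᶠ s ∈ BS T, zmult s := by
    rw [finsum_mem_eq_finite_toFinset_sum _ (BS_finite T),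
      finsum_mem_eq_finite_toFinset_sum _ (Bab_finite _ _)]
    apply Finset.sum_le_sum_of_subset
    intro p hp
    rw [Set.Finite.mem_toFinset] at hp ⊢
    obtain ⟨q1, q2, q3, q4⟩ := hp
    exact ⟨q1, by linarith, q3, q4⟩
  have h6 : κ / 4 * T * Real.log T ≤ κ * (T / 2) * Real.log (T / 2) := by
    rw [hlT2]
    have : 0 ≤ κ * T * (Real.log T - 2 * Real.log 2) := by
      apply mul_nonneg (by positivity)
      linarith
    nlinarith
  have h7 : ({n : ℕ | 1 ≤ n ∧ T / 2 ≤ ord n ∧ ord (n + 1) ≤ T ∧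
        ord (n + 1) - ord n < 2 * Real.pi * a / Real.log T}.ncard : ℝ) ≤
      ((∑ᶠ p ∈ PS T a, zmult p.1 * zmult p.2 : ℕ) : ℝ) + ((∑ᶠ s ∈ BS T, zmult s : ℕ) : ℝ) := by
    have : {n : ℕ | 1 ≤ n ∧ T / 2 ≤ ord n ∧ ord (n + 1) ≤ T ∧
        ord (n + 1) - ord n < 2 * Real.pi * a / Real.log T}.ncard ≤
        (∑ᶠ p ∈ PS T a, zmult p.1 * zmult p.2) + (∑ᶠ s ∈ BS T, zmult s) := by
      omega
    exact_mod_cast this
  linarith

end Pool.Agent.W192.PP
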