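import Pool.Agent.H382P.RhoP
import Pool.Agent.W192.PP.Defs

open Complex Filter Topology Set MeasureTheory

namespace Pool.Agent.W192.PP

open SG (phi hh dl)
open SP SP.RhoAux SG.GamAux

/-- the phase of `ρ` on the critical line -/
theorem rho_phase0 (c : ℝ) (hc : 0 < c) (hc1 : c < 1) :
    ∃ C T0 : ℝ, 1 ≤ C ∧ 10 ≤ T0 ∧ ∀ T : ℝ, T0 ≤ T → ∀ t : ℝ, T ≤ t → t ≤ 2 * T →
      ‖rho c T (⟨1 / 2, t⟩ : ℂ) - cexp (-(Real.pi * c : ℝ) * I)‖ ≤
        C / Real.log T := by
  obtain ⟨C, hC, h⟩ := shift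
  refine ⟨7 * C * Real.exp C, max (Real.exp 7) 10, ?_, e7.trans (le_max_left _ _), ?_⟩
  · have := Real.one_le_exp (show 0 ≤ C by linarith)
    nlinarith
  intro T hT' t h1 h2
  have hT : Real.exp 7 ≤ T := (le_max_left _ _).trans hT'
  have hT10 : 10 ≤ T := e7.trans hT
  have hd1 := dl_small c hc hc1 T hT
  have hd0 := dl_pos hc hT10
  have hd : |dl c T| ≤ 1 := by rw [abs_of_pos hd0]; exact hd1
  have hlog7 : 7 ≤ Real.log T := by
    rw [Real.le_log_iff_exp_le (by linarith [Real.exp_pos 7])]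
    exact hT
  have hlog : 0 < Real.log T := by linarith
  set s : ℂ := ⟨1 / 2, t⟩ with hs
  have hsim : s.im = t := rfl
  have hsre : s.re = 1 / 2 := rfl
  have him : (s - hh (dl c T)).im = t - dl c T / 2 := by rw [sub_im, hh_im]
  have hre : (s - hh (dl c T)).re = 1 / 2 := by rw [sub_re, hh_re, sub_zero]
  have habs : |(s - hh (dl c T)).im| = t - dl c T / 2 := by
    rw [him, abs_of_nonneg (by linarith)]
  have habs2 : |(s - hh (dl c T)).re| = 1 / 2 := by
    rw [hre, abs_of_nonneg (by linarith)]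
  obtain ⟨k1, k2, k3⟩ := h (s - hh (dl c T)) (dl c T) T (by linarith) (by rw [habs]; linarith)
    (by rw [habs]; linarith) (by rw [habs]; linarith) (by rw [habs, habs2]; linarith) hd
  rw [hh_add] at k3
  have e1 : I * (dl c T : ℝ) * (Real.log T / 2 : ℝ) = ((Real.pi * c : ℝ) : ℂ) * I := by
    unfold dl
    have : (Real.log T : ℂ) ≠ 0 := by exact_mod_cast hlog.ne'
    push_cast
    field_simp
  rw [e1] at k3
  have e2 : rho c T s - cexp (-(Real.pi * c : ℝ) * I) =
      (rho c T s * cexp ((Real.pi * c : ℝ) * I) - 1) * cexp (-(Real.pi * c : ℝ) * I) := by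
    rw [sub_mul, one_mul, mul_assoc, ← Complex.exp_add]
    have : ((Real.pi * c : ℝ) : ℂ) * I + -((Real.pi * c : ℝ) : ℂ) * I = 0 := by ring
    rw [this, Complex.exp_zero, mul_one]
  rw [e2, norm_mul]
  have e3 : ‖cexp (-(Real.pi * c : ℝ) * I)‖ = 1 := by
    rw [← Complex.ofReal_neg]
    exact Complex.norm_exp_ofReal_mul_I _
  rw [e3, mul_one]
  refine le_trans k3 ?_
  have hx : |dl c T| = dl c T := abs_of_pos hd0
  rw [hx]
  have h5 : Real.exp (C * dl c T) - 1 ≤ C * dl c T * Real.exp (C * dl c T) := by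
    have := Real.add_one_le_exp (-(C * dl c T))
    have h6 : Real.exp (-(C * dl c T)) * Real.exp (C * dl c T) = 1 := by
      rw [← Real.exp_add]; simp
    have h7 := Real.exp_pos (C * dl c T)
    nlinarith
  have h6 : Real.exp (C * dl c T) ≤ Real.exp C := by
    apply Real.exp_le_exp.mpr
    nlinarith
  have h7 : dl c T ≤ 7 / Real.log T := by
    unfold dl
    apply div_le_div_of_nonneg_right _ hlog.le
    have := Real.pi_lt_d2
    nlinarith [Real.pi_pos]
  calc Real.exp (C * dl c T) - 1 ≤ C * dl c T * Real.exp (C * dl c T) := h5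
    _ ≤ C * (7 / Real.log T) * Real.exp C := by
        apply mul_le_mul _ h6 (Real.exp_pos _).le (by positivity)
        exact mul_le_mul_of_nonneg_left h7 (by linarith)
    _ = 7 * C * Real.exp C / Real.log T := by ring

end Pool.Agent.W192.PP
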