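import Pool.Agent.W192.PP.Rho
import Pool.Agent.W192.PP.G
import Pool.Agent.W192.SI.P0

open Complex Filter Topology Set MeasureTheory

namespace Pool.Agent.W192.PP

open SG (phi hh dl rectI rect_zero phi_norm)
open SG.Deep (phi_analytic)
open SP SP.EvalAux
open Pool.Agent.W192.SI (Adm dd ev_small4')

theorem mk_cont' (x : ℝ) : Continuous (fun t : ℝ => (⟨x, t⟩ : ℂ)) := by
  have : (fun t : ℝ => (⟨x, t⟩ : ℂ)) = fun t : ℝ => (x : ℂ) + t * I := by
    funext t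
    exact Complex.mk_eq_add_mul_I x t
  rw [this]
  fun_prop

/-- moving a vertical line -/
theorem vshift (F : ℂ → ℂ) (p q U1 U2 M : ℝ) (hpq : p < q) (hU : U1 < U2)
    (hF : ∀ s : ℂ, p ≤ s.re → s.re ≤ q → U1 ≤ s.im → s.im ≤ U2 → AnalyticAt ℂ F s)
    (hM : ∀ σ : ℝ, p ≤ σ → σ ≤ q → ‖F (⟨σ, U1⟩ : ℂ)‖ ≤ M ∧ ‖F (⟨σ, U2⟩ : ℂ)‖ ≤ M) :
    ‖(∫ y in U1..U2, F (⟨p, y⟩ : ℂ)) - ∫ y in U1..U2, F (⟨q, y⟩ : ℂ)‖ ≤ 2 * (q - p) * M := by
  have h := rect_zero F p q U1 U2 hpq hU (fun s hs => by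
    rw [mem_reProdIm] at hs
    exact hF s hs.1.1 hs.1.2 hs.2.1 hs.2.2)
  unfold rectI at h
  have hb1 : ‖∫ x in p..q, F (⟨x, U1⟩ : ℂ)‖ ≤ M * |q - p| := by
    apply intervalIntegral.norm_integral_le_of_norm_le_const
    intro x hx
    rw [uIoc_of_le hpq.le] at hx
    exact (hM x hx.1.le hx.2).1
  have hb2 : ‖∫ x in p..q, F (⟨x, U2⟩ : ℂ)‖ ≤ M * |q - p| := by
    apply intervalIntegral.norm_integral_le_of_norm_le_const
    intro x hx
    rw [uIoc_of_le hpq.le] at hx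
    exact (hM x hx.1.le hx.2).2
  rw [abs_of_pos (by linarith)] at hb1 hb2
  have e : I * ((∫ y in U1..U2, F (⟨p, y⟩ : ℂ)) - ∫ y in U1..U2, F (⟨q, y⟩ : ℂ)) =
      (∫ x in p..q, F (⟨x, U1⟩ : ℂ)) - ∫ x in p..q, F (⟨x, U2⟩ : ℂ) := by
    linear_combination -h
  have hn : ‖I * ((∫ y in U1..U2, F (⟨p, y⟩ : ℂ)) - ∫ y in U1..U2, F (⟨q, y⟩ : ℂ))‖ =
      ‖(∫ y in U1..U2, F (⟨p, y⟩ : ℂ)) - ∫ y in U1..U2, F (⟨q, y⟩ : ℂ)‖ := by
    rw [norm_mul, norm_I, one_mul]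
  rw [← hn, e]
  refine (norm_sub_le _ _).trans ?_
  linarith

/-- `φ` is tiny far from its centre -/
theorem phi_small {H T : ℝ} (hA : Adm H T) (τ : ℝ) (s : ℂ) (hs1 : |s.re - 1 / 2| ≤ dd H T)
    (hs2 : H / 5 ≤ |s.im - τ|) :
    ‖phi τ (dd H T) s‖ ≤ Real.exp 1 * Real.exp (-(1 / 50) * Real.log T ^ 4) := by
  have hD : 0 < dd H T := hA.dd_pos
  have hL := hA.log_ge
  have hH := hA.H_pos
  rw [phi_norm _ _ hD, ← Real.exp_add]
  apply Real.exp_le_exp.mpr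
  have hD2 : dd H T ^ 2 * Real.log T ^ 4 = H ^ 2 := by
    have h := hA.dd_sq
    calc dd H T ^ 2 * Real.log T ^ 4 = (dd H T * Real.log T ^ 2) ^ 2 := by ring
      _ = H ^ 2 := by rw [h]
  have him : (H / 5) ^ 2 ≤ (s.im - τ) ^ 2 := by
    rw [← sq_abs (s.im - τ)]
    exact pow_le_pow_left₀ (by positivity) hs2 2
  have hre : (s.re - 1 / 2) ^ 2 ≤ dd H T ^ 2 := by
    rw [← sq_abs]
    exact pow_le_pow_left₀ (abs_nonneg _) hs1 2
  rw [div_le_iff₀ (by positivity)]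
  have h3 : (s.re - 1 / 2) ^ 2 - (s.im - τ) ^ 2 ≤
      dd H T ^ 2 - dd H T ^ 2 * Real.log T ^ 4 / 25 := by
    rw [hD2]
    nlinarith
  have h4 : 0 < dd H T ^ 2 := by positivity
  nlinarith

theorem phi_le {H T : ℝ} (hA : Adm H T) (τ : ℝ) (s : ℂ) (hs1 : |s.re - 1 / 2| ≤ dd H T) :
    ‖phi τ (dd H T) s‖ ≤ Real.exp 1 := by
  have hD : 0 < dd H T := hA.dd_pos
  rw [phi_norm _ _ hD]
  apply Real.exp_le_exp.mpr
  have hre : (s.re - 1 / 2) ^ 2 ≤ dd H T ^ 2 := by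
    rw [← sq_abs]
    exact pow_le_pow_left₀ (abs_nonneg _) hs1 2
  rw [div_le_iff₀ (by positivity)]
  nlinarith [sq_nonneg (s.im - τ)]

/-- the tail of the Dirichlet series -/
theorem tail_bound (c ε T : ℝ) (N N' : ℕ) (s : ℂ) (hs : 6 ≤ s.re) :
    ‖PPr 0 (dl c T) N (d0 c ε T) s - DP N' (e0 c ε T N) s‖ ≤ 2 * ((N' : ℝ) + 1) ^ (6 - s.re) := by
  have hS := hasSum_ec 0 (dl c T) N (d0 c ε T) s (by linarith)
  set δ := dl c T with hδ
  set d := d0 c ε T with hd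
  have hf : HasSum (fun j : ℕ => if j ∈ Finset.Icc 1 N' then ec 0 δ N d j * (j : ℂ) ^ (-s) else 0)
      (DP N' (e0 c ε T N) s) := by
    have h := hasSum_sum_of_ne_finset_zero (L := SummationFilter.unconditional ℕ)
      (f := fun j : ℕ => if j ∈ Finset.Icc 1 N' then ec 0 δ N d j * (j : ℂ) ^ (-s) else 0)
      (s := Finset.Icc 1 N') (fun b hb => if_neg hb)
    have e : ∑ j ∈ Finset.Icc 1 N', (if j ∈ Finset.Icc 1 N' then ec 0 δ N d j * (j : ℂ) ^ (-s)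
        else 0) = DP N' (e0 c ε T N) s := by
      unfold DP
      refine Finset.sum_congr rfl fun j hj => ?_
      rw [if_pos hj, e0_eq]
    rwa [e] at h
  have hd1 := hS.sub hf
  have hg : HasSum (fun j : ℕ => ((N' : ℝ) + 1) ^ (6 - s.re) * (1 / (j : ℝ) ^ 2))
      (((N' : ℝ) + 1) ^ (6 - s.re) * (Real.pi ^ 2 / 6)) := hasSum_zeta_two.mul_left _
  have hb : ∀ j : ℕ, ‖ec 0 δ N d j * (j : ℂ) ^ (-s) -
      (if j ∈ Finset.Icc 1 N' then ec 0 δ N d j * (j : ℂ) ^ (-s) else 0)‖ ≤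
      ((N' : ℝ) + 1) ^ (6 - s.re) * (1 / (j : ℝ) ^ 2) := by
    intro j
    rcases Nat.eq_zero_or_pos j with hj | hj
    · subst hj
      rw [ec_zero]
      simp only [zero_mul, ite_self, sub_zero, norm_zero]
      positivity
    · by_cases hjk : j ∈ Finset.Icc 1 N'
      · rw [if_pos hjk, sub_self, norm_zero]
        positivity
      · rw [if_neg hjk, sub_zero]
        have hkj : N' + 1 ≤ j := by
          simp only [Finset.mem_Icc, not_and, not_le] at hjk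
          have := hjk hj
          omega
        have hj1 : (0 : ℝ) < j := by exact_mod_cast hj
        have hj1' : (1 : ℝ) ≤ j := by exact_mod_cast hj
        have hkj' : (N' : ℝ) + 1 ≤ j := by exact_mod_cast hkj
        rw [norm_mul, Complex.norm_natCast_cpow_of_pos hj, Complex.neg_re]
        have h2 : ‖ec 0 δ N d j‖ ≤ (j : ℝ) ^ 2 := by
          have := e0_bound c ε T N j
          rwa [e0_eq] at this
        have h4 : (j : ℝ) ^ (-s.re) = (j : ℝ) ^ (6 - s.re) * (1 / (j : ℝ) ^ 6) := by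
          have : (1 : ℝ) / (j : ℝ) ^ 6 = (j : ℝ) ^ (-6 : ℝ) := by
            rw [Real.rpow_neg hj1.le, one_div]
            norm_cast
          rw [this, ← Real.rpow_add hj1]
          congr 1
          ring
        have h5 : (j : ℝ) ^ (6 - s.re) ≤ ((N' : ℝ) + 1) ^ (6 - s.re) :=
          Real.rpow_le_rpow_of_nonpos (by positivity) hkj' (by linarith)
        have h6 : (j : ℝ) ^ 2 * (1 / (j : ℝ) ^ 6) ≤ 1 / (j : ℝ) ^ 2 := by
          have e : (j : ℝ) ^ 2 * (1 / (j : ℝ) ^ 6) = 1 / (j : ℝ) ^ 4 := by field_simp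
          rw [e]
          apply one_div_le_one_div_of_le (by positivity)
          exact pow_le_pow_right₀ hj1' (by norm_num)
        calc ‖ec 0 δ N d j‖ * (j : ℝ) ^ (-s.re)
            ≤ (j : ℝ) ^ 2 * ((j : ℝ) ^ (6 - s.re) * (1 / (j : ℝ) ^ 6)) := by
              rw [h4]
              exact mul_le_mul_of_nonneg_right h2 (by positivity)
          _ = (j : ℝ) ^ (6 - s.re) * ((j : ℝ) ^ 2 * (1 / (j : ℝ) ^ 6)) := by ring
          _ ≤ ((N' : ℝ) + 1) ^ (6 - s.re) * (1 / (j : ℝ) ^ 2) :=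
              mul_le_mul h5 h6 (by positivity) (by positivity)
  have hn : ‖PPr 0 δ N d s - DP N' (e0 c ε T N) s‖ ≤
      ((N' : ℝ) + 1) ^ (6 - s.re) * (Real.pi ^ 2 / 6) := by
    rw [← hd1.tsum_eq]
    exact tsum_of_norm_bounded hg hb
  refine hn.trans ?_
  have hpi : Real.pi ^ 2 / 6 ≤ 2 := by
    have := Real.pi_lt_d2
    have := Real.pi_pos
    nlinarith
  have : 0 ≤ ((N' : ℝ) + 1) ^ (6 - s.re) := by positivity
  nlinarith

theorem dps_right (c ε T : ℝ) (N : ℕ) (s : ℂ) (hs : 1 ≤ s.re) :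
    ‖DPs N (d0 c ε T) s‖ ≤ (N : ℝ) ^ s.re := by
  rcases Nat.eq_zero_or_pos N with hN | hN
  · subst hN
    unfold DPs
    simp
    positivity
  have hN0 : (0 : ℝ) < N := by exact_mod_cast hN
  unfold DPs
  calc ‖∑ k ∈ Finset.Icc 1 N, (starRingEnd ℂ) (d0 c ε T k) * (k : ℂ) ^ (s - 1)‖
      ≤ ∑ k ∈ Finset.Icc 1 N, (N : ℝ) ^ (s.re - 1) := by
        apply norm_sum_le_of_le
        intro n hn
        rw [Finset.mem_Icc] at hn
        rw [norm_mul, Complex.norm_natCast_cpow_of_pos hn.1, RCLike.norm_conj, Complex.sub_re,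
          Complex.one_re]
        have h1 : (n : ℝ) ^ (s.re - 1) ≤ (N : ℝ) ^ (s.re - 1) :=
          Real.rpow_le_rpow (by positivity) (by exact_mod_cast hn.2) (by linarith)
        have h2 := d0_le c ε T n
        have h3 : (0 : ℝ) ≤ (n : ℝ) ^ (s.re - 1) := by positivity
        nlinarith [norm_nonneg (d0 c ε T n)]
    _ = N * (N : ℝ) ^ (s.re - 1) := by
        rw [Finset.sum_const, nsmul_eq_mul, Nat.card_Icc, Nat.add_sub_cancel]
    _ = (N : ℝ) ^ s.re := by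
        rw [Real.rpow_sub hN0, Real.rpow_one]
        field_simp

/-- the polynomial `P` on `re ≥ 0` -/
theorem pp_bound (c ε T : ℝ) (N N' : ℕ) (s : ℂ) (hs : 0 ≤ s.re) :
    ‖DP N' (e0 c ε T N) s‖ ≤ (N' : ℝ) ^ 3 := by
  unfold DP
  calc ‖∑ n ∈ Finset.Icc 1 N', e0 c ε T N n * (n : ℂ) ^ (-s)‖
      ≤ ∑ n ∈ Finset.Icc 1 N', (N' : ℝ) ^ 2 := by
        apply norm_sum_le_of_le
        intro n hn
        rw [Finset.mem_Icc] at hn
        rw [norm_mul, Complex.norm_natCast_cpow_of_pos hn.1, Complex.neg_re]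
        have h1 : (n : ℝ) ^ (-s.re) ≤ 1 :=
          Real.rpow_le_one_of_one_le_of_nonpos (by exact_mod_cast hn.1) (by linarith)
        have h2 := e0_bound c ε T N n
        have h3 : (n : ℝ) ^ 2 ≤ (N' : ℝ) ^ 2 :=
          pow_le_pow_left₀ (by positivity) (by exact_mod_cast hn.2) 2
        calc ‖e0 c ε T N n‖ * (n : ℝ) ^ (-s.re) ≤ (n : ℝ) ^ 2 * 1 :=
              mul_le_mul h2 h1 (by positivity) (by positivity)
          _ ≤ (N' : ℝ) ^ 2 := by linarith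
    _ = (N' : ℝ) ^ 3 := by
        rw [Finset.sum_const, nsmul_eq_mul, Nat.card_Icc, Nat.add_sub_cancel]
        ring

end Pool.Agent.W192.PP
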