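import Pool.Agent.W192.PP.Core

open Complex Filter Topology Set MeasureTheory

namespace Pool.Agent.W192.PP

open SG (phi hh dl phi_norm)
open SP SP.EvalAux
open Pool.Agent.W192.SI (Adm dd ev_small4' ev_small4)

/-- residue clause of `S_res` -/
def ResCl (c T U1 U2 : ℝ) (S : Multiset ℂ) : Prop :=
  ∀ (τ D M : ℝ) (F F1 : ℂ → ℂ), 0 < D → Differentiable ℂ F → Differentiable ℂ F1 →
      (∀ s, F s = Pm S s * F1 s) →
      (∀ σ : ℝ, -5 ≤ σ → σ ≤ 6 →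
        ‖SP.ff c T (⟨σ, U1⟩ : ℂ) * F (⟨σ, U1⟩ : ℂ) * sta F (⟨σ, U1⟩ : ℂ) *
          phi τ D (⟨σ, U1⟩ : ℂ)‖ ≤ M ∧
        ‖SP.ff c T (⟨σ, U2⟩ : ℂ) * F (⟨σ, U2⟩ : ℂ) * sta F (⟨σ, U2⟩ : ℂ) *
          phi τ D (⟨σ, U2⟩ : ℂ)‖ ≤ M) →
      (∫ t in U1..U2, SP.ff c T (⟨6, t⟩ : ℂ) * F (⟨6, t⟩ : ℂ) * sta F (⟨6, t⟩ : ℂ) *
        phi τ D (⟨6, t⟩ : ℂ)).im ≤ 11 * M

theorem im_int {F : ℝ → ℂ} {a b : ℝ} (h : IntervalIntegrable F volume a b) :
    (∫ t in a..b, F t).im = ∫ t in a..b, (F t).im := by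
  have := Complex.imCLM.intervalIntegral_comp_comm h
  simpa using this.symm

/-- for a vector killing the bad zeros the weighted integral is small -/
theorem upper_v (c Ch : ℝ) (hc : 0 < c) (hc1 : c < 1) :
    ∃ T0 : ℝ, ∀ (x η ε H T W : ℝ) (N N' J : ℕ), T0 ≤ T → Dat x η H T W N N' J →
    ∀ (U1 U2 : ℝ), W ≤ U1 → U1 ≤ W + H / 20 → W + H - H / 20 ≤ U2 → U2 ≤ W + H →
    (∀ σ : ℝ, -5 ≤ σ → σ ≤ 6 → ‖ff c T (⟨σ, U1⟩ : ℂ)‖ ≤ Real.exp (Ch * Real.log T ^ 2) ∧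
      ‖ff c T (⟨σ, U2⟩ : ℂ)‖ ≤ Real.exp (Ch * Real.log T ^ 2)) →
    ∀ S : Multiset ℂ, ResCl c T U1 U2 S →
    ∀ (v : Fin J → ℂ) (F1 : ℂ → ℂ), Differentiable ℂ F1 →
      (∀ s, FF c ε H T N v s = Pm S s * F1 s) →
    ∀ τ : ℝ, W + H / 4 ≤ τ → τ ≤ W + 3 * H / 4 →
      ∫ t in U1..U2, wt τ (dd H T) t * (ss c ε T N N' t * ‖gv H v (⟨1 / 2, t⟩ : ℂ)‖ ^ 2) ≤
        2 * ∑ j, ‖v j‖ ^ 2 := by
  obtain ⟨Ts, hsh⟩ := shift_main c hc hc1
  obtain ⟨Cr, Tr, hCr, hTr, hrho⟩ := SP.rho_bound c hc hc1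
  have ev1 := ev_small4 (|Ch| + 24) (1 / 50) 1 (by norm_num) (by norm_num)
  obtain ⟨Te, hTe⟩ := eventually_atTop.mp ev1
  refine ⟨max (max Ts Tr) Te, ?_⟩
  intro x η ε H T W N N' J hT hdat U1 U2 hU1 hU1' hU2 hU2' hff S hS v F1 hF1 hfac τ hτ1 hτ2
  have hTs : Ts ≤ T := (le_max_left _ _).trans ((le_max_left _ _).trans hT)
  have hTr' : Tr ≤ T := (le_max_right _ _).trans ((le_max_left _ _).trans hT)
  have he := hTe T ((le_max_right _ _).trans hT)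
  have hA := hdat.adm
  have hT1' := hdat.T1
  have hT0 : 0 < T := by linarith
  have hH := hA.H_pos
  have hHge := hA.H_ge
  norm_num at hHge
  have hHT := hA.hi
  have hw1 := hdat.w1
  have hw2 := hdat.w2
  have hD := hA.dd_pos
  have hD100 := hA.one_le_dd
  have hL := hA.log_ge
  set D := dd H T with hDdef
  set V := ∑ j, ‖v j‖ ^ 2 with hV
  have hV0 : 0 ≤ V := Finset.sum_nonneg fun j _ => by positivity
  have hU12 : U1 < U2 := by linarith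
  have hfar1 : H / 5 ≤ |U1 - τ| := by
    rw [abs_of_nonpos (by linarith)]; linarith
  have hfar2 : H / 5 ≤ |U2 - τ| := by
    rw [abs_of_nonneg (by linarith)]; linarith
  -- horizontals
  have hor : ∀ σ : ℝ, -5 ≤ σ → σ ≤ 6 → ∀ U : ℝ, H / 5 ≤ |U - τ| →
      ‖ff c T (⟨σ, U⟩ : ℂ)‖ ≤ Real.exp (Ch * Real.log T ^ 2) →
      ‖ff c T (⟨σ, U⟩ : ℂ) * FF c ε H T N v (⟨σ, U⟩ : ℂ) * sta (FF c ε H T N v) (⟨σ, U⟩ : ℂ) *
        phi τ D (⟨σ, U⟩ : ℂ)‖ ≤ V / 11 := by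
    intro σ h1 h2 U hfar hf
    rw [sta_FF]
    unfold FF
    have p1 := phi_small hA τ (⟨σ, U⟩ : ℂ) (by
      rw [abs_le]; constructor <;> simp only <;> linarith) hfar
    have p2 := G2_bound hdat c ε v (⟨σ, U⟩ : ℂ) h1 h2
    have p3 : ‖DP N (d0 c ε T) (⟨σ, U⟩ : ℂ)‖ ≤ T ^ 6 :=
      (dp_left c ε T N (⟨σ, U⟩ : ℂ) h1).trans (pow_le_pow_left₀ (by positivity) hdat.N_le 6)
    have e1 : ‖ff c T (⟨σ, U⟩ : ℂ) * (DP N (d0 c ε T) (⟨σ, U⟩ : ℂ) * gv H v (⟨σ, U⟩ : ℂ)) *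
        (DPs N (d0 c ε T) (⟨σ, U⟩ : ℂ) * gs H v (⟨σ, U⟩ : ℂ)) * phi τ D (⟨σ, U⟩ : ℂ)‖ =
        ‖ff c T (⟨σ, U⟩ : ℂ)‖ * ‖DP N (d0 c ε T) (⟨σ, U⟩ : ℂ)‖ *
          (‖gv H v (⟨σ, U⟩ : ℂ)‖ * (‖DPs N (d0 c ε T) (⟨σ, U⟩ : ℂ)‖ * ‖gs H v (⟨σ, U⟩ : ℂ)‖)) *
          ‖phi τ D (⟨σ, U⟩ : ℂ)‖ := by
      simp only [norm_mul]
      ring
    rw [e1]
    have hlog : Real.exp (Real.log T) = T := Real.exp_log hT0
    have hTpow : T ^ 6 * T ^ (13 : ℝ) = Real.exp (19 * Real.log T) := by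
      have a1 : T ^ (13 : ℝ) = T ^ 13 := by norm_cast
      have a2 : Real.exp (19 * Real.log T) = T ^ 19 := by
        rw [show (19 : ℝ) * Real.log T = ((19 : ℕ) : ℝ) * Real.log T by norm_num,
          Real.exp_nat_mul, hlog]
      rw [a1, a2]
      ring
    calc ‖ff c T (⟨σ, U⟩ : ℂ)‖ * ‖DP N (d0 c ε T) (⟨σ, U⟩ : ℂ)‖ *
          (‖gv H v (⟨σ, U⟩ : ℂ)‖ * (‖DPs N (d0 c ε T) (⟨σ, U⟩ : ℂ)‖ * ‖gs H v (⟨σ, U⟩ : ℂ)‖)) *
          ‖phi τ D (⟨σ, U⟩ : ℂ)‖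
        ≤ Real.exp (Ch * Real.log T ^ 2) * T ^ 6 * (T ^ (13 : ℝ) * V) *
          (Real.exp 1 * Real.exp (-(1 / 50) * Real.log T ^ 4)) := by
          apply mul_le_mul _ p1 (norm_nonneg _) (by positivity)
          apply mul_le_mul _ p2 (by positivity) (by positivity)
          exact mul_le_mul hf p3 (norm_nonneg _) (by positivity)
      _ = V * (Real.exp (Ch * Real.log T ^ 2) * (T ^ 6 * T ^ (13 : ℝ)) *
          Real.exp 1 * Real.exp (-(1 / 50) * Real.log T ^ 4)) := by ring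
      _ ≤ V * (1 / 11) := by
          apply mul_le_mul_of_nonneg_left _ hV0
          rw [hTpow]
          have h11 : (11 : ℝ) ≤ Real.exp 4 := by
            have := Real.add_one_le_exp (1 : ℝ)
            have h4 : Real.exp 4 = Real.exp 1 ^ 4 := by rw [← Real.exp_nat_mul]; norm_num
            rw [h4]
            have : (2 : ℝ) ^ 4 ≤ Real.exp 1 ^ 4 := pow_le_pow_left₀ (by norm_num) (by linarith) 4
            linarith
          rw [le_div_iff₀ (by norm_num)]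
          calc Real.exp (Ch * Real.log T ^ 2) * Real.exp (19 * Real.log T) * Real.exp 1 *
                Real.exp (-(1 / 50) * Real.log T ^ 4) * 11
              ≤ Real.exp (Ch * Real.log T ^ 2) * Real.exp (19 * Real.log T) * Real.exp 1 *
                Real.exp (-(1 / 50) * Real.log T ^ 4) * Real.exp 4 :=
                mul_le_mul_of_nonneg_left h11 (by positivity)
            _ = Real.exp (Ch * Real.log T ^ 2 + 19 * Real.log T + 1 + 4) *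
                Real.exp (-(1 / 50) * Real.log T ^ 4) := by
                rw [Real.exp_add, Real.exp_add, Real.exp_add]
                ring
            _ ≤ Real.exp ((|Ch| + 24) * Real.log T ^ 2) *
                Real.exp (-(1 / 50) * Real.log T ^ 4) := by
                apply mul_le_mul_of_nonneg_right _ (Real.exp_pos _).le
                apply Real.exp_le_exp.mpr
                have := le_abs_self Ch
                have h2 : Real.log T ≤ Real.log T ^ 2 := by nlinarith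
                have h3 : 1 ≤ Real.log T ^ 2 := by nlinarith
                have h4 : Ch * Real.log T ^ 2 ≤ |Ch| * Real.log T ^ 2 :=
                  mul_le_mul_of_nonneg_right this (by positivity)
                linarith
            _ ≤ 1 := he
      _ = V / 11 := by ring
  have hmain := hS τ D (V / 11) (FF c ε H T N v) F1 hD (FF_diff c ε H T N v) hF1 hfac
    (fun σ h1 h2 => ⟨hor σ h1 h2 U1 hfar1 (hff σ h1 h2).1, hor σ h1 h2 U2 hfar2 (hff σ h1 h2).2⟩)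
  have hshift := hsh x η ε H T W N N' J hTs hdat U1 U2 τ hU1 hU1' hU2 hU2' hτ1 hτ2 v
  have hint : IntervalIntegrable (fun t : ℝ => G2 c ε H T τ N N' v (⟨1 / 2, t⟩ : ℂ)) volume U1 U2 :=
    an_cont (p := 1 / 2) hU12.le (fun s h1 h2 h3 =>
      G2_an c ε H T τ N N' v s (hrho T hTr' s (by linarith) (by linarith) (by
        rw [h1, abs_of_pos (by norm_num)]; linarith)).1)
  have him := im_int hint
  have e2 : ∫ t in U1..U2, (G2 c ε H T τ N N' v (⟨1 / 2, t⟩ : ℂ)).im =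
      ∫ t in U1..U2, wt τ D t * (ss c ε T N N' t * ‖gv H v (⟨1 / 2, t⟩ : ℂ)‖ ^ 2) :=
    intervalIntegral.integral_congr fun t _ => G2_half c ε H T τ N N' v t
  rw [← e2, ← him]
  have h3 := (Complex.abs_im_le_norm _).trans hshift
  rw [Complex.sub_im, abs_le] at h3
  linarith [h3.1]

end Pool.Agent.W192.PP
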